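import Pool.Agent.MP_478eab_an.P.Spec

/-! Perimeter of maximisers: cut-off functions, coverings, gluing. -/

namespace Pool.Agent.MP_478eab_an.P

open MeasureTheory Set Filter Topology Metric Pool.Agent.MP_478eab_an.V

variable {n : ℕ}

theorem bu_pd0 {f : Fn n} (h : ∀ y, 0 ≤ f y ∧ f y ≤ 1) {y : Fin n → ℝ} (hy : f y = 0 ∨ f y = 1)
    (i : Fin n) : pd i f y = 0 := by
  have : fderiv ℝ f y = 0 := by
    rcases hy with hy | hy
    · exact IsLocalMin.fderiv_eq_zero (.of_forall fun z => by rw [hy]; exact (h z).1)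
    · exact IsLocalMax.fderiv_eq_zero (.of_forall fun z => by rw [hy]; exact (h z).2)
  simp [pd, this]

theorem bu_norm {r : ℝ} (hr : 0 < r) (x y : Fin n → ℝ) : ‖r⁻¹ • (y - x)‖ = dist y x / r := by
  rw [norm_smul, Real.norm_eq_abs, abs_of_pos (inv_pos.2 hr), dist_eq_norm, div_eq_inv_mul]

theorem bumpS : BumpS n := by
  let b : ContDiffBump (0 : Fin n → ℝ) := ⟨1, 2, one_pos, one_lt_two⟩
  have hb : ContDiff ℝ 1 (b : Fn n) := b.contDiff (n := 1)
  have h01 : ∀ y, 0 ≤ b y ∧ b y ≤ 1 := fun y => ⟨b.nonneg, b.le_one⟩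
  obtain ⟨C, hC⟩ := (isCompact_closedBall (0 : Fin n → ℝ) 2).exists_bound_of_continuousOn
    (gs_continuous hb).continuousOn
  have hg : ∀ y, gs b y ≤ |C| + 1 := fun y => by
    by_cases hy : y ∈ closedBall (0 : Fin n → ℝ) 2
    · linarith [hC y hy, le_abs_self C, Real.le_norm_self (gs b y)]
    · have h0 : b y = 0 := b.zero_of_le_dist (not_le.1 fun c => hy (mem_closedBall.2 c)).le
      have : gs b y = 0 := Finset.sum_eq_zero fun i _ => by rw [bu_pd0 h01 (Or.inl h0)]; norm_num
      rw [this]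
      positivity
  refine ⟨|C| + 1, by positivity, fun x r hr => ?_⟩
  have h1 : ∀ y ∈ closedBall x r, b (r⁻¹ • (y - x)) = 1 := fun y hy =>
    b.one_of_mem_closedBall (by
      rw [mem_closedBall_zero_iff, bu_norm hr]
      exact (div_le_one hr).2 hy)
  have h0 : ∀ y, y ∉ closedBall x (2 * r) → b (r⁻¹ • (y - x)) = 0 := fun y hy =>
    b.zero_of_le_dist (by
      rw [dist_zero_right, bu_norm hr, le_div_iff₀ hr]
      exact (not_le.1 fun c => hy (mem_closedBall.2 c)).le)
  refine ⟨fun y => b (r⁻¹ • (y - x)), hb.comp (by fun_prop), fun y => h01 _, h1, h0, fun y => ?_,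
    fun y hy i => bu_pd0 (f := fun y => b (r⁻¹ • (y - x))) (fun y => h01 _)
      (hy.elim (fun c => Or.inr (h1 y c)) fun c => Or.inl (h0 y c)) i⟩
  have hd : HasFDerivAt (fun y : Fin n → ℝ => b (r⁻¹ • (y - x))) _ y :=
    (cd_diff hb _).hasFDerivAt.comp y (((hasFDerivAt_id y).sub_const x).const_smul r⁻¹)
  have : gs (fun y => b (r⁻¹ • (y - x))) y = gs b (r⁻¹ • (y - x)) / r ^ 2 := by
    unfold gs
    rw [Finset.sum_div]
    refine Finset.sum_congr rfl fun i _ => ?_
    rw [pd_of_has hd]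
    simp only [pd, ContinuousLinearMap.comp_apply, smul_apply, ContinuousLinearMap.id_apply,
      map_smul, smul_eq_mul]
    field_simp
  rw [this]
  exact div_le_div_of_nonneg_right (hg _) (by positivity)

theorem covS : CovS n := by
  classical
  refine ⟨?_, fun l hl hl1 => ?_⟩
  · obtain ⟨t, -, ht, hc⟩ := finite_cover_balls_of_compact
      (isCompact_closedBall (0 : Fin n → ℝ) 1) (show (0 : ℝ) < 1 / 8 by norm_num)
    refine ⟨ht.toFinset.card + 1, Nat.succ_pos _, fun x r hr =>
      ⟨ht.toFinset.image fun c => x + r • c, Finset.card_image_le.trans (Nat.le_succ _),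
        fun z hz => ?_⟩⟩
    have h1 : r⁻¹ • (z - x) ∈ closedBall (0 : Fin n → ℝ) 1 := by
      rw [mem_closedBall_zero_iff, bu_norm hr]
      exact (div_le_one hr).2 hz
    obtain ⟨c, hct, hz'⟩ := mem_iUnion₂.1 (hc h1)
    refine ⟨_, Finset.mem_image_of_mem _ (ht.mem_toFinset.2 hct), ?_⟩
    have h2 : r⁻¹ • (z - x) - c = r⁻¹ • (z - (x + r • c)) := by
      rw [← sub_sub, smul_sub r⁻¹ (z - x), smul_smul, inv_mul_cancel₀ hr.ne', one_smul]
    rw [mem_ball, dist_eq_norm, h2, bu_norm hr, div_lt_iff₀ hr] at hz'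
    rw [mem_closedBall]
    linarith
  · have hi : 1 ≤ 1 / l := (one_le_div hl).2 hl1
    refine ⟨Fintype.piFinset fun _ : Fin n =>
      (Finset.range (⌊1 / l⌋₊ + 1)).image fun k : ℕ => (k : ℝ) * l, ?_, fun y hy => ?_,
      fun z hz => ⟨fun i => (⌊z i / l⌋₊ : ℝ) * l, Fintype.mem_piFinset.2 fun i => ?_, ?_⟩⟩
    · rw [Fintype.card_piFinset, Finset.prod_const, Finset.card_univ, Fintype.card_fin,
        Nat.cast_pow]
      refine pow_le_pow_left₀ (Nat.cast_nonneg _) ?_ n
      have h1 := Finset.card_image_le (s := Finset.range (⌊1 / l⌋₊ + 1))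
        (f := fun k : ℕ => (k : ℝ) * l)
      rw [Finset.card_range] at h1
      have h2 := (Nat.cast_le (α := ℝ)).2 h1
      have h3 := Nat.floor_le (show 0 ≤ 1 / l by linarith)
      rw [Nat.cast_add, Nat.cast_one] at h2
      rw [show 3 / l = 3 * (1 / l) by ring]
      linarith
    · have h : ∀ i, 0 ≤ y i ∧ y i ≤ 1 := fun i => by
        obtain ⟨k, hk, e⟩ := Finset.mem_image.1 (Fintype.mem_piFinset.1 hy i)
        have h1 : (k : ℝ) ≤ 1 / l :=
          (Nat.le_floor_iff (by linarith)).1 (Nat.lt_succ_iff.1 (Finset.mem_range.1 hk))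
        rw [← e]
        exact ⟨by positivity, (le_div_iff₀ hl).1 h1⟩
      exact ⟨fun i => (h i).1, fun i => (h i).2⟩
    · exact Finset.mem_image_of_mem _ (Finset.mem_range.2 (Nat.lt_succ_of_le
        (Nat.floor_le_floor (div_le_div_of_nonneg_right (hz.2 i) hl.le))))
    · rw [mem_closedBall, dist_pi_le_iff hl.le]
      intro i
      have h1 := (le_div_iff₀ hl).1 (Nat.floor_le (div_nonneg (hz.1 i) hl.le))
      have h2 := (div_lt_iff₀ hl).1 (Nat.lt_floor_add_one (z i / l))
      rw [Real.dist_eq, abs_le]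
      constructor <;> linarith

theorem bu_fld {X : Fin n → Fn n} (hX : Fld X) {χ : Fn n} (hc : ContDiff ℝ 1 χ)
    (h : ∀ y, 0 ≤ χ y ∧ χ y ≤ 1) : Fld fun i y => χ y * X i y := by
  refine ⟨fun i => hc.mul (hX.cd i), fun x => le_trans (Finset.sum_le_sum fun i _ => ?_) (hX.le x),
    fun x hx i => by rw [hX.z x hx i, mul_zero]⟩
  rw [mul_pow]
  exact mul_le_of_le_one_left (sq_nonneg _) (pow_le_one₀ (h x).1 (h x).2)

theorem bu_int {M : Fn n} (hM : LB M) {X : Fin n → Fn n} (hX : Fld X) :
    IntegrableOn (fun x => M x * dv X x) (cube n) :=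
  (hM.mul (LB.of_cont (continuous_finsetSum _ fun i _ => pd_continuous (hX.cd i) i))).cube

theorem glueS (B : BumpS n) : GlueS n := by
  classical
  intro M T l b hM hl _ hT hb X hX
  obtain ⟨C, -, hB⟩ := B
  have key : ∀ S : Finset (Fin n → ℝ), S ⊆ T → ∀ X : Fin n → Fn n, Fld X →
      (∀ x, (∀ y ∈ S, x ∉ closedBall y l) → ∀ i, X i x = 0) →
      ∫ x in cube n, M x * dv X x ≤ S.card * b := by
    intro S
    induction S using Finset.induction_on with
    | empty =>
      intro _ X _ h0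
      have : X = fun _ _ => 0 := funext fun i => funext fun x => h0 x (by simp) i
      simp [this, dv, pd_const]
    | insert y S hy ih =>
      intro hS X hX h0
      obtain ⟨χ, hc, h01, h1, h2, -⟩ := hB y l hl
      have f1 := bu_fld hX hc h01
      have f2 := bu_fld hX (χ := fun z => 1 - χ z) (contDiff_const.sub hc)
        fun z => ⟨by linarith [(h01 z).2], by linarith [(h01 z).1]⟩
      have a1 := hb y (hS (Finset.mem_insert_self _ _)) _ f1 fun x hx i => by
        rw [h2 x hx, zero_mul]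
      have a2 := ih ((Finset.subset_insert _ _).trans hS) _ f2 fun x hx i => by
        by_cases c : x ∈ closedBall y l
        · rw [h1 x c, sub_self, zero_mul]
        · rw [h0 x (fun z hz => (Finset.mem_insert.1 hz).elim (fun e => e ▸ c) (hx z)) i, mul_zero]
      have e : ∀ x, M x * dv X x = M x * dv (fun i y => χ y * X i y) x +
          M x * dv (fun i y => (1 - χ y) * X i y) x := fun x => by
        rw [← mul_add, dv, dv, dv, ← Finset.sum_add_distrib]
        refine congrArg _ (Finset.sum_congr rfl fun i _ => ?_)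
        rw [← pd_add (cd_diff (f1.cd i) x) (cd_diff (f2.cd i) x)]
        exact congrArg (fun f => pd i f x) (funext fun z => by ring)
      rw [funext e, integral_add (bu_int hM f1) (bu_int hM f2), Finset.card_insert_of_notMem hy,
        Nat.cast_add, Nat.cast_one]
      linarith
  refine key T subset_rfl X hX fun x hx => hX.z x fun c => ?_
  obtain ⟨y, hy, h⟩ := hT x ⟨fun i => (c i trivial).1.le, fun i => (c i trivial).2.le⟩
  exact hx y hy h

end Pool.Agent.MP_478eab_an.P
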