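import Mathlib
import Pool.Agent.MP_478eab_an.V.Exist

/-! Perimeter of maximisers (`μ = 1`): definitions and the statements of the steps. -/

namespace Pool.Agent.MP_478eab_an.P

open MeasureTheory Set Filter Topology Metric Pool.Agent.MP_478eab_an.V

variable {n : ℕ}

/-- real functions on `ℝ^n` -/
abbrev Fn (n : ℕ) := (Fin n → ℝ) → ℝ

/-- scalar product of two gradients -/
noncomputable def dt (f g : Fn n) (x : Fin n → ℝ) : ℝ := ∑ i, pd i f x * pd i g x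

/-- scalar product of a field and a gradient -/
noncomputable def wd (W : Fin n → Fn n) (g : Fn n) (x : Fin n → ℝ) : ℝ := ∑ i, W i x * pd i g x

/-- divergence -/
noncomputable def dv (X : Fin n → Fn n) (x : Fin n → ℝ) : ℝ := ∑ i, pd i (X i) x

/-- mass of the Gaussian -/
noncomputable def c0 (n : ℕ) : ℝ := ∫ z : Fin n → ℝ, G (1 / 2) z

/-- folding of `ℝ^n` onto the cube -/
noncomputable def fold (x : Fin n → ℝ) : Fin n → ℝ :=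
  fun i => Real.arccos (Real.cos (Real.pi * x i)) / Real.pi

/-- ball of the sup norm, cut with the cube -/
def Q (x : Fin n → ℝ) (r : ℝ) : Set (Fin n → ℝ) := closedBall x r ∩ cube n

/-- weak solution of `-Δ u = g` on the cube with Neumann condition -/
def WS (u g : Fn n) : Prop :=
  ContDiff ℝ 1 u ∧ ∀ ψ : Fn n, ContDiff ℝ 1 ψ →
    ∫ x in cube n, dt u ψ x = ∫ x in cube n, g x * ψ x

/-- symmetric weak solution with bounded data -/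
structure SW (u g : Fn n) : Prop where
  ws : WS u g
  su : Sym u
  sg : Sym g
  bg : Bd g

/-- symmetric measurable resource with values in `[0, κ]` -/
structure Rc (κ : ℝ) (M : Fn n) : Prop where
  meas : Measurable M
  sym : Sym M
  bd : ∀ x, 0 ≤ M x ∧ M x ≤ κ

/-- state, switching function and drift -/
structure Dat (L : ℝ) (θ φ : Fn n) (W : Fin n → Fn n) : Prop where
  L0 : 0 < L
  tc : Continuous θ
  pc : ContDiff ℝ 1 φ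
  wc : ∀ i, Continuous (W i)
  t0 : ∀ x, 0 < θ x
  p0 : ∀ x, 0 < φ x
  pg : ∀ x i, |pd i φ x| ≤ L * φ x
  wb : ∀ x, ∑ i, W i x ^ 2 ≤ L ^ 2 * φ x ^ 2
  t1 : ∀ x, θ x ≤ L ^ 2
  t2 : ∀ x, θ x ≤ L ^ 2 * φ x
  weq : ∀ ζ : Fn n, ContDiff ℝ 1 ζ →
    ∫ x in cube n, wd W ζ x = ∫ x in cube n, θ x * (1 - φ x) * ζ x

/-- logarithmic response `v` to the perturbation `h` at a maximiser -/
structure Rsp (θ φ : Fn n) (W : Fin n → Fn n) (h v : Fn n) : Prop where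
  vc : ContDiff ℝ 1 v
  hl : LB h
  vb : ∀ x ∈ cube n, |v x| ≤ 1 / 100
  veq : ∀ ζ : Fn n, ContDiff ℝ 1 ζ →
    ∫ x in cube n, (φ x * dt v ζ x + ζ x * wd W v x - φ x * gs v x * ζ x
      + θ x * φ x * (Real.exp (v x) - 1) * ζ x) = ∫ x in cube n, h x * φ x * ζ x
  mx : ∫ x in cube n, θ x * (Real.exp (v x) - 1) ≤ 0

/-- what maximality says about small perturbations supported in `Q x₀ l` -/
def Mv (κ : ℝ) (M φ : Fn n) (x₀ : Fin n → ℝ) (l η A : ℝ) : Prop :=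
  ∀ h : Fn n, Measurable h → (∀ x, x ∉ Q x₀ l → h x = 0) →
    (∀ x, 0 ≤ M x + h x ∧ M x + h x ≤ κ) → ∫ x in cube n, h x = 0 →
    ∫ x in cube n, |h x| ≤ η →
      ∫ x in cube n, h x * φ x ≤ 0 ∧
      ∀ y s, 0 < s → s ≤ l → dist y x₀ ≤ 2 * l → ∃ ψ : Fn n, Continuous ψ ∧
        (∀ x ∈ closedBall y s, ψ x = 1) ∧ (∀ x, x ∉ closedBall y (2 * s) → ψ x = 0) ∧
        ∀ γ, 0 < γ → |∫ x in cube n, h x * φ x * ψ x|
          ≤ (4 / γ + 2) * |∫ x in cube n, h x * φ x| + γ * A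

/-- test fields: `C¹`, of length at most one, zero off the open cube -/
structure Fld (X : Fin n → Fn n) : Prop where
  cd : ∀ i, ContDiff ℝ 1 (X i)
  le : ∀ x, ∑ i, X i x ^ 2 ≤ 1
  z : ∀ x, x ∉ Set.pi univ (fun _ : Fin n => Ioo (0 : ℝ) 1) → ∀ i, X i x = 0

/-- R1: folding -/
def FoldS (n : ℕ) : Prop :=
  (∀ x : Fin n → ℝ, fold x ∈ cube n) ∧ (∀ x ∈ cube n, fold x = x) ∧
    Continuous (fold : (Fin n → ℝ) → Fin n → ℝ) ∧ (∀ f : Fn n, Sym fun x => f (fold x)) ∧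
    ∀ f : Fn n, Sym f → ∀ x, f (fold x) = f x

/-- R2a: monotone class theorem for bounded functions -/
def MonoS (n : ℕ) : Prop :=
  ∀ P : Fn n → Prop, (∀ f, Continuous f → Bd f → P f) →
    (∀ f g, Bd f → Bd g → P f → P g → P fun x => f x + g x) →
    (∀ (c : ℝ) f, Bd f → P f → P fun x => c * f x) →
    (∀ (F : ℕ → Fn n) (f : Fn n) (B : ℝ), (∀ k, Measurable (F k)) → (∀ k x, |F k x| ≤ B) →
      (∀ x, Tendsto (fun k => F k x) atTop (𝓝 (f x))) → (∀ k, P (F k)) → P f) →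
    ∀ f, Bd f → P f

/-- R2b: the resolvent of bounded measurable data is `C¹` -/
def RegS (n : ℕ) : Prop := ∀ (a : ℝ) (f : Fn n), 0 < a → Bd f → ContDiff ℝ 1 (Rs a f)

/-- R2c: the resolvent solves the weak Neumann problem -/
def WeakS (n : ℕ) : Prop :=
  ∀ (a : ℝ) (f : Fn n), 0 < a → Bd f → Sym f →
    WS (Rs a f) fun x => c0 n * f x - 2 * a * Rs a f x

/-- R3: representation of weak solutions -/
def RepS (n : ℕ) : Prop :=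
  (∀ (u g : Fn n) (a : ℝ), 0 < a → WS u g → LB g → ∀ x ∈ cube n,
    u x = Rs a (fun y => (c0 n)⁻¹ * (2 * a * u (fold y) + g (fold y))) x) ∧
  ∀ (u g : Fn n) (a : ℝ), 0 < a → SW u g →
    Bd u ∧ u = Rs a fun y => (c0 n)⁻¹ * (2 * a * u y + g y)

/-- R4a: logarithmic gradient estimate -/
def GradS (n : ℕ) : Prop :=
  ∃ C : ℝ, 0 < C ∧ ∀ (u g : Fn n) (β : ℝ), 0 < β → SW u g → (∀ x, 0 ≤ u x) →
    (∀ x, |g x| ≤ β * u x) → ∀ x i, |pd i u x| ≤ C * √β * u x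

/-- R4b: gradient estimate by the data alone -/
def Grad2S (n : ℕ) : Prop :=
  ∃ C : ℝ, 0 < C ∧ ∀ (u g : Fn n) (B : ℝ), SW u g → (∀ x, |g x| ≤ B) →
    ∀ x i, |pd i u x| ≤ C * B

/-- R4c: Harnack inequality from the gradient estimate -/
def HarS (n : ℕ) : Prop :=
  ∀ (u : Fn n) (L : ℝ), ContDiff ℝ 1 u → 0 ≤ L → (∀ x i, |pd i u x| ≤ L * u x) →
    ∀ x y, u y ≤ Real.exp (n * L * ‖y - x‖) * u x

/-- R5a: existence of the state -/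
def ExS (n : ℕ) : Prop :=
  ∀ (κ : ℝ) (M : Fn n), 0 < κ → Rc κ M → 0 < ∫ x in cube n, M x →
    ∃ θ : Fn n, SW θ (fun x => θ x * (M x - θ x)) ∧ ∀ x, 0 < θ x ∧ θ x ≤ κ

/-- R5b: symmetric version of a given state -/
def NormS (n : ℕ) : Prop :=
  ∀ (κ : ℝ) (M θ : Fn n), 0 < κ → Rc κ M → WS θ (fun x => θ x * (M x - θ x)) →
    (∀ x ∈ cube n, 0 < θ x) → ∃ θ' : Fn n, SW θ' (fun x => θ' x * (M x - θ' x)) ∧
      (∀ x, 0 < θ' x ∧ θ' x ≤ κ) ∧ ∀ x ∈ cube n, θ' x = θ x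

/-- R5c: existence of the adjoint state -/
def AdjS (n : ℕ) : Prop :=
  ∀ (κ : ℝ) (M θ : Fn n), 0 < κ → Rc κ M → SW θ (fun x => θ x * (M x - θ x)) →
    (∀ x, 0 < θ x ∧ θ x ≤ κ) →
    ∃ p : Fn n, SW p (fun x => (M x - 2 * θ x) * p x + 1) ∧ ∀ x, 1 ≤ 2 * κ * p x

/-- R6: the two identities -/
def IdS (n : ℕ) : Prop :=
  (∀ θ θ' p M M' : Fn n, LB M → LB M' → WS θ (fun x => θ x * (M x - θ x)) →
    WS θ' (fun x => θ' x * (M' x - θ' x)) → (∀ x, 0 < θ x) → (∀ x, 0 < θ' x) →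
    ContDiff ℝ 1 p → ∀ v : Fn n, (∀ x, v x = Real.log (θ' x) - Real.log (θ x)) →
    ∀ ζ : Fn n, ContDiff ℝ 1 ζ →
      ∫ x in cube n, (θ x * p x * dt v ζ x
        + ζ x * wd (fun i y => θ y * pd i p y - p y * pd i θ y) v x - θ x * p x * gs v x * ζ x
        + θ x * (θ x * p x) * (Real.exp (v x) - 1) * ζ x)
        = ∫ x in cube n, (M' x - M x) * (θ x * p x) * ζ x) ∧
  ∀ θ p M : Fn n, LB M → WS θ (fun x => θ x * (M x - θ x)) →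
    WS p (fun x => (M x - 2 * θ x) * p x + 1) → ∀ ζ : Fn n, ContDiff ℝ 1 ζ →
      ∫ x in cube n, wd (fun i y => θ y * pd i p y - p y * pd i θ y) ζ x
        = ∫ x in cube n, θ x * (1 - θ x * p x) * ζ x

/-- R7: Poincaré inequality on `Q x r` -/
def PoiS (n : ℕ) : Prop :=
  ∃ C : ℝ, 0 < C ∧ ∀ x ∈ cube n, ∀ (r δ : ℝ) (v : Fn n), 0 < r → ContDiff ℝ 1 v →
    (∀ y ∈ cube n, |v y| ≤ δ) →
    ∃ Y, |Y| ≤ δ ∧ ∫ y in Q x r, (v y - Y) ^ 2 ≤ C * r ^ 2 * ∫ y in Q x r, gs v y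

/-- R8a: cut-off functions -/
def BumpS (n : ℕ) : Prop :=
  ∃ C : ℝ, 0 < C ∧ ∀ (x : Fin n → ℝ) (r : ℝ), 0 < r → ∃ χ : Fn n, ContDiff ℝ 1 χ ∧
    (∀ y, 0 ≤ χ y ∧ χ y ≤ 1) ∧ (∀ y ∈ closedBall x r, χ y = 1) ∧
    (∀ y, y ∉ closedBall x (2 * r) → χ y = 0) ∧ (∀ y, gs χ y ≤ C / r ^ 2) ∧
    ∀ y, (y ∈ closedBall x r ∨ y ∉ closedBall x (2 * r)) → ∀ i, pd i χ y = 0

/-- R8b: coverings -/
def CovS (n : ℕ) : Prop :=
  (∃ N : ℕ, 0 < N ∧ ∀ (x : Fin n → ℝ) (r : ℝ), 0 < r → ∃ T : Finset (Fin n → ℝ), T.card ≤ N ∧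
    ∀ z ∈ closedBall x r, ∃ y ∈ T, z ∈ closedBall y (r / 8)) ∧
  ∀ l : ℝ, 0 < l → l ≤ 1 → ∃ T : Finset (Fin n → ℝ), (T.card : ℝ) ≤ (3 / l) ^ n ∧
    (∀ y ∈ T, y ∈ cube n) ∧ ∀ z ∈ cube n, ∃ y ∈ T, z ∈ closedBall y l

/-- R9a: key lemma -/
def KeyS (n : ℕ) : Prop :=
  ∃ ε : ℝ, 0 < ε ∧ ∀ (L l : ℝ) (θ φ h v : Fn n) (W : Fin n → Fn n) (x₀ : Fin n → ℝ),
    Dat L θ φ W → Rsp θ φ W h v → x₀ ∈ cube n → 0 < l → L * l ≤ ε →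
    (∀ x, x ∉ closedBall x₀ l → h x = 0) →
      ∫ x in cube n, h x * φ x ≤ 0 ∧
      ∫ x in cube n, φ x * gs v x ≤ 2 * |∫ x in cube n, h x * φ x| ∧
      ∫ x in cube n, θ x * φ x * v x ^ 2 ≤ |∫ x in cube n, h x * φ x|

/-- R9b: the tested inequality -/
def Key2S (n : ℕ) : Prop :=
  ∀ (L B γ : ℝ) (θ φ h v ψ : Fn n) (W : Fin n → Fn n), Dat L θ φ W → Rsp θ φ W h v →
    ∫ x in cube n, φ x * gs v x ≤ 2 * B → ∫ x in cube n, θ x * φ x * v x ^ 2 ≤ B →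
    ContDiff ℝ 1 ψ → (∀ x, 0 ≤ ψ x ∧ ψ x ≤ 1) → 0 < γ →
      |∫ x in cube n, h x * φ x * ψ x|
        ≤ (4 / γ + 2) * B + γ * ∫ x in cube n, φ x * (gs ψ x + L ^ 2 * ψ x ^ 2)

/-- R10: a Lipschitz function that is small in the mean is small -/
def SmallS (n : ℕ) : Prop :=
  ∀ Λ δ : ℝ, 0 < Λ → 0 < δ → ∃ η : ℝ, 0 < η ∧ ∀ v : Fn n, ContDiff ℝ 1 v →
    (∀ x i, |pd i v x| ≤ Λ) → ∫ x in cube n, (Real.exp (v x) - 1) ^ 2 ≤ η →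
    ∀ x ∈ cube n, |v x| ≤ δ

/-- R11a: selection of two separated masses -/
def SelS (n : ℕ) : Prop :=
  ∃ N : ℝ, 1 ≤ N ∧ ∀ (a b : Fn n) (κ l w : ℝ) (x₀ : Fin n → ℝ), Measurable a → Measurable b →
    (∀ x, 0 ≤ a x ∧ a x ≤ κ) → (∀ x, 0 ≤ b x ∧ b x ≤ κ) → 0 < l → 0 < w →
    (∀ x, x ∉ Q x₀ l → a x = 0 ∧ b x = 0) → w ≤ ∫ x in cube n, a x → w ≤ ∫ x in cube n, b x →
    ∃ y s, 0 < s ∧ s ≤ l ∧ dist y x₀ ≤ 2 * l ∧
      ((w / N ≤ ∫ x in closedBall y s, a x ∧ ∫ x in closedBall y (2 * s), b x ≤ w / 4) ∨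
       (w / N ≤ ∫ x in closedBall y s, b x ∧ ∫ x in closedBall y (2 * s), a x ≤ w / 4))

/-- R11b: local level and measure of the strip -/
def StripS (n : ℕ) : Prop :=
  ∃ C : ℝ, 0 < C ∧ ∀ (κ l η A f₀ : ℝ) (M φ : Fn n) (x₀ : Fin n → ℝ), Measurable M →
    (∀ x, 0 ≤ M x ∧ M x ≤ κ) → Continuous φ → 0 < l → 0 < η → 0 < A → 0 < f₀ →
    (∀ x ∈ Q x₀ l, f₀ / 2 ≤ φ x ∧ φ x ≤ 2 * f₀) → Mv κ M φ x₀ l η A →
    ∃ c, (∀ᵐ x ∂volume.restrict (Q x₀ l), φ x < c → M x = 0) ∧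
      (∀ᵐ x ∂volume.restrict (Q x₀ l), c < φ x → M x = κ) ∧
      ∀ᶠ t in 𝓝[>] (0 : ℝ), ∫ x in Q x₀ l ∩ {x | φ x < c + t}, M x ≤ C * A / f₀ ^ 2 * t ∨
        ∫ x in Q x₀ l ∩ {x | c - t < φ x}, (κ - M x) ≤ C * A / f₀ ^ 2 * t

/-- R12a: local perimeter bound -/
def LocS (n : ℕ) : Prop :=
  ∀ (κ l c B Λ : ℝ) (M φ : Fn n) (x₀ : Fin n → ℝ), Measurable M → (∀ x, 0 ≤ M x ∧ M x ≤ κ) →
    ContDiff ℝ 1 φ → 0 ≤ Λ → 0 ≤ B → (∀ x ∈ Q x₀ l, gs φ x ≤ Λ ^ 2) →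
    (∀ᵐ x ∂volume.restrict (Q x₀ l), c < φ x → M x = κ) →
    (∃ᶠ t in 𝓝[>] (0 : ℝ), ∫ x in Q x₀ l ∩ {x | φ x < c + t}, M x ≤ B * t) →
      (∀ᵐ x ∂volume.restrict (Q x₀ l), M x = 0 ∨ M x = κ) ∧
      ∀ X : Fin n → Fn n, Fld X → (∀ x, x ∉ closedBall x₀ l → ∀ i, X i x = 0) →
        ∫ x in cube n, M x * dv X x ≤ 2 * Λ * B

/-- R12b: the divergence of a test field has mean zero -/
def DivS (n : ℕ) : Prop :=
  ∀ (f : Fn n) (i : Fin n), ContDiff ℝ 1 f →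
    (∀ x, x ∉ Set.pi univ (fun _ : Fin n => Ioo (0 : ℝ) 1) → f x = 0) →
    ∫ x in cube n, pd i f x = 0

/-- R12c: gluing -/
def GlueS (n : ℕ) : Prop :=
  ∀ (M : Fn n) (T : Finset (Fin n → ℝ)) (l b : ℝ), LB M → 0 < l → 0 ≤ b →
    (∀ z ∈ cube n, ∃ y ∈ T, z ∈ closedBall y l) →
    (∀ y ∈ T, ∀ X : Fin n → Fn n, Fld X → (∀ x, x ∉ closedBall y (2 * l) → ∀ i, X i x = 0) →
      ∫ x in cube n, M x * dv X x ≤ b) →
    ∀ X : Fin n → Fn n, Fld X → ∫ x in cube n, M x * dv X x ≤ T.card * b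

/-- maximality in normalised form -/
def Mx (κ : ℝ) (M θ : Fn n) : Prop :=
  ∀ M' θ' : Fn n, Rc κ M' → ∫ x in cube n, M' x = ∫ x in cube n, M x →
    WS θ' (fun x => θ' x * (M' x - θ' x)) → (∀ x, 0 < θ' x) →
    ∫ x in cube n, θ' x ≤ ∫ x in cube n, θ x

/-- R13a: the data at a state -/
def DatS (n : ℕ) : Prop :=
  ∃ C : ℝ, 1 ≤ C ∧ ∀ (κ : ℝ) (M θ : Fn n), 0 < κ → Rc κ M → SW θ (fun x => θ x * (M x - θ x)) →
    (∀ x, 0 < θ x ∧ θ x ≤ κ) → (∀ x i, |pd i θ x| ≤ C * √κ * θ x) ∧ ∃ p : Fn n, ContDiff ℝ 1 p ∧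
      Dat (C * √κ) θ (fun x => θ x * p x) (fun i y => θ y * pd i p y - p y * pd i θ y) ∧
      ∀ x i, |pd i (fun x => θ x * p x) x| ≤ C * min √κ κ * (θ x * p x)

/-- R13b: the analytic half -/
def PdeS (n : ℕ) : Prop :=
  ∃ ε C : ℝ, 0 < ε ∧ ε ≤ 1 ∧ 0 < C ∧ ∀ (κ : ℝ) (M θ : Fn n), 0 < κ → Rc κ M →
    0 < ∫ x in cube n, M x → SW θ (fun x => θ x * (M x - θ x)) → (∀ x, 0 < θ x ∧ θ x ≤ κ) →
    Mx κ M θ → ∃ φ : Fn n, ContDiff ℝ 1 φ ∧ (∀ x, 0 < φ x) ∧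
      ∀ x₀ ∈ cube n, ∀ l, 0 < l → (1 + √κ) * l ≤ ε →
        (∀ x ∈ Q x₀ l, φ x₀ / 2 ≤ φ x ∧ φ x ≤ 2 * φ x₀) ∧
        (∀ x ∈ Q x₀ l, gs φ x ≤ (C * min √κ κ * φ x₀) ^ 2) ∧
        ∃ η, 0 < η ∧ Mv κ M φ x₀ l η (C * φ x₀ * l ^ (n - 2))

/-- R14: the theorem for `μ = 1` -/
def MainS (n : ℕ) : Prop :=
  ∃ C : ℝ, 0 < C ∧ ∀ (κ : ℝ) (M θ : Fn n), 0 < κ → Rc κ M → 0 < ∫ x in cube n, M x →
    WS θ (fun x => θ x * (M x - θ x)) → (∀ x ∈ cube n, 0 < θ x) → Mx κ M θ →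
      (∀ᵐ x ∂volume.restrict (cube n), M x = 0 ∨ M x = κ) ∧
      ∀ X : Fin n → Fn n, Fld X → ∫ x in cube n, M x * dv X x ≤ κ * (C * (1 + √κ))

end Pool.Agent.MP_478eab_an.P
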