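import Mathlib
import Pool.Agent.MP_478eab_an.P.Spec

/-! The data at a state: gradient bounds for the state, the adjoint state and their product. -/

namespace Pool.Agent.MP_478eab_an.P

open MeasureTheory Set Filter Topology Metric Pool.Agent.MP_478eab_an.V

variable {n : ℕ}

theorem da_norm {x y : Fin n → ℝ} (hx : x ∈ cube n) (hy : y ∈ cube n) : ‖y - x‖ ≤ 1 := by
  refine (pi_norm_le_iff_of_nonneg zero_le_one).2 fun i => ?_
  have a1 : (0 : ℝ) ≤ x i := hx.1 i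
  have a2 : x i ≤ (1 : ℝ) := hx.2 i
  have a3 : (0 : ℝ) ≤ y i := hy.1 i
  have a4 : y i ≤ (1 : ℝ) := hy.2 i
  rw [Pi.sub_apply, Real.norm_eq_abs, abs_le]
  constructor <;> linarith

/-- global Harnack bound for symmetric functions -/
theorem da_har (F : FoldS n) (H : HarS n) {u : Fn n} {L : ℝ} (hc : ContDiff ℝ 1 u) (hs : Sym u)
    (h0 : ∀ x, 0 ≤ u x) (hL : 0 ≤ L) (hg : ∀ x i, |pd i u x| ≤ L * u x) (x y : Fin n → ℝ) :
    u y ≤ Real.exp (n * L) * u x := by
  obtain ⟨f1, -, -, -, f5⟩ := F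
  have h := H u L hc hL hg (fold x) (fold y)
  rw [f5 u hs, f5 u hs] at h
  refine h.trans (mul_le_mul_of_nonneg_right (Real.exp_le_exp.2 ?_) (h0 x))
  have h1 := da_norm (f1 x) (f1 y)
  have h2 : 0 ≤ (n : ℝ) * L := mul_nonneg (Nat.cast_nonneg n) hL
  calc (n : ℝ) * L * ‖fold y - fold x‖ ≤ n * L * 1 := mul_le_mul_of_nonneg_left h1 h2
    _ = n * L := mul_one _

theorem da_comb {a b s t A B : ℝ} (hs : 0 ≤ s) (ht : 0 ≤ t) (ha : |a| ≤ A * s) (hb : |b| ≤ B * t) :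
    |a * t + s * b| ≤ (A + B) * (s * t) ∧ |s * b - t * a| ≤ (A + B) * (s * t) := by
  have e1 : |a * t| ≤ A * s * t := by
    rw [abs_mul, abs_of_nonneg ht]; exact mul_le_mul_of_nonneg_right ha ht
  have e2 : |s * b| ≤ s * (B * t) := by
    rw [abs_mul, abs_of_nonneg hs]; exact mul_le_mul_of_nonneg_left hb hs
  have e3 : |t * a| = |a * t| := by rw [mul_comm]
  constructor
  · calc |a * t + s * b| ≤ |a * t| + |s * b| := abs_add_le _ _
      _ ≤ A * s * t + s * (B * t) := add_le_add e1 e2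
      _ = (A + B) * (s * t) := by ring
  · calc |s * b - t * a| ≤ |s * b| + |t * a| := abs_sub _ _
      _ ≤ s * (B * t) + A * s * t := add_le_add e2 (e3 ▸ e1)
      _ = (A + B) * (s * t) := by ring

theorem datS (F : FoldS n) (G : GradS n) (G2 : Grad2S n) (H : HarS n) (A : AdjS n) (I : IdS n) :
    DatS n := by
  obtain ⟨C1, hC1, G⟩ := G
  obtain ⟨C2, hC2, G2⟩ := G2
  have hn0 : (0 : ℝ) ≤ n := Nat.cast_nonneg n
  set E : ℝ := Real.exp (n * (2 * C1)) with hE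
  have hE0 : 0 < E := Real.exp_pos _
  set C : ℝ := 2 + 3 * (n + 1) * C1 + 5 * C2 * E with hC
  have c1 : 0 ≤ 3 * ((n : ℝ) + 1) * C1 := by positivity
  have c2 : 0 ≤ 5 * C2 * E := by positivity
  have c3 : 2 ≤ C := by linarith
  have c4 : 3 * ((n : ℝ) + 1) * C1 ≤ C := by linarith
  have c5 : 3 * C1 ≤ C := by nlinarith
  have c6 : 5 * C2 * E ≤ C := by linarith
  refine ⟨C, by linarith, fun κ M θ hκ hM hθ hb => ?_⟩
  have hs : 0 < √κ := Real.sqrt_pos.2 hκ
  have hss : √κ ^ 2 = κ := Real.sq_sqrt hκ.le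
  obtain ⟨p, hp, hp1⟩ := A κ M θ hκ hM hθ hb
  have p0 : ∀ x, 0 < p x := fun x => by
    by_contra h
    have := hp1 x
    nlinarith [not_lt.1 h]
  have gθ : ∀ x, |θ x * (M x - θ x)| ≤ κ * θ x := fun x => by
    obtain ⟨a1, a2⟩ := hb x
    obtain ⟨a3, a4⟩ := hM.bd x
    rw [abs_mul, abs_of_pos a1, mul_comm]
    refine mul_le_mul_of_nonneg_right (abs_le.2 ⟨?_, ?_⟩) a1.le <;> linarith
  have gp : ∀ x, |(M x - 2 * θ x) * p x + 1| ≤ 4 * κ * p x := fun x => by
    obtain ⟨a1, a2⟩ := hb x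
    obtain ⟨a3, a4⟩ := hM.bd x
    have a5 := hp1 x
    have a6 := p0 x
    rw [abs_le]
    constructor <;> nlinarith
  have dθ : ∀ x i, |pd i θ x| ≤ C1 * √κ * θ x :=
    G θ _ κ hκ hθ (fun x => (hb x).1.le) gθ
  have dp : ∀ x i, |pd i p x| ≤ 2 * C1 * √κ * p x := fun x i => by
    have h := G p _ (4 * κ) (by positivity) hp (fun x => (p0 x).le) gp x i
    have e : √(4 * κ) = 2 * √κ := by
      rw [Real.sqrt_mul (by norm_num), show (4 : ℝ) = 2 ^ 2 by norm_num,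
        Real.sqrt_sq (by norm_num)]
    rw [e] at h
    linarith
  have θc : ContDiff ℝ 1 θ := hθ.ws.1
  have pc : ContDiff ℝ 1 p := hp.ws.1
  have φ0 : ∀ x, 0 < θ x * p x := fun x => mul_pos (hb x).1 (p0 x)
  have dφ : ∀ x i, pd i (fun x => θ x * p x) x = pd i θ x * p x + θ x * pd i p x := fun x i =>
    pd_mul (cd_diff θc x) (cd_diff pc x) i
  have k1 : ∀ x i, |pd i θ x * p x + θ x * pd i p x| ≤ 3 * C1 * √κ * (θ x * p x) ∧
      |θ x * pd i p x - p x * pd i θ x| ≤ 3 * C1 * √κ * (θ x * p x) := fun x i => by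
    have h := da_comb (hb x).1.le (p0 x).le (dθ x i) (dp x i)
    rwa [show C1 * √κ + 2 * C1 * √κ = 3 * C1 * √κ by ring] at h
  have k2 : ∀ x i, |pd i (fun x => θ x * p x) x| ≤ C * √κ * (θ x * p x) := fun x i => by
    rw [dφ]
    refine (k1 x i).1.trans ?_
    have := φ0 x
    gcongr
  have LM : LB M := LB.of_bound hM.meas (C := κ) fun x => by
    rw [abs_of_nonneg (hM.bd x).1]; exact (hM.bd x).2
  have L2 : (C * √κ) ^ 2 = C ^ 2 * κ := by rw [mul_pow, hss]
  refine ⟨fun x i => (dθ x i).trans ?_, p, pc, ⟨by positivity, θc.continuous, θc.mul pc,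
    fun i => (θc.continuous.mul (pd_continuous pc i)).sub
      (pc.continuous.mul (pd_continuous θc i)), fun x => (hb x).1, φ0, k2, fun x => ?_,
    fun x => ?_, fun x => ?_, fun ζ hζ => I.2 θ p M LM hθ.ws hp.ws ζ hζ⟩, fun x i => ?_⟩
  · have := (hb x).1
    gcongr
    linarith
  · have h1 : ∀ i, (θ x * pd i p x - p x * pd i θ x) ^ 2 ≤ (3 * C1 * √κ * (θ x * p x)) ^ 2 :=
      fun i => by
        rw [← sq_abs]
        exact pow_le_pow_left₀ (abs_nonneg _) (k1 x i).2 2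
    calc ∑ i, (θ x * pd i p x - p x * pd i θ x) ^ 2
        ≤ ∑ _i : Fin n, (3 * C1 * √κ * (θ x * p x)) ^ 2 := Finset.sum_le_sum fun i _ => h1 i
      _ = n * (3 * C1) ^ 2 * (√κ * (θ x * p x)) ^ 2 := by
        rw [Finset.sum_const, Finset.card_univ, Fintype.card_fin, nsmul_eq_mul]; ring
      _ ≤ C ^ 2 * (√κ * (θ x * p x)) ^ 2 := by
        refine mul_le_mul_of_nonneg_right ?_ (sq_nonneg _)
        have h2 : (3 * ((n : ℝ) + 1) * C1) ^ 2 ≤ C ^ 2 := pow_le_pow_left₀ c1 c4 2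
        have h3 : (n : ℝ) ≤ (n + 1) ^ 2 := by nlinarith
        calc (n : ℝ) * (3 * C1) ^ 2 ≤ (n + 1) ^ 2 * (3 * C1) ^ 2 :=
              mul_le_mul_of_nonneg_right h3 (sq_nonneg _)
          _ = (3 * ((n : ℝ) + 1) * C1) ^ 2 := by ring
          _ ≤ C ^ 2 := h2
      _ = (C * √κ) ^ 2 * (θ x * p x) ^ 2 := by ring
  · rw [L2]
    have h1 : 1 ≤ C ^ 2 := by nlinarith
    calc θ x ≤ κ := (hb x).2
      _ = 1 * κ := (one_mul _).symm
      _ ≤ C ^ 2 * κ := mul_le_mul_of_nonneg_right h1 hκ.le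
  · rw [L2]
    have h1 : 2 ≤ C ^ 2 := by nlinarith
    have h2 := (hb x).1
    have h3 := φ0 x
    calc θ x = θ x * 1 := (mul_one _).symm
      _ ≤ θ x * (2 * κ * p x) := mul_le_mul_of_nonneg_left (hp1 x) h2.le
      _ = 2 * κ * (θ x * p x) := by ring
      _ ≤ C ^ 2 * κ * (θ x * p x) := by gcongr
  · rcases le_total (√κ) κ with h | h
    · rw [min_eq_left h]; exact k2 x i
    rw [min_eq_right h, dφ]
    have s1 : √κ ≤ 1 := by
      by_contra h'
      nlinarith [not_le.1 h']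
    have dθ' : ∀ y j, |pd j θ y| ≤ 2 * C1 * θ y := fun y j => (dθ y j).trans (by
      refine mul_le_mul_of_nonneg_right ?_ (hb y).1.le
      nlinarith)
    have dp' : ∀ y j, |pd j p y| ≤ 2 * C1 * p y := fun y j => (dp y j).trans (by
      refine mul_le_mul_of_nonneg_right ?_ (p0 y).le
      nlinarith)
    have hθy := da_har F H θc hθ.su (fun y => (hb y).1.le) (by positivity) dθ' x
    have hpy := da_har F H pc hp.su (fun y => (p0 y).le) (by positivity) dp' x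
    have a1 : |pd i θ x| ≤ C2 * (κ * (E * θ x)) :=
      G2 θ _ _ hθ (fun y => (gθ y).trans (mul_le_mul_of_nonneg_left (hθy y) hκ.le)) x i
    have a2 : |pd i p x| ≤ C2 * (4 * κ * (E * p x)) :=
      G2 p _ _ hp (fun y => (gp y).trans (mul_le_mul_of_nonneg_left (hpy y) (by positivity))) x i
    have a3 := (da_comb (A := C2 * κ * E) (B := 4 * C2 * κ * E) (hb x).1.le (p0 x).le
      (a1.trans_eq (by ring)) (a2.trans_eq (by ring))).1
    refine a3.trans ?_
    have := φ0 x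
    refine mul_le_mul_of_nonneg_right ?_ this.le
    calc C2 * κ * E + 4 * C2 * κ * E = 5 * C2 * E * κ := by ring
      _ ≤ C * κ := mul_le_mul_of_nonneg_right c6 hκ.le

end Pool.Agent.MP_478eab_an.P
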