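import Pool.Agent.MP_478eab_an.P.Spec

/-! Existence of the state and of the adjoint state by monotone iteration. -/

namespace Pool.Agent.MP_478eab_an.P

open MeasureTheory Set Filter Topology Metric Pool.Agent.MP_478eab_an.V

variable {n : ℕ}

theorem ex_c0 : 0 < c0 n := integral_exp_pos (G_int (by norm_num))

theorem ex_const {a : ℝ} (ha : 0 < a) (s : ℝ) (x : Fin n → ℝ) :
    Rs a (fun _ => (c0 n)⁻¹ * (2 * a * s)) x = s := by
  have h := ex_c0 (n := n)
  rw [Rs_const ha, ← c0]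
  field_simp

theorem ex_lb {f : Fn n} (h : Bd f) : LB f := by
  obtain ⟨h1, C, hC⟩ := h
  exact LB.of_bound h1 hC

/-- the functions between the two barriers -/
def ex_K (lo : ℝ) (hi u : Fn n) : Prop := Measurable u ∧ Sym u ∧ ∀ x, lo ≤ u x ∧ u x ≤ hi x

/-- monotone iteration -/
theorem ex_iter {a lo B : ℝ} {hi : Fn n} (ha : 0 < a) (N : (Fin n → ℝ) → ℝ → ℝ)
    (h0 : ex_K lo hi hi) (nm : ∀ u : Fn n, Measurable u → Measurable fun x => N x (u x))
    (ns : ∀ t, Sym fun x => N x t) (nc : ∀ x, Continuous (N x))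
    (nb : ∀ x t, lo ≤ t → t ≤ hi x → |N x t| ≤ B)
    (mo : ∀ x s t, lo ≤ s → s ≤ t → t ≤ hi x → N x s ≤ N x t)
    (sub : ∀ x, lo ≤ Rs a (fun y => N y lo) x) (sup : ∀ x, Rs a (fun y => N y (hi y)) x ≤ hi x) :
    ∃ (U : ℕ → Fn n) (θ : Fn n), U 0 = hi ∧ (∀ k, ex_K lo hi (U k)) ∧
      (∀ k, U (k + 1) = Rs a fun y => N y (U k y)) ∧ (∀ k x, U (k + 1) x ≤ U k x) ∧
      (∀ x, Tendsto (fun k => U k x) atTop (𝓝 (θ x))) ∧ ex_K lo hi θ ∧
      θ = Rs a fun y => N y (θ y) := by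
  have Fb : ∀ u, ex_K lo hi u → Bd fun y => N y (u y) := fun u hu =>
    ⟨nm u hu.1, B, fun x => nb x _ (hu.2.2 x).1 (hu.2.2 x).2⟩
  have Fm : ∀ u v, ex_K lo hi u → ex_K lo hi v → (∀ x, u x ≤ v x) → ∀ x,
      Rs a (fun y => N y (u y)) x ≤ Rs a (fun y => N y (v y)) x := fun u v hu hv h =>
    Rs_mono ha (Fb u hu) (Fb v hv) fun x => mo x _ _ (hu.2.2 x).1 (h x) (hv.2.2 x).2
  have l0 : ex_K lo hi fun _ => lo :=
    ⟨measurable_const, fun _ _ _ => rfl, fun x => ⟨le_rfl, (h0.2.2 x).1⟩⟩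
  have TK : ∀ u, ex_K lo hi u → ex_K lo hi (Rs a fun y => N y (u y)) := fun u hu =>
    ⟨(continuous_iff_continuousAt.2 fun x => (Rs_has ha (Fb u hu) x).continuousAt).measurable,
      Rs_sym ha (Fb u hu) fun j i x => by
        rw [hu.2.1 j i x]
        exact ns _ j i x,
      fun x => ⟨(sub x).trans (Fm _ _ l0 hu (fun y => (hu.2.2 y).1) x),
        (Fm _ _ hu h0 (fun y => (hu.2.2 y).2) x).trans (sup x)⟩⟩
  set U : ℕ → Fn n := fun k => (fun u => Rs a fun y => N y (u y))^[k] hi with hU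
  have Us : ∀ k, U (k + 1) = Rs a fun y => N y (U k y) := fun k =>
    Function.iterate_succ_apply' _ _ _
  have UK : ∀ k, ex_K lo hi (U k) := fun k => by
    induction k with
    | zero => exact h0
    | succ k ih => rw [Us]; exact TK _ ih
  have Ua : ∀ k x, U (k + 1) x ≤ U k x := fun k => by
    induction k with
    | zero => exact fun x => ((UK 1).2.2 x).2
    | succ k ih =>
      intro x
      rw [Us (k + 1)]
      conv_rhs => rw [Us k]
      exact Fm _ _ (UK _) (UK _) ih x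
  have lim : ∀ x, Tendsto (fun k => U k x) atTop (𝓝 (⨅ k, U k x)) := fun x =>
    tendsto_atTop_ciInf (antitone_nat_of_succ_le fun k => Ua k x)
      ⟨lo, by rintro _ ⟨k, rfl⟩; exact ((UK k).2.2 x).1⟩
  refine ⟨U, fun x => ⨅ k, U k x, rfl, UK, Us, Ua, lim,
    ⟨measurable_of_tendsto_metrizable (fun k => (UK k).1) (tendsto_pi_nhds.2 lim),
      fun j i x => by simp only [fun k => (UK k).2.1 j i x],
      fun x => ⟨ge_of_tendsto' (lim x) fun k => ((UK k).2.2 x).1,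
        le_of_tendsto' (lim x) fun k => ((UK k).2.2 x).2⟩⟩, funext fun x => ?_⟩
  have l1 : Tendsto (fun k => U (k + 1) x) atTop (𝓝 (⨅ k, U k x)) :=
    (lim x).comp (tendsto_add_atTop_nat 1)
  simp only [Us] at l1
  exact tendsto_nhds_unique l1 (Rs_lim ha (M := B) (fun k => nm _ (UK k).1)
    (fun k y => nb y _ ((UK k).2.2 y).1 ((UK k).2.2 y).2)
    (fun y => ((nc y).tendsto _).comp (lim y)) x)

/-- a positive weak solution tested with its inverse -/
theorem ex_inv {u g : Fn n} (h : WS u g) (h0 : ∀ x, 0 < u x) :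
    ∫ x in cube n, g x * (u x)⁻¹ ≤ 0 := by
  rw [← h.2 (fun x => (u x)⁻¹) (h.1.inv fun x => (h0 x).ne')]
  refine integral_nonpos fun x => Finset.sum_nonpos fun i _ => ?_
  rw [pd_comp (hasDerivAt_inv (h0 x).ne') (cd_diff h.1 x) i]
  nlinarith [mul_nonneg (inv_nonneg.2 (sq_nonneg (u x))) (sq_nonneg (pd i u x))]

theorem exS (W : WeakS n) (G : GradS n) (H : HarS n) : ExS n := by
  intro κ M hκ hM hI
  have hc := ex_c0 (n := n)
  have hb : 0 < (c0 n)⁻¹ := inv_pos.2 hc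
  have bM : Bd M := Bd.of_le hM.meas (fun x => (hM.bd x).1) fun x => (hM.bd x).2
  have mo : ∀ x s t, 0 ≤ s → s ≤ t → t ≤ κ → s * (M x - s + 2 * κ) ≤ t * (M x - t + 2 * κ) :=
    fun x s t _ h2 h3 => by
      have h4 : 0 ≤ M x + 2 * κ - s - t := by linarith [(hM.bd x).1]
      nlinarith [mul_nonneg (sub_nonneg.2 h2) h4]
  have up : ∀ x, κ * (M x - κ + 2 * κ) ≤ 2 * κ * κ := fun x => by
    nlinarith [mul_nonneg hκ.le (sub_nonneg.2 (hM.bd x).2)]
  have nm : ∀ u : Fn n, Measurable u →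
      Measurable fun x => (c0 n)⁻¹ * (u x * (M x - u x + 2 * κ)) := fun u hu =>
    (hu.mul ((hM.meas.sub hu).add_const _)).const_mul _
  have nb : ∀ x t, 0 ≤ t → t ≤ κ → |(c0 n)⁻¹ * (t * (M x - t + 2 * κ))| ≤ (c0 n)⁻¹ * (2 * κ * κ) :=
    fun x t h1 h2 => by
      rw [abs_of_nonneg (mul_nonneg hb.le (mul_nonneg h1 (by linarith [(hM.bd x).1])))]
      exact mul_le_mul_of_nonneg_left ((mo x _ _ h1 h2 le_rfl).trans (up x)) hb.le
  obtain ⟨U, θ, U0, UK, Us, Ua, lim, θK, fix⟩ := ex_iter (lo := 0) (hi := fun _ => κ) hκ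
    (fun x t => (c0 n)⁻¹ * (t * (M x - t + 2 * κ)))
    ⟨measurable_const, fun _ _ _ => rfl, fun _ => ⟨hκ.le, le_rfl⟩⟩ nm
    (fun t j i x => by simp only [hM.sym j i x]) (fun x => by fun_prop) nb
    (fun x s t h1 h2 h3 => mul_le_mul_of_nonneg_left (mo x s t h1 h2 h3) hb.le)
    (fun x => by simp [Rs])
    (fun x => (Rs_mono hκ ⟨nm _ measurable_const, _, fun y => nb y κ hκ.le le_rfl⟩ (Bd.const _)
      (fun y => mul_le_mul_of_nonneg_left (up y) hb.le) x).trans_eq (ex_const hκ κ x))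
  have Fb : ∀ u, ex_K 0 (fun _ => κ) u → Bd fun y => (c0 n)⁻¹ * (u y * (M y - u y + 2 * κ)) :=
    fun u hu => ⟨nm u hu.1, _, fun x => nb x _ (hu.2.2 x).1 (hu.2.2 x).2⟩
  have Kb : ∀ u : Fn n, ex_K 0 (fun _ => κ) u → Bd u := fun u hu =>
    Bd.of_le hu.1 (fun x => (hu.2.2 x).1) fun x => (hu.2.2 x).2
  have Fw : ∀ u v, ex_K 0 (fun _ => κ) u →
      (v = Rs κ fun y => (c0 n)⁻¹ * (u y * (M y - u y + 2 * κ))) →
      WS v fun x => u x * (M x - u x + 2 * κ) - 2 * κ * v x := fun u v hu hv => by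
    have := W κ _ hκ (Fb u hu) fun j i x => by simp only [hM.sym j i x, hu.2.1 j i x]
    rw [← hv] at this
    simpa only [mul_inv_cancel_left₀ hc.ne'] using this
  have Up : ∀ k, ∃ s, 0 < s ∧ ∀ x, s ≤ U k x := fun k => by
    induction k with
    | zero => exact ⟨κ, hκ, fun x => by rw [U0]⟩
    | succ k ih =>
      obtain ⟨s, s0, hs⟩ := ih
      refine ⟨s / 2, by positivity, fun x => ?_⟩
      rw [Us]
      refine (ex_const hκ _ x).symm.trans_le (Rs_mono hκ (Bd.const _) (Fb _ (UK k))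
        (fun y => mul_le_mul_of_nonneg_left ?_ hb.le) x)
      have h1 : U k y ≤ κ := ((UK k).2.2 y).2
      nlinarith [mul_le_mul (hs y) (show κ ≤ M y - U k y + 2 * κ by linarith [(hM.bd y).1]) hκ.le
        ((UK k).2.2 y).1]
  have UI : ∀ k, ∫ x in cube n, M x ≤ ∫ x in cube n, U (k + 1) x := fun k => by
    obtain ⟨s, s0, hs⟩ := Up (k + 1)
    have p : ∀ x, 0 < U (k + 1) x := fun x => s0.trans_le (hs x)
    have w := Fw _ _ (UK k) (Us k)
    have h1 := ex_inv w p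
    have l1 := ex_lb (Kb _ (UK k))
    have l2 := ex_lb (Kb _ (UK (k + 1)))
    have h2 := lin2 cube_meas (ex_lb bM).cube l2.cube
      (((l1.mul (((ex_lb bM).sub l1).add (LB.const (2 * κ)))).sub (l2.cmul (2 * κ))).mul
        (LB.of_cont (w.1.continuous.inv₀ fun x => (p x).ne'))).cube (a := 1) (b := 1)
      fun x _ => by
        have h3 := mul_le_mul_of_nonneg_right
          (mo x _ _ (p x).le (Ua k x) ((UK k).2.2 x).2) (inv_pos.2 (p x)).le
        have h4 := mul_inv_cancel₀ (p x).ne'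
        have h5 : U (k + 1) x * (M x - U (k + 1) x + 2 * κ) * (U (k + 1) x)⁻¹ =
            M x - U (k + 1) x + 2 * κ := by
          linear_combination (M x - U (k + 1) x + 2 * κ) * h4
        have h6 : 2 * κ * U (k + 1) x * (U (k + 1) x)⁻¹ = 2 * κ := by
          linear_combination 2 * κ * h4
        simp only [Pi.inv_apply]
        linarith
    simp only [Pi.inv_apply] at h2
    linarith
  have lI : Tendsto (fun k => ∫ x in cube n, U k x) atTop (𝓝 (∫ x in cube n, θ x)) :=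
    tendsto_integral_of_dominated_convergence (fun _ => κ)
      (fun k => (UK k).1.aestronglyMeasurable) (LB.const κ).cube
      (fun k => .of_forall fun x => by
        rw [Real.norm_of_nonneg ((UK k).2.2 x).1]
        exact ((UK k).2.2 x).2) (.of_forall lim)
  have θI : ∫ x in cube n, M x ≤ ∫ x in cube n, θ x :=
    ge_of_tendsto' (lI.comp (tendsto_add_atTop_nat 1)) UI
  have sw : SW θ fun x => θ x * (M x - θ x) := by
    refine ⟨?_, θK.2.1, fun j i x => by simp only [hM.sym j i x, θK.2.1 j i x],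
      (Kb θ θK).mul (bM.sub (Kb θ θK))⟩
    have := Fw θ θ θK fix
    rwa [show (fun x => θ x * (M x - θ x + 2 * κ) - 2 * κ * θ x) = fun x => θ x * (M x - θ x) from
      funext fun x => by ring] at this
  refine ⟨θ, sw, fun x => ⟨(θK.2.2 x).1.lt_of_ne fun h0 => ?_, (θK.2.2 x).2⟩⟩
  obtain ⟨C, C0, hC⟩ := G
  have h1 := H θ (C * √κ) sw.ws.1 (by positivity) (hC θ _ κ hκ sw (fun x => (θK.2.2 x).1) fun y => by
    have h2 : θ y ≤ κ := (θK.2.2 y).2
    rw [abs_mul, abs_of_nonneg (θK.2.2 y).1, mul_comm]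
    exact mul_le_mul_of_nonneg_right
      (abs_le.2 ⟨by linarith [(hM.bd y).1], by linarith [(hM.bd y).2, (θK.2.2 y).1]⟩)
      (θK.2.2 y).1) x
  have h2 : ∫ x in cube n, θ x ≤ 0 := integral_nonpos fun y => by simpa [← h0] using h1 y
  linarith

theorem adjS (F : FoldS n) (W : WeakS n) (R : RepS n) : AdjS n := by
  intro κ M θ hκ hM sw hθ
  have hc := ex_c0 (n := n)
  have hb : 0 < (c0 n)⁻¹ := inv_pos.2 hc
  have bM : Bd M := Bd.of_le hM.meas (fun x => (hM.bd x).1) fun x => (hM.bd x).2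
  obtain ⟨bθ, rep⟩ := R.2 θ _ κ hκ sw
  obtain ⟨x₀, -, h0⟩ := cube_compact.exists_isMinOn ⟨_, F.1 0⟩ sw.ws.1.continuous.continuousOn
  obtain ⟨K, K0, hK⟩ : ∃ K, 0 < K ∧ ∀ x, 1 ≤ K * θ x ^ 2 := by
    have p := (hθ x₀).1
    refine ⟨(θ x₀ ^ 2)⁻¹, by positivity, fun x => ?_⟩
    rw [inv_mul_eq_div, one_le_div (by positivity), ← F.2.2.2.2 θ sw.su x]
    exact pow_le_pow_left₀ p.le (h0 (F.1 x)) 2
  have l0 : 0 < (2 * κ)⁻¹ := by positivity
  have l1 : 2 * κ * (2 * κ)⁻¹ = 1 := mul_inv_cancel₀ (by positivity)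
  have c1 : ∀ x, 0 ≤ 2 * κ + M x - 2 * θ x := fun x => by linarith [(hM.bd x).1, (hθ x).2]
  have nm : ∀ u : Fn n, Measurable u →
      Measurable fun x => (c0 n)⁻¹ * ((2 * κ + M x - 2 * θ x) * u x + 1) := fun u hu =>
    ((((hM.meas.const_add _).sub (bθ.1.const_mul _)).mul hu).add_const _).const_mul _
  have nb : ∀ x t, (2 * κ)⁻¹ ≤ t → t ≤ K * θ x →
      |(c0 n)⁻¹ * ((2 * κ + M x - 2 * θ x) * t + 1)| ≤ (c0 n)⁻¹ * (3 * κ * (K * κ) + 1) :=
    fun x t h1 h2 => by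
      have h3 := l0.le.trans h1
      rw [abs_of_nonneg (mul_nonneg hb.le (add_nonneg (mul_nonneg (c1 x) h3) zero_le_one))]
      refine mul_le_mul_of_nonneg_left (add_le_add_left (mul_le_mul ?_
        (h2.trans (mul_le_mul_of_nonneg_left (hθ x).2 K0.le)) h3 (by positivity)) _) hb.le
      linarith [(hM.bd x).2, (hθ x).1]
  have lh : ∀ x, (2 * κ)⁻¹ ≤ K * θ x := fun x => by
    rw [inv_le_iff_one_le_mul₀ (by positivity)]
    have := mul_pos K0 (hθ x).1
    nlinarith [hK x, mul_le_mul_of_nonneg_left (hθ x).2 this.le]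
  have br : Bd fun y => (c0 n)⁻¹ * (2 * κ * θ y + θ y * (M y - θ y)) :=
    (Bd.const _).mul (((Bd.const _).mul bθ).add sw.bg)
  obtain ⟨U, p, -, -, -, -, -, pK, fix⟩ := ex_iter (lo := (2 * κ)⁻¹) (hi := fun x => K * θ x) hκ
    (fun x t => (c0 n)⁻¹ * ((2 * κ + M x - 2 * θ x) * t + 1))
    ⟨bθ.1.const_mul _, fun j i x => by simp only [sw.su j i x], fun x => ⟨lh x, le_rfl⟩⟩ nm
    (fun t j i x => by simp only [hM.sym j i x, sw.su j i x]) (fun x => by fun_prop) nb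
    (fun x s t _ h2 _ => mul_le_mul_of_nonneg_left
      (add_le_add_left (mul_le_mul_of_nonneg_left h2 (c1 x)) _) hb.le)
    (fun x => (ex_const hκ _ x).symm.trans_le (Rs_mono hκ (Bd.const _)
      ⟨nm _ measurable_const, _, fun y => nb y _ le_rfl (lh y)⟩
      (fun y => mul_le_mul_of_nonneg_left (by linarith [mul_nonneg (c1 y) l0.le]) hb.le) x))
    (fun x => by
      refine (Rs_mono hκ ⟨nm _ (bθ.1.const_mul _), _, fun y => nb y _ (lh y) le_rfl⟩
        ((Bd.const K).mul br) (fun y => ?_) x).trans_eq ?_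
      · rw [mul_left_comm K]
        exact mul_le_mul_of_nonneg_left (by linarith [hK y]) hb.le
      · conv_rhs => rw [rep]
        simp only [Rs, mul_assoc K, integral_const_mul])
  have bp : Bd p := Bd.of_le pK.1 (fun x => l0.le.trans (pK.2.2 x).1) fun x =>
    (pK.2.2 x).2.trans (mul_le_mul_of_nonneg_left (hθ x).2 K0.le)
  refine ⟨p, ⟨?_, pK.2.1, fun j i x => by simp only [hM.sym j i x, sw.su j i x, pK.2.1 j i x],
    ((bM.sub ((Bd.const 2).mul bθ)).mul bp).add (Bd.const 1)⟩, fun x =>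
      l1.ge.trans (mul_le_mul_of_nonneg_left (pK.2.2 x).1 (by positivity))⟩
  have := W κ _ hκ ⟨nm p pK.1, _, fun x => nb x _ (pK.2.2 x).1 (pK.2.2 x).2⟩ fun j i x => by
    simp only [hM.sym j i x, sw.su j i x, pK.2.1 j i x]
  rw [← fix] at this
  simp only [mul_inv_cancel_left₀ hc.ne'] at this
  rwa [show (fun x => (2 * κ + M x - 2 * θ x) * p x + 1 - 2 * κ * p x) =
    fun x => (M x - 2 * θ x) * p x + 1 from funext fun x => by ring] at this

end Pool.Agent.MP_478eab_an.P
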