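import Pool.Agent.MP_478eab_an.P.Spec

/-! Folding onto the cube and the monotone class theorem. -/

namespace Pool.Agent.MP_478eab_an.P

open MeasureTheory Set Filter Topology Metric Pool.Agent.MP_478eab_an.V

variable {n : ℕ}

theorem fo_one {f : Fn n} (hs : Sym f) (x : Fin n → ℝ) (i : Fin n) {t : ℝ}
    (h : Real.cos (Real.pi * x i) = Real.cos (Real.pi * t)) :
    f (Function.update x i t) = f x := by
  obtain ⟨k, hk | hk⟩ := Real.cos_eq_cos_iff.1 h
  · have ht : t = 2 * k + x i := mul_left_cancel₀ Real.pi_ne_zero (by rw [hk]; ring)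
    have h1 := hs k i (Function.update x i (2 * (0 : ℤ) - x i))
    rw [hs 0 i x, Function.update_idem, Function.update_self] at h1
    rw [← h1, ht]
    congr 2
    push_cast
    ring
  · have ht : t = 2 * k - x i := mul_left_cancel₀ Real.pi_ne_zero (by rw [hk]; ring)
    rw [ht, hs k i x]

theorem fo_cos (x : Fin n → ℝ) (i : Fin n) :
    Real.cos (Real.pi * x i) = Real.cos (Real.pi * fold x i) := by
  rw [fold, mul_div_cancel₀ _ Real.pi_ne_zero,
    Real.cos_arccos (Real.neg_one_le_cos _) (Real.cos_le_one _)]

theorem fo_multi {f : Fn n} (hs : Sym f) (s : Finset (Fin n)) (x : Fin n → ℝ) :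
    f (fun i => if i ∈ s then fold x i else x i) = f x := by
  induction s using Finset.induction_on with
  | empty => simp
  | insert i s hi ih =>
    rw [← ih, ← fo_one hs (fun l => if l ∈ s then fold x l else x l) i (t := fold x i)
      (by simpa [hi] using fo_cos x i)]
    congr 1
    funext l
    by_cases hl : l = i
    · subst hl; simp
    · simp [hl]

theorem foldS : FoldS n := by
  refine ⟨fun x => ⟨fun i => ?_, fun i => ?_⟩, fun x hx => funext fun i => ?_, ?_,
    fun f j i x => ?_, fun f hs x => ?_⟩
  · exact div_nonneg (Real.arccos_nonneg _) Real.pi_pos.le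
  · exact (div_le_one Real.pi_pos).2 (Real.arccos_le_pi _)
  · have h0 : 0 ≤ x i := hx.1 i
    have h1 : x i ≤ 1 := hx.2 i
    rw [fold, Real.arccos_cos (by positivity) (mul_le_of_le_one_right Real.pi_pos.le h1),
      mul_div_cancel_left₀ _ Real.pi_ne_zero]
  · refine continuous_pi fun i => (Real.continuous_arccos.comp ?_).div_const _
    fun_prop
  · beta_reduce
    congr 1
    funext l
    by_cases hl : l = i
    · subst hl
      simp only [fold, Function.update_self]
      rw [show Real.pi * (2 * j - x l) = j * (2 * Real.pi) - Real.pi * x l by ring,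
        Real.cos_int_mul_two_pi_sub]
    · simp only [fold, Function.update_of_ne hl]
  · simpa using fo_multi hs Finset.univ x

theorem fo_bd_ind {s : Set (Fin n → ℝ)} (hs : MeasurableSet s) :
    Bd (s.indicator fun _ => (1 : ℝ)) :=
  ⟨measurable_const.indicator hs, 1, fun x => by by_cases h : x ∈ s <;> simp [h]⟩

theorem fo_bd_simple (g : SimpleFunc (Fin n → ℝ) ℝ) : Bd g := by
  obtain ⟨C, hC⟩ := g.exists_forall_norm_le
  exact ⟨g.measurable, C, hC⟩

theorem monoS : MonoS n := by
  intro P hc ha hm hl
  have bc : ∀ c : ℝ, Bd fun _ : Fin n → ℝ => c := fun c => ⟨measurable_const, |c|, fun _ => le_rfl⟩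
  have pc : ∀ c : ℝ, P fun _ => c := fun c => hc _ continuous_const (bc c)
  have ind : ∀ s : Set (Fin n → ℝ), MeasurableSet s → P (s.indicator fun _ => (1 : ℝ)) := by
    intro s hs
    induction s, hs using MeasurableSpace.induction_on_inter
      ((BorelSpace.measurable_eq (α := Fin n → ℝ)).trans
        (borel_eq_generateFrom_isClosed (α := Fin n → ℝ)))
      (isPiSystem_isClosed (α := Fin n → ℝ)) with
    | empty => simpa using pc 0
    | basic t ht =>
      have ht : IsClosed t := ht
      have c1 : ∀ k, Continuous fun x => (ht.apprSeq k x : ℝ) := fun k =>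
        NNReal.continuous_coe.comp (ht.apprSeq k).continuous
      have b1 : ∀ k x, |(ht.apprSeq k x : ℝ)| ≤ 1 := fun k x => by
        rw [NNReal.abs_eq]
        exact_mod_cast HasOuterApproxClosed.apprSeq_apply_le_one ht k x
      refine hl (fun k x => (ht.apprSeq k x : ℝ)) _ 1 (fun k => (c1 k).measurable) b1 (fun x => ?_)
        fun k => hc _ (c1 k) ⟨(c1 k).measurable, 1, b1 k⟩
      have := NNReal.tendsto_coe.2
        (tendsto_pi_nhds.1 (HasOuterApproxClosed.tendsto_apprSeq ht) x)
      convert this using 2
      by_cases h : x ∈ t <;> simp [h]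
    | compl t ht ih =>
      have b1 : Bd fun x => (-1 : ℝ) * t.indicator (fun _ => (1 : ℝ)) x :=
        ⟨measurable_const.mul (fo_bd_ind ht).1, 1, fun x => by by_cases h : x ∈ t <;> simp [h]⟩
      convert ha _ _ (bc 1) b1 (pc 1) (hm (-1) _ (fo_bd_ind ht) ih) using 1
      funext x
      by_cases h : x ∈ t <;> simp [h]
    | iUnion g hd hg ih =>
      have mU : ∀ k, MeasurableSet (⋃ i ∈ Finset.range k, g i) := fun k =>
        Finset.measurableSet_biUnion _ fun i _ => hg i
      refine hl (fun k => (⋃ i ∈ Finset.range k, g i).indicator fun _ => (1 : ℝ)) _ 1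
        (fun k => (fo_bd_ind (mU k)).1) (fun k x => ?_) (fun x => ?_) fun k => ?_
      · by_cases h : x ∈ ⋃ i ∈ Finset.range k, g i
        · rw [indicator_of_mem h, abs_one]
        · rw [indicator_of_notMem h, abs_zero]
          exact zero_le_one
      · refine tendsto_const_nhds.congr' ?_
        by_cases h : x ∈ ⋃ i, g i
        · obtain ⟨i, hi⟩ := mem_iUnion.1 h
          refine (eventually_gt_atTop i).mono fun k hk => ?_
          have h' : x ∈ ⋃ i ∈ Finset.range k, g i := mem_iUnion₂.2 ⟨i, Finset.mem_range.2 hk, hi⟩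
          beta_reduce
          rw [indicator_of_mem h, indicator_of_mem h']
        · refine Eventually.of_forall fun k => ?_
          rw [indicator_of_notMem h]
          refine (indicator_of_notMem (fun h' => h ?_) _).symm
          obtain ⟨i, -, hi⟩ := mem_iUnion₂.1 h'
          exact mem_iUnion.2 ⟨i, hi⟩
      · induction k with
        | zero => simpa using pc 0
        | succ k ihk =>
          convert ha _ _ (fo_bd_ind (hg k)) (fo_bd_ind (mU k)) (ih k) ihk using 1
          rw [Finset.range_add_one, Finset.set_biUnion_insert]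
          funext x
          refine indicator_union_of_notMem_inter (fun hx => ?_) _
          obtain ⟨i, hi, hxi⟩ := mem_iUnion₂.1 hx.2
          exact disjoint_left.1 (hd (Finset.mem_range.1 hi).ne) hxi hx.1
  have sim : ∀ g : SimpleFunc (Fin n → ℝ) ℝ, P g := by
    intro g
    induction g using SimpleFunc.induction with
    | @const c s hs =>
      convert hm c _ (fo_bd_ind hs) (ind s hs) using 1
      funext x
      by_cases h : x ∈ s <;> simp [h]
    | @add g g' _ h1 h2 => exact ha _ _ (fo_bd_simple g) (fo_bd_simple g') h1 h2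
  rintro f ⟨hf, M, hM⟩
  have hs := hf.stronglyMeasurable
  exact hl (fun k => hs.approxBounded M k) f M (fun k => (hs.approxBounded M k).measurable)
    (fun k x => hs.norm_approxBounded_le ((abs_nonneg _).trans (hM 0)) k x)
    (fun x => hs.tendsto_approxBounded_of_norm_le (hM x)) fun k => sim _

end Pool.Agent.MP_478eab_an.P
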