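import Mathlib
import Pool.Agent.MP_478eab_an.P.Spec

/-! The logarithmic gradient estimate, through the Gaussian semigroup. -/

namespace Pool.Agent.MP_478eab_an.P

open MeasureTheory Set Filter Topology Metric Pool.Agent.MP_478eab_an.V

variable {n : ℕ}

/-- Gaussian mean at scale `s` -/
noncomputable def gr_P (s : ℝ) (f : Fn n) (x : Fin n → ℝ) : ℝ :=
  ∫ z, f (x + s • z) * G (1 / 2) z

theorem gr_shear (c : ℝ) : MeasurePreserving
    (fun p : (Fin n → ℝ) × (Fin n → ℝ) => (p.1, p.2 + c • p.1))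
    (volume.prod volume) (volume.prod volume) :=
  (MeasurePreserving.id volume).skew_product (g := fun z w => w + c • z) (by fun_prop)
    (Eventually.of_forall fun z => map_add_right_eq_self volume (c • z))

theorem gr_shear' (c : ℝ) : MeasurePreserving
    (fun p : (Fin n → ℝ) × (Fin n → ℝ) => (p.1 + c • p.2, p.2))
    (volume.prod volume) (volume.prod volume) :=
  (Measure.measurePreserving_swap.comp (gr_shear c)).comp Measure.measurePreserving_swap

theorem gr_rot {α β : ℝ} (hβ : β ≠ 0) (h : α ^ 2 + β ^ 2 = 1) : MeasurePreserving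
    (fun p : (Fin n → ℝ) × (Fin n → ℝ) => (α • p.1 + β • p.2, α • p.2 - β • p.1))
    (volume.prod volume) (volume.prod volume) := by
  have := ((gr_shear' (n := n) ((1 - α) / β)).comp (gr_shear (-β))).comp
    (gr_shear' ((1 - α) / β))
  convert this using 1
  funext p
  refine Prod.ext (funext fun i => ?_) (funext fun i => ?_)
  · simp only [Function.comp, Pi.add_apply, Pi.smul_apply, smul_eq_mul]
    field_simp
    linear_combination (p.2 i) * h
  · simp only [Function.comp, Pi.add_apply, Pi.sub_apply, Pi.smul_apply, smul_eq_mul]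
    field_simp
    ring

theorem gr_G_rot {α β : ℝ} (h : α ^ 2 + β ^ 2 = 1) (z w : Fin n → ℝ) :
    G (1 / 2) (α • z + β • w) * G (1 / 2) (α • w - β • z) = G (1 / 2) z * G (1 / 2) w := by
  unfold G
  rw [← Real.exp_add, ← Real.exp_add, ← mul_add, ← mul_add]
  congr 2
  unfold nsq
  rw [← Finset.sum_add_distrib, ← Finset.sum_add_distrib]
  refine Finset.sum_congr rfl fun i _ => ?_
  simp only [Pi.add_apply, Pi.sub_apply, Pi.smul_apply, smul_eq_mul]
  linear_combination (z i ^ 2 + w i ^ 2) * h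

theorem gr_int {f : Fn n} (hf : Bd f) (s : ℝ) (x : Fin n → ℝ) :
    Integrable fun z => f (x + s • z) * G (1 / 2) z := by
  obtain ⟨hm, M, hM⟩ := hf
  exact (G_int (by norm_num)).bdd_mul (hm.comp (by fun_prop)).aestronglyMeasurable
    (Eventually.of_forall fun z => hM _)

theorem gr_semi {f : Fn n} (hf : Bd f) (s : ℝ) {t : ℝ} (ht : 0 < t) (x : Fin n → ℝ) :
    ∫ z, gr_P t f (x + s • z) * G (1 / 2) z = gr_P (√(s ^ 2 + t ^ 2)) f x * c0 n := by
  set τ := √(s ^ 2 + t ^ 2) with hτ
  have h0 : 0 < τ := Real.sqrt_pos.2 (by positivity)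
  have h2 : τ ^ 2 = s ^ 2 + t ^ 2 := Real.sq_sqrt (by positivity)
  have h1 : (s / τ) ^ 2 + (t / τ) ^ 2 = 1 := by field_simp; linarith
  have hr := gr_rot (n := n) (div_pos ht h0).ne' h1
  have hI := (gr_int hf τ x).mul_prod (G_int (n := n) (b := 1 / 2) (by norm_num))
  have e := integral_map (μ := volume.prod volume) hr.measurable.aemeasurable
    (f := fun p : (Fin n → ℝ) × (Fin n → ℝ) =>
      f (x + τ • p.1) * G (1 / 2) p.1 * G (1 / 2) p.2)
    (by rw [hr.map_eq]; exact hI.aestronglyMeasurable)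
  rw [hr.map_eq, integral_prod_mul (fun z => f (x + τ • z) * G (1 / 2) z) (G (1 / 2))] at e
  have e2 : (fun p : (Fin n → ℝ) × (Fin n → ℝ) =>
      f (x + τ • ((s / τ) • p.1 + (t / τ) • p.2)) * G (1 / 2) ((s / τ) • p.1 + (t / τ) • p.2)
        * G (1 / 2) ((s / τ) • p.2 - (t / τ) • p.1))
      = fun p => f (x + s • p.1 + t • p.2) * G (1 / 2) p.2 * G (1 / 2) p.1 := by
    funext p
    rw [mul_assoc, gr_G_rot h1, smul_add, smul_smul, smul_smul, mul_div_cancel₀ _ h0.ne',
      mul_div_cancel₀ _ h0.ne', add_assoc]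
    ring
  have hJ := hr.integrable_comp_of_integrable hI
  rw [e2, integral_prod _ (e2 ▸ hJ)] at e
  refine Eq.trans ?_ e.symm
  simp only [gr_P, integral_mul_const]

theorem gr_e1 (a : ℝ) (f : Fn n) (x : Fin n → ℝ) (σ : ℝ) :
    ∫ z, f (x + σ • z) * (σ * k1 a (σ, z)) = σ * Real.exp (-a * σ ^ 2) * gr_P σ f x := by
  rw [gr_P, ← integral_const_mul]; congr 1; funext z; unfold k1; ring

theorem gr_Rs {a : ℝ} {f : Fn n} (ha : 0 < a) (hf : Bd f) (x : Fin n → ℝ) :
    Rs a f x = ∫ σ in Ioi (0 : ℝ), σ * Real.exp (-a * σ ^ 2) * gr_P σ f x := by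
  simp only [← gr_e1]
  exact integral_prod _ (Rs_int ha hf x)

theorem gr_Ri {a : ℝ} {f : Fn n} (ha : 0 < a) (hf : Bd f) (x : Fin n → ℝ) :
    IntegrableOn (fun σ => σ * Real.exp (-a * σ ^ 2) * gr_P σ f x) (Ioi (0 : ℝ)) := by
  simp only [← gr_e1]
  exact (Rs_int ha hf x).integral_prod_left

theorem gr_P0 {f : Fn n} (h0 : ∀ x, 0 ≤ f x) (s : ℝ) (x : Fin n → ℝ) : 0 ≤ gr_P s f x :=
  integral_nonneg fun _ => mul_nonneg (h0 _) (G_pos _ _).le

theorem gr_c0 : 0 < c0 n := integral_exp_pos (G_int (n := n) (b := 1 / 2) (by norm_num))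

theorem gr_sub {b : ℝ} {f : Fn n} (hb : 0 < b) (hf : Bd f) (h0 : ∀ x, 0 ≤ f x) (s : ℝ)
    (x : Fin n → ℝ) : gr_P s (Rs b f) x ≤ c0 n * Real.exp (b * s ^ 2) * Rs b f x := by
  obtain ⟨M, hM⟩ := hf.2
  have e1 : gr_P s (Rs b f) x = ∫ t in Ioi (0 : ℝ), t * Real.exp (-b * t ^ 2)
      * (gr_P (√(s ^ 2 + t ^ 2)) f x * c0 n) := by
    have hJ : Integrable (Function.uncurry fun (z : Fin n → ℝ) (t : ℝ) =>
        t * Real.exp (-b * t ^ 2) * gr_P t f (x + s • z) * G (1 / 2) z)
        (volume.prod (volume.restrict (Ioi 0))) := by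
      have hm : StronglyMeasurable fun q : (Fin n → ℝ) × ℝ => gr_P q.2 f (x + s • q.1) :=
        StronglyMeasurable.integral_prod_right' (f := fun r : ((Fin n → ℝ) × ℝ) × (Fin n → ℝ) =>
          f (x + s • r.1.1 + r.1.2 • r.2) * G (1 / 2) r.2)
          ((hf.1.comp (by fun_prop)).mul
            ((G_cont _).measurable.comp measurable_snd)).stronglyMeasurable
      refine (((G_int (n := n) (b := 1 / 2) (by norm_num)).mul_prod
        ((integrable_mul_exp_neg_mul_sq hb).integrableOn (s := Ioi 0))).bdd_mul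
        hm.aestronglyMeasurable (c := ∫ z : Fin n → ℝ, M * G (1 / 2) z)
        (Eventually.of_forall fun q => ?_)).congr (Eventually.of_forall fun q => ?_)
      · refine norm_integral_le_of_norm_le ((G_int (by norm_num)).const_mul M)
          (Eventually.of_forall fun z => ?_)
        rw [norm_mul, Real.norm_of_nonneg (G_pos _ _).le]
        exact mul_le_mul_of_nonneg_right (hM _) (G_pos _ _).le
      · simp only [Function.uncurry]
        ring
    have := integral_integral_swap hJ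
    simp only [integral_mul_const, ← gr_Rs hb hf] at this
    refine this.trans (setIntegral_congr_fun measurableSet_Ioi fun t ht => ?_)
    simp only [mul_assoc]
    rw [integral_const_mul, integral_const_mul, gr_semi hf s ht]
  have e2 := integral_image_eq_integral_abs_deriv_smul (s := Ioi (0 : ℝ))
    (f := fun t => √(s ^ 2 + t ^ 2)) (f' := fun t => t / √(s ^ 2 + t ^ 2)) measurableSet_Ioi
    (fun t ht => by
      have ht' : 0 < t := ht
      refine (((hasDerivAt_pow 2 t).const_add (s ^ 2)).sqrt (by positivity)).hasDerivWithinAt.congr_deriv ?_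
      push_cast
      field_simp)
    (fun t ht t' ht' h => by
      have h1 : 0 < t := ht
      have h2 : 0 < t' := ht'
      have h3 := (Real.sqrt_inj (by positivity) (by positivity)).1 h
      exact (pow_left_inj₀ h1.le h2.le two_ne_zero).1 (add_left_cancel h3))
    (fun σ => σ * Real.exp (-b * σ ^ 2) * gr_P σ f x)
  have e3 : gr_P s (Rs b f) x = c0 n * Real.exp (b * s ^ 2) *
      ∫ σ in (fun t => √(s ^ 2 + t ^ 2)) '' Ioi 0, σ * Real.exp (-b * σ ^ 2) * gr_P σ f x := by
    rw [e1, e2, ← integral_const_mul]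
    refine setIntegral_congr_fun measurableSet_Ioi fun t ht => ?_
    have h1 : 0 < t := ht
    have h2 : 0 < √(s ^ 2 + t ^ 2) := Real.sqrt_pos.2 (by positivity)
    have h3 : Real.exp (-b * t ^ 2) = Real.exp (b * s ^ 2) * Real.exp (-b * (s ^ 2 + t ^ 2)) := by
      rw [← Real.exp_add]; congr 1; ring
    simp only [smul_eq_mul]
    rw [abs_of_pos (div_pos h1 h2), Real.sq_sqrt (by positivity), h3]
    field_simp
  rw [e3, gr_Rs hb hf]
  refine mul_le_mul_of_nonneg_left (setIntegral_mono_set (gr_Ri hb hf x) ?_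
    (LE.le.eventuallyLE ?_)) (mul_pos gr_c0 (Real.exp_pos _)).le
  · filter_upwards [ae_restrict_mem measurableSet_Ioi] with σ hσ
    exact mul_nonneg (mul_nonneg (le_of_lt hσ) (Real.exp_pos _).le) (gr_P0 h0 _ _)
  · rintro _ ⟨t, ht, rfl⟩
    have h1 : 0 < t := ht
    exact Real.sqrt_pos.2 (by positivity)

theorem gr_quarter (u : Fn n) (s : ℝ) (x : Fin n → ℝ) :
    ∫ z, u (x + s • z) * G (1 / 4) z = √2 ^ n * gr_P (√2 * s) u x := by
  have h2 : (0 : ℝ) < √2 := by positivity
  have := Measure.integral_comp_smul_of_nonneg (μ := (volume : Measure (Fin n → ℝ)))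
    (fun z => u (x + s • z) * G (1 / 4) z) √2 (hR := h2.le)
  have e : ∀ z : Fin n → ℝ, G (1 / 4) (√2 • z) = G (1 / 2) z := fun z => by
    unfold G nsq
    simp only [Pi.smul_apply, smul_eq_mul, mul_pow, Real.sq_sqrt (zero_le_two (α := ℝ)),
      ← Finset.mul_sum]
    congr 1
    ring
  simp only [e, smul_smul, Module.finrank_fin_fun, smul_eq_mul] at this
  rw [gr_P, mul_comm √2 s, this]
  field_simp

theorem gradS (R : RepS n) : GradS n := by
  refine ⟨5 * √2 ^ n * √Real.pi / 2, by positivity [Real.pi_pos], fun u g β hβ S h0 hg x i => ?_⟩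
  have hc := gr_c0 (n := n)
  have hb : 0 < β / 2 := by positivity
  have ha : 0 < 2 * β := by positivity
  obtain ⟨bu, eb⟩ := R.2 u g _ hb S
  obtain ⟨-, ea⟩ := R.2 u g _ ha S
  have bf : ∀ a : ℝ, Bd fun y => (c0 n)⁻¹ * (2 * a * u y + g y) := fun a =>
    (Bd.const _).mul (((Bd.const _).mul bu).add S.bg)
  have sub : ∀ s, gr_P s u x ≤ c0 n * Real.exp (β / 2 * s ^ 2) * u x := fun s => by
    have := gr_sub hb (bf (β / 2)) (fun y => mul_nonneg (inv_pos.2 hc).le
      (by linarith [(abs_le.1 (hg y)).1])) s x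
    rwa [← eb] at this
  have e1 : pd i u x = ∫ p, (c0 n)⁻¹ * (2 * (2 * β) * u (x + p.1 • p.2) + g (x + p.1 • p.2))
      * (k1 (2 * β) p * p.2 i) ∂nu n := by
    conv_lhs => rw [ea]
    rw [pd_of_has (Rs_has ha (bf _) x), Sg,
      ContinuousLinearMap.integral_apply (Sg_int ha (bf _) x)]
    simp [dl_single]
  obtain ⟨M, hM⟩ := bu.2
  have hI : Integrable (fun p : ℝ × (Fin n → ℝ) =>
      u (x + p.1 • p.2) * (Real.exp (-(2 * β) * p.1 ^ 2) * G (1 / 4) p.2)) (nu n) :=
    (((integrable_exp_neg_mul_sq ha).integrableOn (s := Ioi 0)).mul_prod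
      (G_int (by norm_num))).bdd_mul (shift_meas bu.1 x) (Eventually.of_forall fun p => hM _)
  have e2 : |pd i u x| ≤ (c0 n)⁻¹ * (5 * β) * ∫ p : ℝ × (Fin n → ℝ),
      u (x + p.1 • p.2) * (Real.exp (-(2 * β) * p.1 ^ 2) * G (1 / 4) p.2) ∂nu n := by
    rw [e1, ← integral_const_mul, ← Real.norm_eq_abs]
    refine norm_integral_le_of_norm_le (hI.const_mul _) (Eventually.of_forall fun p => ?_)
    have h1 : |2 * (2 * β) * u (x + p.1 • p.2) + g (x + p.1 • p.2)|
        ≤ 5 * β * u (x + p.1 • p.2) := by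
      have := abs_le.1 (hg (x + p.1 • p.2))
      have := mul_nonneg hβ.le (h0 (x + p.1 • p.2))
      rw [abs_le]
      constructor <;> linarith [this]
    have h2 : |k1 (2 * β) p * p.2 i| ≤ Real.exp (-(2 * β) * p.1 ^ 2) * G (1 / 4) p.2 := by
      rw [k1, mul_assoc, abs_mul, abs_of_pos (Real.exp_pos _), abs_mul, abs_of_pos (G_pos _ _),
        ← G_split, mul_comm (G _ _)]
      exact mul_le_mul_of_nonneg_left (mul_le_mul_of_nonneg_right (abs_le_exp _ i)
        (G_pos _ _).le) (Real.exp_pos _).le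
    rw [Real.norm_eq_abs, abs_mul, abs_mul, abs_of_pos (inv_pos.2 hc), mul_assoc]
    refine (mul_le_mul_of_nonneg_left (mul_le_mul h1 h2 (abs_nonneg _) ((abs_nonneg _).trans h1))
      (inv_pos.2 hc).le).trans_eq ?_
    ring
  have e3 : ∫ p : ℝ × (Fin n → ℝ),
      u (x + p.1 • p.2) * (Real.exp (-(2 * β) * p.1 ^ 2) * G (1 / 4) p.2) ∂nu n
      ≤ √2 ^ n * c0 n * u x * (√(Real.pi / β) / 2) := by
    rw [← integral_gaussian_Ioi, ← integral_const_mul]
    refine (integral_prod _ hI).trans_le (integral_mono hI.integral_prod_left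
      ((integrable_exp_neg_mul_sq hβ).integrableOn.const_mul _) fun s => ?_)
    have e4 : ∫ z, u (x + s • z) * (Real.exp (-(2 * β) * s ^ 2) * G (1 / 4) z)
        = Real.exp (-(2 * β) * s ^ 2) * (√2 ^ n * gr_P (√2 * s) u x) := by
      rw [← gr_quarter, ← integral_const_mul]
      congr 1
      funext z
      ring
    have e5 : Real.exp (-β * s ^ 2)
        = Real.exp (-(2 * β) * s ^ 2) * Real.exp (β / 2 * (√2 * s) ^ 2) := by
      rw [← Real.exp_add, mul_pow, Real.sq_sqrt zero_le_two]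
      congr 1
      ring
    refine e4.trans_le ((mul_le_mul_of_nonneg_left (mul_le_mul_of_nonneg_left (sub _)
      (by positivity)) (Real.exp_pos _).le).trans_eq ?_)
    simp only [e5]
    ring
  refine e2.trans ((mul_le_mul_of_nonneg_left e3 (by positivity)).trans_eq ?_)
  have h3 : 0 < √β := Real.sqrt_pos.2 hβ
  rw [Real.sqrt_div Real.pi_pos.le]
  field_simp
  rw [Real.sq_sqrt hβ.le, mul_comm]

end Pool.Agent.MP_478eab_an.P
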