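import Mathlib
import Pool.Agent.MP_478eab_an.P.Spec

/-! The gradient estimate by the data alone. -/

namespace Pool.Agent.MP_478eab_an.P

open MeasureTheory Set Filter Topology Metric Pool.Agent.MP_478eab_an.V

variable {n : ℕ}

theorem g2_c0 : 0 < c0 n := integral_exp_pos (G_int (n := n) (b := 1 / 2) (by norm_num))

theorem g2_K : ∃ a K : ℝ, 0 < a ∧ 0 ≤ K ∧ (c0 n)⁻¹ * (2 * a) * K ≤ 1 / 2 ∧
    ∀ (f : Fn n) (M : ℝ), (∀ y, |f y| ≤ M) → ∀ x, ‖Sg a f x‖ ≤ M * K := by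
  have hc := g2_c0 (n := n)
  set K0 : ℝ := ∫ z : Fin n → ℝ, G (1 / 2) z * ‖dl z‖ with hK0
  have h0 : 0 ≤ K0 := integral_nonneg fun z => mul_nonneg (G_pos _ _).le (norm_nonneg _)
  have hp : 0 < √Real.pi := Real.sqrt_pos.2 Real.pi_pos
  have hq : 0 < √Real.pi * K0 + 1 := by positivity
  set t : ℝ := c0 n / (2 * (√Real.pi * K0 + 1)) with ht
  have t0 : 0 < t := by positivity
  have ha : 0 < t ^ 2 := by positivity
  refine ⟨t ^ 2, √(Real.pi / t ^ 2) / 2 * K0, ha, by positivity, ?_, fun f M hM x => ?_⟩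
  · rw [Real.sqrt_div Real.pi_pos.le, Real.sqrt_sq t0.le]
    have e : (c0 n)⁻¹ * (2 * t ^ 2) * (√Real.pi / t / 2 * K0)
        = √Real.pi * K0 / (2 * (√Real.pi * K0 + 1)) := by
      have : (c0 n)⁻¹ * (2 * t ^ 2) * (√Real.pi / t / 2 * K0)
          = (c0 n)⁻¹ * t * (√Real.pi * K0) := by field_simp
      rw [this, ht]
      field_simp
    rw [e, div_le_iff₀ (by positivity)]
    linarith
  · refine (norm_integral_le_of_norm_le ((kd_int ha).norm.const_mul M)
      (Eventually.of_forall fun p => ?_)).trans_eq ?_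
    · rw [norm_smul]
      exact mul_le_mul_of_nonneg_right (hM _) (norm_nonneg _)
    · rw [integral_const_mul, ← integral_gaussian_Ioi, hK0, ← integral_prod_mul]
      congr 2
      funext p
      rw [norm_smul, k1, Real.norm_of_nonneg (mul_pos (Real.exp_pos _) (G_pos _ _)).le, mul_assoc]

theorem grad2S (F : FoldS n) (R : RepS n) : Grad2S n := by
  have hc := g2_c0 (n := n)
  obtain ⟨a, K, ha, hK, h1, h2⟩ := g2_K (n := n)
  refine ⟨2 * ((c0 n)⁻¹ * K) + 1, by positivity, fun u g B S hg x i => ?_⟩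
  have hB : 0 ≤ B := (abs_nonneg _).trans (hg 0)
  have ed : ∀ y, fderiv ℝ (fun z => u z - u 0) y = fderiv ℝ u y := fun y => fderiv_sub_const _
  have S' : SW (fun z => u z - u 0) g :=
    ⟨⟨S.ws.1.sub contDiff_const, fun ψ hψ => by
      rw [← S.ws.2 ψ hψ]
      simp only [dt, pd, ed]⟩, fun j k y => by
      simp only [S.su j k y], S.sg, S.bg⟩
  obtain ⟨bu, eu⟩ := R.2 _ g a ha S'
  have bf : Bd fun y => (c0 n)⁻¹ * (2 * a * (u y - u 0) + g y) :=
    (Bd.const _).mul (((Bd.const _).mul bu).add S.bg)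
  have e1 : ∀ y, fderiv ℝ u y = Sg a (fun y => (c0 n)⁻¹ * (2 * a * (u y - u 0) + g y)) y :=
    fun y => by
      rw [← ed, eu]
      exact (Rs_has ha bf y).fderiv
  obtain ⟨M, hM⟩ := Sg_bound ha bf
  have hb : BddAbove (range fun y => ‖fderiv ℝ u y‖) :=
    ⟨M, by rintro _ ⟨y, rfl⟩; simp only [e1]; exact hM y⟩
  set s : ℝ := ⨆ y, ‖fderiv ℝ u y‖ with hs
  have h3 : ∀ y, ‖fderiv ℝ u y‖ ≤ s := fun y => le_ciSup hb y
  have s0 : 0 ≤ s := (norm_nonneg _).trans (h3 0)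
  have h4 : ∀ y, |u y - u 0| ≤ s := fun y => by
    rw [← F.2.2.2.2 u S.su y]
    have h5 := Convex.norm_image_sub_le_of_norm_fderiv_le (𝕜 := ℝ) (f := u) (s := univ) (C := s)
      (fun z _ => cd_diff S.ws.1 z) (fun z _ => h3 z) convex_univ (mem_univ 0) (mem_univ (fold y))
    have h6 : ‖fold y - 0‖ ≤ 1 := by
      rw [sub_zero]
      refine (pi_norm_le_iff_of_nonneg zero_le_one).2 fun j => ?_
      rw [Real.norm_of_nonneg ((F.1 y).1 j)]
      exact (F.1 y).2 j
    exact h5.trans (by simpa using mul_le_mul_of_nonneg_left h6 s0)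
  have h7 : s ≤ (c0 n)⁻¹ * (2 * a * s + B) * K := ciSup_le fun y => by
    rw [e1]
    refine h2 _ _ (fun z => ?_) y
    rw [abs_mul, abs_of_pos (inv_pos.2 hc)]
    refine mul_le_mul_of_nonneg_left ((abs_add_le _ _).trans (add_le_add ?_ (hg z)))
      (inv_pos.2 hc).le
    rw [abs_mul, abs_of_pos (by positivity : 0 < 2 * a)]
    exact mul_le_mul_of_nonneg_left (h4 z) (by positivity)
  have h8 : (c0 n)⁻¹ * (2 * a) * K * s ≤ 1 / 2 * s := mul_le_mul_of_nonneg_right h1 s0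
  have h9 : |pd i u x| ≤ s := by
    have := (fderiv ℝ u x).le_opNorm (Pi.single i 1)
    rw [Pi.norm_single, norm_one, mul_one] at this
    exact this.trans (h3 x)
  nlinarith

end Pool.Agent.MP_478eab_an.P
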