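import Mathlib
import Pool.Agent.MP_478eab_an.P.Spec

/-! The two identities: logarithmic response and drift. -/

namespace Pool.Agent.MP_478eab_an.P

open MeasureTheory Set Filter Topology Metric Pool.Agent.MP_478eab_an.V

variable {n : ℕ}

theorem id_dt_cont {f g : Fn n} (hf : ContDiff ℝ 1 f) (hg : ContDiff ℝ 1 g) :
    Continuous (dt f g) := by
  unfold dt
  exact continuous_finsetSum _ fun i _ => (pd_continuous hf i).mul (pd_continuous hg i)

theorem id_int {f : Fn n} (hf : Continuous f) : IntegrableOn f (cube n) :=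
  (LB.of_cont hf).cube

theorem id_pd_exp {v : Fn n} (hv : ContDiff ℝ 1 v) (c : ℝ) (x : Fin n → ℝ) (i : Fin n) :
    pd i (fun y => Real.exp (c * v y)) x = c * Real.exp (c * v x) * pd i v x := by
  have h : HasDerivAt (fun t : ℝ => Real.exp (c * t)) (c * Real.exp (c * v x)) (v x) := by
    have := ((hasDerivAt_id (v x)).const_mul c).exp
    simpa [mul_comm] using this
  exact pd_comp h (cd_diff hv x) i

theorem id_point {θ p v ζ : Fn n} (hθ : ContDiff ℝ 1 θ) (hp : ContDiff ℝ 1 p)
    (hv : ContDiff ℝ 1 v) (hζ : ContDiff ℝ 1 ζ) (x : Fin n → ℝ) :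
    θ x * p x * dt v ζ x
        + ζ x * wd (fun i y => θ y * pd i p y - p y * pd i θ y) v x - θ x * p x * gs v x * ζ x
      = dt (fun y => θ y * Real.exp (1 * v y)) (fun y => p y * ζ y * Real.exp (-1 * v y)) x
        - dt θ (fun y => p y * ζ y) x := by
  have he : ∀ c : ℝ, ContDiff ℝ 1 fun y => Real.exp (c * v y) := fun c =>
    (contDiff_const.mul hv).exp
  have hpz : ContDiff ℝ 1 fun y => p y * ζ y := hp.mul hζ
  have hE : Real.exp (1 * v x) * Real.exp (-1 * v x) = 1 := by
    rw [← Real.exp_add]; simp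
  unfold dt wd gs
  rw [Finset.mul_sum, Finset.mul_sum, Finset.mul_sum, Finset.sum_mul, ← Finset.sum_add_distrib,
    ← Finset.sum_sub_distrib, ← Finset.sum_sub_distrib]
  refine Finset.sum_congr rfl fun i _ => ?_
  rw [pd_mul (cd_diff hθ x) (cd_diff (he 1) x), pd_mul (cd_diff hpz x) (cd_diff (he (-1)) x),
    pd_mul (cd_diff hp x) (cd_diff hζ x), id_pd_exp hv, id_pd_exp hv]
  generalize Real.exp (1 * v x) = A at hE ⊢
  generalize Real.exp (-1 * v x) = B at hE ⊢
  linear_combination (-((pd i θ x + θ x * pd i v x)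
    * (pd i p x * ζ x + p x * pd i ζ x - p x * ζ x * pd i v x))) * hE

theorem id_one (θ θ' p M M' : Fn n) (hM : LB M) (hM' : LB M')
    (h : WS θ (fun x => θ x * (M x - θ x))) (h' : WS θ' (fun x => θ' x * (M' x - θ' x)))
    (h0 : ∀ x, 0 < θ x) (h0' : ∀ x, 0 < θ' x) (hp : ContDiff ℝ 1 p) (v : Fn n)
    (hv : ∀ x, v x = Real.log (θ' x) - Real.log (θ x)) (ζ : Fn n) (hζ : ContDiff ℝ 1 ζ) :
    ∫ x in cube n, (θ x * p x * dt v ζ x
        + ζ x * wd (fun i y => θ y * pd i p y - p y * pd i θ y) v x - θ x * p x * gs v x * ζ x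
        + θ x * (θ x * p x) * (Real.exp (v x) - 1) * ζ x)
        = ∫ x in cube n, (M' x - M x) * (θ x * p x) * ζ x := by
  have hvc : ContDiff ℝ 1 v := by
    rw [show v = fun x => Real.log (θ' x) - Real.log (θ x) from funext hv]
    exact (h'.1.log fun x => (h0' x).ne').sub (h.1.log fun x => (h0 x).ne')
  have hθ' : θ' = fun y => θ y * Real.exp (1 * v y) := by
    funext y
    rw [one_mul, hv, Real.exp_sub, Real.exp_log (h0' y), Real.exp_log (h0 y)]
    have := (h0 y).ne'
    field_simp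
  have he : ∀ c : ℝ, ContDiff ℝ 1 fun y => Real.exp (c * v y) := fun c =>
    (contDiff_const.mul hvc).exp
  have hpz : ContDiff ℝ 1 fun y => p y * ζ y := hp.mul hζ
  have hψ : ContDiff ℝ 1 fun y => p y * ζ y * Real.exp (-1 * v y) := hpz.mul (he _)
  have e1 := h'.2 _ hψ
  have e2 := h.2 _ hpz
  have c1 := id_int (id_dt_cont h'.1 hψ)
  have c2 := id_int (id_dt_cont h.1 hpz)
  have lθ := LB.of_cont h.1.continuous
  have lθ' := LB.of_cont h'.1.continuous
  have c3 : IntegrableOn (fun x => θ x * (θ x * p x) * (Real.exp (v x) - 1) * ζ x) (cube n) := by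
    have a1 := h.1.continuous
    have a2 := hp.continuous
    have a3 := hvc.continuous
    have a4 := hζ.continuous
    exact id_int (((a1.mul (a1.mul a2)).mul (a3.rexp.sub continuous_const)).mul a4)
  have c4 : IntegrableOn (fun x => θ' x * (M' x - θ' x) * (p x * ζ x * Real.exp (-1 * v x)))
      (cube n) := ((lθ'.mul (hM'.sub lθ')).mul (LB.of_cont hψ.continuous)).cube
  have c5 : IntegrableOn (fun x => θ x * (M x - θ x) * (p x * ζ x)) (cube n) :=
    ((lθ.mul (hM.sub lθ)).mul (LB.of_cont hpz.continuous)).cube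
  have l1 : ∫ x in cube n, (θ x * p x * dt v ζ x
        + ζ x * wd (fun i y => θ y * pd i p y - p y * pd i θ y) v x - θ x * p x * gs v x * ζ x
        + θ x * (θ x * p x) * (Real.exp (v x) - 1) * ζ x)
      = ∫ x in cube n, (dt θ' (fun y => p y * ζ y * Real.exp (-1 * v y)) x
        - dt θ (fun y => p y * ζ y) x + θ x * (θ x * p x) * (Real.exp (v x) - 1) * ζ x) := by
    refine integral_congr_ae (Eventually.of_forall fun x => ?_)
    have := id_point h.1 hp hvc hζ x
    rw [← hθ'] at this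
    simp only [this]
  have l2 : ∫ x in cube n, (M' x - M x) * (θ x * p x) * ζ x
      = ∫ x in cube n, (θ' x * (M' x - θ' x) * (p x * ζ x * Real.exp (-1 * v x))
        - θ x * (M x - θ x) * (p x * ζ x) + θ x * (θ x * p x) * (Real.exp (v x) - 1) * ζ x) := by
    refine integral_congr_ae (Eventually.of_forall fun x => ?_)
    have hx : θ' x = θ x * Real.exp (v x) := by rw [hθ']; simp
    have hE : Real.exp (v x) * Real.exp (-1 * v x) = 1 := by
      rw [← Real.exp_add]; simp
    simp only [hx]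
    generalize Real.exp (v x) = A at hE ⊢
    generalize Real.exp (-1 * v x) = B at hE ⊢
    linear_combination (-(θ x * p x * ζ x * (M' x - θ x * A))) * hE
  have d1 : IntegrableOn (fun x => dt θ' (fun y => p y * ζ y * Real.exp (-1 * v y)) x
        - dt θ (fun y => p y * ζ y) x) (cube n) := c1.sub c2
  have d2 : IntegrableOn (fun x => θ' x * (M' x - θ' x) * (p x * ζ x * Real.exp (-1 * v x))
        - θ x * (M x - θ x) * (p x * ζ x)) (cube n) := c4.sub c5
  rw [l1, l2, integral_add d1 c3, integral_add d2 c3, integral_sub c1 c2, integral_sub c4 c5,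
    e1, e2]

theorem id_two (θ p M : Fn n) (hM : LB M) (h : WS θ (fun x => θ x * (M x - θ x)))
    (hp : WS p (fun x => (M x - 2 * θ x) * p x + 1)) (ζ : Fn n) (hζ : ContDiff ℝ 1 ζ) :
    ∫ x in cube n, wd (fun i y => θ y * pd i p y - p y * pd i θ y) ζ x
        = ∫ x in cube n, θ x * (1 - θ x * p x) * ζ x := by
  have hpz : ContDiff ℝ 1 fun y => p y * ζ y := hp.1.mul hζ
  have htz : ContDiff ℝ 1 fun y => θ y * ζ y := h.1.mul hζ
  have e1 := hp.2 _ htz
  have e2 := h.2 _ hpz
  have c1 := id_int (id_dt_cont hp.1 htz)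
  have c2 := id_int (id_dt_cont h.1 hpz)
  have lθ := LB.of_cont h.1.continuous
  have lp := LB.of_cont hp.1.continuous
  have c4 : IntegrableOn (fun x => ((M x - 2 * θ x) * p x + 1) * (θ x * ζ x)) (cube n) :=
    ((((hM.sub (lθ.cmul 2)).mul lp).add (LB.const 1)).mul (LB.of_cont htz.continuous)).cube
  have c5 : IntegrableOn (fun x => θ x * (M x - θ x) * (p x * ζ x)) (cube n) :=
    ((lθ.mul (hM.sub lθ)).mul (LB.of_cont hpz.continuous)).cube
  have l1 : ∫ x in cube n, wd (fun i y => θ y * pd i p y - p y * pd i θ y) ζ x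
      = ∫ x in cube n, (dt p (fun y => θ y * ζ y) x - dt θ (fun y => p y * ζ y) x) := by
    refine integral_congr_ae (Eventually.of_forall fun x => ?_)
    simp only [wd, dt]
    rw [← Finset.sum_sub_distrib]
    refine Finset.sum_congr rfl fun i _ => ?_
    rw [pd_mul (cd_diff h.1 x) (cd_diff hζ x), pd_mul (cd_diff hp.1 x) (cd_diff hζ x)]
    ring
  have l2 : ∫ x in cube n, θ x * (1 - θ x * p x) * ζ x
      = ∫ x in cube n, (((M x - 2 * θ x) * p x + 1) * (θ x * ζ x)
        - θ x * (M x - θ x) * (p x * ζ x)) :=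
    integral_congr_ae (Eventually.of_forall fun x => by ring)
  rw [l1, l2, integral_sub c1 c2, integral_sub c4 c5, e1, e2]

theorem idS : IdS n := ⟨id_one, id_two⟩

end Pool.Agent.MP_478eab_an.P
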