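import Mathlib
import Pool.Agent.MP_478eab_an.P.Spec

/-! The key lemma: for perturbations supported in a small ball the gradient term dominates. -/

namespace Pool.Agent.MP_478eab_an.P

open MeasureTheory Set Filter Topology Metric Pool.Agent.MP_478eab_an.V

variable {n : ℕ}

theorem ky_young (f g : Fin n → ℝ) {γ : ℝ} (hγ : 0 < γ) :
    ∑ i, f i * g i ≤ γ / 2 * ∑ i, f i ^ 2 + 1 / (2 * γ) * ∑ i, g i ^ 2 := by
  rw [Finset.mul_sum, Finset.mul_sum, ← Finset.sum_add_distrib]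
  refine Finset.sum_le_sum fun i _ => ?_
  have h : γ / 2 * f i ^ 2 + 1 / (2 * γ) * g i ^ 2 - f i * g i = (γ * f i - g i) ^ 2 / (2 * γ) := by
    field_simp; ring
  have : 0 ≤ (γ * f i - g i) ^ 2 / (2 * γ) := by positivity
  linarith

theorem ky_exp {v : ℝ} (hv : |v| ≤ 1 / 100) (ξ : ℝ) :
    v ^ 2 / 5 - ξ ^ 2 / 2 ≤ (Real.exp v - 1) * (v - ξ) - (v ^ 2 - ξ ^ 2) / 2 := by
  have h1 := Real.abs_exp_sub_one_sub_id_le (x := v) (by linarith)
  obtain ⟨r, hr⟩ : ∃ r, r = Real.exp v - 1 - v := ⟨_, rfl⟩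
  rw [← hr] at h1
  have e : Real.exp v - 1 = v + r := by linarith
  rw [e]
  have h2 : v ^ 2 ≤ 1 / 10000 := by
    have := sq_abs v
    nlinarith [abs_nonneg v]
  have h3 : r ^ 2 ≤ v ^ 2 / 10000 := by
    have := sq_abs r
    nlinarith [abs_nonneg r, sq_nonneg v]
  nlinarith [sq_nonneg (v - 100 * r), sq_nonneg (v + 100 * r), sq_nonneg (v + r - 2 * ξ)]

/-- the pointwise inequality -/
theorem ky_pt (a c w : Fin n → ℝ) {θ φ v u χ L γ J : ℝ} (hγ : 0 < γ) (t0 : 0 < θ) (p0 : 0 < φ)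
    (t1 : θ ≤ L ^ 2) (t2 : θ ≤ L ^ 2 * φ) (wb : ∑ i, w i ^ 2 ≤ L ^ 2 * φ ^ 2)
    (hv : |v| ≤ 1 / 100) (hw : v - χ * u ≤ 1 / 100) (c0 : 0 ≤ χ) (c1 : χ ≤ 1)
    (hJ : u * ∑ i, c i * a i ≤ J) :
    θ * φ * v ^ 2 ≤ 5 * ((φ * (∑ i, a i * ((1 - χ) * a i - u * c i)) + (v - χ * u) * (∑ i, w i * a i)
        - φ * (∑ i, a i ^ 2) * (v - χ * u) + θ * φ * (Real.exp v - 1) * (v - χ * u))
        - (∑ i, w i * (v * a i - χ * u * (χ * a i + u * c i)))
        + θ * (1 - φ) * ((v ^ 2 - (χ * u) ^ 2) / 2))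
      + 5 * (φ * J + (γ + 1 / 100) * (φ * ∑ i, a i ^ 2) + γ * (φ * (u ^ 2 * ∑ i, c i ^ 2))
        + L ^ 2 * (1 + 1 / (2 * γ)) * (φ * (χ * u) ^ 2)) := by
  obtain ⟨A, hA⟩ : ∃ A, A = ∑ i, a i ^ 2 := ⟨_, rfl⟩
  obtain ⟨Cc, hC⟩ : ∃ A, A = ∑ i, c i ^ 2 := ⟨_, rfl⟩
  have A0 : 0 ≤ A := by rw [hA]; positivity
  have e1 : ∑ i, a i * ((1 - χ) * a i - u * c i) = (1 - χ) * A - u * ∑ i, c i * a i := by
    rw [hA, Finset.mul_sum, Finset.mul_sum, ← Finset.sum_sub_distrib]
    exact Finset.sum_congr rfl fun i _ => by ring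
  obtain ⟨Z, hZ⟩ : ∃ Z, Z = ∑ i, (φ * ((1 - χ) * a i - u * c i)) * (χ * u * w i / φ) := ⟨_, rfl⟩
  have e2 : (v - χ * u) * (∑ i, w i * a i) - ∑ i, w i * (v * a i - χ * u * (χ * a i + u * c i))
      = -Z := by
    rw [hZ, Finset.mul_sum, ← Finset.sum_sub_distrib, ← Finset.sum_neg_distrib]
    exact Finset.sum_congr rfl fun i _ => by field_simp; ring
  have h3 : Z ≤ γ * (φ * A) + γ * (φ * (u ^ 2 * Cc)) + L ^ 2 * (1 / (2 * γ)) * (φ * (χ * u) ^ 2) := by
    have y := ky_young (fun i => φ * ((1 - χ) * a i - u * c i)) (fun i => χ * u * w i / φ)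
      (div_pos hγ p0)
    rw [← hZ] at y
    have b1 : ∑ i, (φ * ((1 - χ) * a i - u * c i)) ^ 2 ≤ φ ^ 2 * (2 * A + 2 * (u ^ 2 * Cc)) := by
      rw [hA, hC, Finset.mul_sum, Finset.mul_sum, Finset.mul_sum, ← Finset.sum_add_distrib,
        Finset.mul_sum]
      refine Finset.sum_le_sum fun i _ => ?_
      rw [mul_pow]
      refine mul_le_mul_of_nonneg_left ?_ (sq_nonneg _)
      have : ((1 - χ) * a i) ^ 2 ≤ a i ^ 2 := by
        rw [mul_pow]; exact mul_le_of_le_one_left (sq_nonneg _) (by nlinarith)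
      nlinarith [sq_nonneg ((1 - χ) * a i + u * c i)]
    have b2 : ∑ i, (χ * u * w i / φ) ^ 2 ≤ (χ * u) ^ 2 * L ^ 2 := by
      have : ∑ i, (χ * u * w i / φ) ^ 2 = (χ * u) ^ 2 / φ ^ 2 * ∑ i, w i ^ 2 := by
        rw [Finset.mul_sum]; exact Finset.sum_congr rfl fun i _ => by field_simp
      rw [this]
      refine (mul_le_mul_of_nonneg_left wb (by positivity)).trans_eq ?_
      field_simp
    refine y.trans ((add_le_add (mul_le_mul_of_nonneg_left b1 (by positivity))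
      (mul_le_mul_of_nonneg_left b2 (by positivity))).trans_eq ?_)
    field_simp
  have h4 := mul_le_mul_of_nonneg_left (ky_exp hv (χ * u)) (mul_pos t0 p0).le
  have h5 : φ * A * (v - χ * u) ≤ φ * A * (1 / 100) :=
    mul_le_mul_of_nonneg_left hw (by positivity)
  have h6 := mul_le_mul_of_nonneg_left hJ p0.le
  have h7 : 0 ≤ φ * ((1 - χ) * A) := mul_nonneg p0.le (mul_nonneg (by linarith) A0)
  have h8 := mul_le_mul_of_nonneg_right t2 (sq_nonneg (χ * u))
  have h9 := mul_le_mul_of_nonneg_right t1 (mul_nonneg p0.le (sq_nonneg (χ * u)))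
  have h10 : 0 ≤ θ * v ^ 2 := by positivity
  rw [e1, ← hA, ← hC]
  linarith

/-- indicator of a ball -/
noncomputable def ib (x : Fin n → ℝ) (r : ℝ) : Fn n := (closedBall x r).indicator fun _ => 1

theorem ib_lb (x : Fin n → ℝ) (r : ℝ) : LB (ib x r) := LB.ind measurableSet_closedBall

theorem ib_mem {x y : Fin n → ℝ} {r : ℝ} (h : y ∈ closedBall x r) : ib x r y = 1 :=
  indicator_of_mem h _

theorem ib_not {x y : Fin n → ℝ} {r : ℝ} (h : y ∉ closedBall x r) : ib x r y = 0 :=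
  indicator_of_notMem h _

theorem ib_bd (x y : Fin n → ℝ) (r : ℝ) : 0 ≤ ib x r y ∧ ib x r y ≤ 1 := by
  by_cases h : y ∈ closedBall x r
  · rw [ib_mem h]; norm_num
  · rw [ib_not h]; norm_num

theorem ib_int (x : Fin n → ℝ) (r : ℝ) (f : Fn n) :
    ∫ y in cube n, ib x r y * f y = ∫ y in Q x r, f y := by
  rw [Q, inter_comm, ← setIntegral_indicator measurableSet_closedBall]
  congr 1
  funext y
  by_cases h : y ∈ closedBall x r
  · rw [ib_mem h, indicator_of_mem h, one_mul]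
  · rw [ib_not h, indicator_of_notMem h, zero_mul]

theorem dt_cont {f g : Fn n} (hf : ContDiff ℝ 1 f) (hg : ContDiff ℝ 1 g) : Continuous (dt f g) :=
  continuous_finsetSum _ fun i _ => (pd_continuous hf i).mul (pd_continuous hg i)

theorem wd_cont {W : Fin n → Fn n} {g : Fn n} (hW : ∀ i, Continuous (W i))
    (hg : ContDiff ℝ 1 g) : Continuous (wd W g) :=
  continuous_finsetSum _ fun i _ => (hW i).mul (pd_continuous hg i)

theorem Q_meas (x : Fin n → ℝ) (r : ℝ) : MeasurableSet (Q x r) :=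
  measurableSet_closedBall.inter cube_meas

theorem Q_int {f : Fn n} (hf : Continuous f) (x : Fin n → ℝ) (r : ℝ) : IntegrableOn f (Q x r) :=
  (LB.of_cont hf).intOn cube_compact inter_subset_right

variable {L : ℝ} {θ φ h v : (Fin n → ℝ) → ℝ} {W : Fin n → (Fin n → ℝ) → ℝ}

/-- the exact identity and maximality -/
theorem ky_max (D : Dat L θ φ W) (R : Rsp θ φ W h v) :
    ∫ x in cube n, φ x * gs v x
      ≤ -(∫ x in cube n, h x * φ x) + ∫ x in cube n, θ x * φ x * v x ^ 2 := by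
  have tc := D.tc
  have pc := D.pc.continuous
  have vc := R.vc.continuous
  have gc := gs_continuous R.vc
  have wc := wd_cont D.wc R.vc
  have e1 := R.veq (fun _ => 1) contDiff_const
  have e2 := D.weq v R.vc
  have z : ∀ x, dt v (fun _ => 1) x = 0 := fun x => by simp [dt, pd_const]
  simp only [z, mul_zero, zero_add, one_mul, mul_one] at e1
  have i1 : Continuous fun x => wd W v x - φ x * gs v x + θ x * φ x * (Real.exp (v x) - 1) :=
    (wc.sub (pc.mul gc)).add (by fun_prop)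
  have i2 : Continuous fun x => wd W v x - θ x * (1 - φ x) * v x := wc.sub (by fun_prop)
  have e3 : ∫ x in cube n, (wd W v x - θ x * (1 - φ x) * v x) = 0 := by
    rw [integral_sub (LB.of_cont wc).cube (LB.of_cont (by fun_prop)).cube, e2, sub_self]
  have i3 : Continuous fun x => θ x * (Real.exp (v x) - 1) + θ x * φ x * v x ^ 2 := by fun_prop
  have e4 : ∫ x in cube n, (θ x * (Real.exp (v x) - 1) + θ x * φ x * v x ^ 2)
      ≤ ∫ x in cube n, θ x * φ x * v x ^ 2 := by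
    rw [integral_add (LB.of_cont (by fun_prop)).cube (LB.of_cont (by fun_prop)).cube]
    linarith [R.mx]
  have := lin3 cube_meas (LB.of_cont (pc.mul gc)).cube (LB.of_cont i1).cube (LB.of_cont i2).cube
    (LB.of_cont i3).cube (a := -1) (b := 1) (c := 1) fun x hx => by
      have h1 := (abs_le.1 (Real.abs_exp_sub_one_sub_id_le (x := v x)
        ((R.vb x hx).trans (by norm_num)))).2
      have h2 := Real.add_one_le_exp (v x)
      have h3 := mul_le_mul_of_nonneg_left h1 (mul_pos (D.t0 x) (D.p0 x)).le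
      have h4 := mul_le_mul_of_nonneg_left h2 (D.t0 x).le
      simp only [Pi.mul_apply]
      linarith
  rw [e1, e3] at this
  simp only [Pi.mul_apply] at this
  linarith

/-- the localised estimate at one scale -/
theorem ky_loc (D : Dat L θ φ W) (R : Rsp θ φ W h v) {x₀ : Fin n → ℝ} {r Y γ Cb : ℝ}
    {χ : (Fin n → ℝ) → ℝ}
    (hr : 0 < r) (hγ : 0 < γ) (hY : |Y| ≤ 1 / 100) (hh : ∀ x, x ∉ closedBall x₀ r → h x = 0)
    (cd : ContDiff ℝ 1 χ) (c01 : ∀ y, 0 ≤ χ y ∧ χ y ≤ 1) (c1 : ∀ y ∈ closedBall x₀ r, χ y = 1)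
    (c0 : ∀ y, y ∉ closedBall x₀ (2 * r) → χ y = 0) (cg : ∀ y, gs χ y ≤ Cb / r ^ 2)
    (cz : ∀ y, (y ∈ closedBall x₀ r ∨ y ∉ closedBall x₀ (2 * r)) → ∀ i, pd i χ y = 0) :
    ∫ x in cube n, θ x * φ x * v x ^ 2 ≤ 5 * (Y * ∫ x in cube n, h x * φ x)
      + 5 * (1 / (2 * γ) * ((∫ x in cube n, ib x₀ (2 * r) x * (φ x * gs v x))
          - ∫ x in cube n, ib x₀ r x * (φ x * gs v x))
        + (γ + 1 / 100) * ∫ x in cube n, φ x * gs v x)
      + 5 * (3 / 2 * γ * (Cb / r ^ 2) + L ^ 2 * (1 + 1 / (2 * γ)))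
        * ∫ x in cube n, ib x₀ (2 * r) x * (φ x * (v x - Y) ^ 2) := by
  have tc := D.tc
  have pc := D.pc.continuous
  have vd := R.vc
  have vc := R.vc.continuous
  have cc := cd.continuous
  have gc := gs_continuous R.vc
  have wc := wd_cont D.wc R.vc
  have d1 : ContDiff ℝ 1 fun x => v x - χ x * (v x - Y) := by fun_prop
  have d2 : ContDiff ℝ 1 fun x => (v x ^ 2 - (χ x * (v x - Y)) ^ 2) / 2 := by fun_prop
  have p1 : ∀ x i, pd i (fun x => v x - χ x * (v x - Y)) x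
      = (1 - χ x) * pd i v x - (v x - Y) * pd i χ x := fun x i => by
    have a1 := (cd_diff vd x).hasFDerivAt
    have a2 := (cd_diff cd x).hasFDerivAt
    rw [pd_of_has (a1.fun_sub (a2.fun_mul (a1.sub_const Y)))]
    simp [pd]; ring
  have p2 : ∀ x i, pd i (fun x => (v x ^ 2 - (χ x * (v x - Y)) ^ 2) / 2) x
      = v x * pd i v x - χ x * (v x - Y) * (χ x * pd i v x + (v x - Y) * pd i χ x) := fun x i => by
    have a1 := (cd_diff vd x).hasFDerivAt
    have a2 := (cd_diff cd x).hasFDerivAt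
    have a3 := a2.fun_mul (a1.sub_const Y)
    have a4 := ((a1.fun_mul a1).fun_sub (a3.fun_mul a3)).mul_const (1 / 2 : ℝ)
    rw [show (fun x => (v x ^ 2 - (χ x * (v x - Y)) ^ 2) / 2) = fun x =>
      (v x * v x - (χ x * (v x - Y)) * (χ x * (v x - Y))) * (1 / 2) from funext fun x => by ring,
      pd_of_has a4]
    simp [pd]; ring
  have e1 := R.veq _ d1
  have e2 := D.weq _ d2
  have e0 : ∫ x in cube n, h x * φ x * (v x - χ x * (v x - Y)) = Y * ∫ x in cube n, h x * φ x := by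
    rw [← integral_const_mul]
    congr 1
    funext x
    by_cases hx : x ∈ closedBall x₀ r
    · rw [c1 x hx]; ring
    · rw [hh x hx]; ring
  rw [e0] at e1
  have i1 : Continuous fun x => φ x * dt v (fun x => v x - χ x * (v x - Y)) x
      + (v x - χ x * (v x - Y)) * wd W v x - φ x * gs v x * (v x - χ x * (v x - Y))
      + θ x * φ x * (Real.exp (v x) - 1) * (v x - χ x * (v x - Y)) :=
    (((pc.mul (dt_cont vd d1)).add (d1.continuous.mul wc)).sub
      ((pc.mul gc).mul d1.continuous)).add (by fun_prop)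
  have i2 := wd_cont D.wc d2
  have i3 : Continuous fun x => θ x * (1 - φ x) * ((v x ^ 2 - (χ x * (v x - Y)) ^ 2) / 2) := by
    fun_prop
  have l0 : LB fun x => φ x * gs v x := LB.of_cont (pc.mul gc)
  have l1 := (ib_lb x₀ (2 * r)).mul l0
  have l2 := (ib_lb x₀ r).mul l0
  have l3 := (ib_lb x₀ (2 * r)).mul (LB.of_cont (f := fun x => φ x * (v x - Y) ^ 2) (by fun_prop))
  have j1 := ((LB.of_cont i1).sub (LB.of_cont i2)).add (LB.of_cont i3)
  have j2 := ((l1.sub l2).cmul (1 / (2 * γ))).add (l0.cmul (γ + 1 / 100))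
  have key := lin3 cube_meas (LB.of_cont (f := fun x => θ x * φ x * v x ^ 2) (by fun_prop)).cube
    j1.cube j2.cube l3.cube (a := 5) (b := 5)
    (c := 5 * (3 / 2 * γ * (Cb / r ^ 2) + L ^ 2 * (1 + 1 / (2 * γ)))) fun x hx => by
      have p0 := D.p0 x
      have g0 := gs_nonneg v x
      have hw : v x - χ x * (v x - Y) ≤ 1 / 100 := by
        have := (abs_le.1 (R.vb x hx)).2
        have := (abs_le.1 hY).2
        nlinarith [c01 x]
      have hJ : (v x - Y) * ∑ i, pd i χ x * pd i v x ≤ γ / 2 * ((v x - Y) ^ 2 * gs χ x)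
          + 1 / (2 * γ) * ((ib x₀ (2 * r) x - ib x₀ r x) * gs v x) := by
        by_cases h1 : x ∈ closedBall x₀ r ∨ x ∉ closedBall x₀ (2 * r)
        · have : 0 ≤ ib x₀ (2 * r) x - ib x₀ r x := by
            rcases h1 with h1 | h1
            · rw [ib_mem h1, ib_mem (closedBall_subset_closedBall (by linarith) h1), sub_self]
            · rw [ib_not h1, ib_not fun h2 => h1 (closedBall_subset_closedBall (by linarith) h2),
                sub_self]
          have := gs_nonneg χ x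
          simp only [cz x h1, zero_mul, Finset.sum_const_zero, mul_zero]
          positivity
        · push Not at h1
          rw [ib_mem h1.2, ib_not h1.1, sub_zero, one_mul, Finset.mul_sum]
          have := ky_young (fun i => (v x - Y) * pd i χ x) (fun i => pd i v x) hγ
          simp only [mul_pow, ← Finset.mul_sum] at this
          simpa only [mul_assoc, gs, Finset.mul_sum] using this
      have pt := ky_pt (fun i => pd i v x) (fun i => pd i χ x) (fun i => W i x) hγ (D.t0 x) p0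
        (D.t1 x) (D.t2 x) (D.wb x) (R.vb x hx) hw (c01 x).1 (c01 x).2 hJ
      have b1 : φ x * ((v x - Y) ^ 2 * gs χ x)
          ≤ Cb / r ^ 2 * (ib x₀ (2 * r) x * (φ x * (v x - Y) ^ 2)) := by
        by_cases h1 : x ∈ closedBall x₀ (2 * r)
        · rw [ib_mem h1]
          have := mul_le_mul_of_nonneg_left (cg x) (mul_nonneg p0.le (sq_nonneg (v x - Y)))
          linarith
        · simp [ib_not h1, gs, cz x (Or.inr h1)]
      have b2 : φ x * (χ x * (v x - Y)) ^ 2 ≤ ib x₀ (2 * r) x * (φ x * (v x - Y) ^ 2) := by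
        by_cases h1 : x ∈ closedBall x₀ (2 * r)
        · rw [ib_mem h1, one_mul, mul_pow]
          refine mul_le_mul_of_nonneg_left (mul_le_of_le_one_left (sq_nonneg _) ?_) p0.le
          nlinarith [c01 x]
        · simp [ib_not h1, c0 x h1]
      have b3 := mul_le_mul_of_nonneg_left b1 hγ.le
      have b4 := mul_le_mul_of_nonneg_left b2
        (show 0 ≤ L ^ 2 * (1 + 1 / (2 * γ)) by positivity)
      simp only [dt, wd, p1, p2]
      simp only [gs] at pt b3 ⊢
      linarith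
  rw [integral_add ((LB.of_cont i1).sub (LB.of_cont i2)).cube (LB.of_cont i3).cube,
    integral_sub (LB.of_cont i1).cube (LB.of_cont i2).cube, e1, e2,
    integral_add ((l1.sub l2).cmul _).cube (l0.cmul _).cube, integral_const_mul,
    integral_const_mul, integral_sub l1.cube l2.cube] at key
  linarith

theorem keyS (P : PoiS n) (B : BumpS n) (H : HarS n) : KeyS n := by
  obtain ⟨CP, CP0, hP⟩ := P
  obtain ⟨Cb, Cb0, hB⟩ := B
  obtain ⟨γ, hγ⟩ : ∃ γ : ℝ, γ = 1 / (50 * (1 + 24 * Cb * CP)) := ⟨_, rfl⟩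
  have γ0 : 0 < γ := by rw [hγ]; positivity
  have γ1 : γ * (1 + 24 * Cb * CP) = 1 / 50 := by rw [hγ]; field_simp
  obtain ⟨K, hK⟩ := exists_nat_ge (25 / γ)
  have K0 : (0 : ℝ) < K := lt_of_lt_of_le (by positivity) hK
  obtain ⟨ρ, hρ⟩ : ∃ ρ : ℝ, ρ = min (1 / (2 * ((n : ℝ) + 1))) (1 / (800 * CP * (1 + 1 / (2 * γ)))) :=
    ⟨_, rfl⟩
  have ρ0 : 0 < ρ := by rw [hρ]; positivity
  have ρ1 : ρ * (2 * (n + 1)) ≤ 1 := by
    rw [← le_div_iff₀ (by positivity), hρ]; exact min_le_left _ _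
  have ρ2 : ρ * (800 * CP * (1 + 1 / (2 * γ))) ≤ 1 := by
    rw [← le_div_iff₀ (by positivity), hρ]; exact min_le_right _ _
  have n0 : (0 : ℝ) ≤ n := Nat.cast_nonneg n
  refine ⟨ρ / 2 ^ K, by positivity, fun L l (θ φ h v : (Fin n → ℝ) → ℝ) W x₀ D R hx l0 hl hh => ?_⟩
  have L0 := D.L0
  have pc := D.pc.continuous
  have vc := R.vc.continuous
  have gc := gs_continuous R.vc
  have l0' : LB fun x => φ x * gs v x := LB.of_cont (pc.mul gc)
  obtain ⟨E, hE⟩ : ∃ E, E = ∫ x in cube n, φ x * gs v x := ⟨_, rfl⟩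
  obtain ⟨X, hX⟩ : ∃ X, X = ∫ x in cube n, h x * φ x := ⟨_, rfl⟩
  obtain ⟨N, hN⟩ : ∃ N, N = ∫ x in cube n, θ x * φ x * v x ^ 2 := ⟨_, rfl⟩
  have nn : ∀ x, 0 ≤ φ x * gs v x := fun x => mul_nonneg (D.p0 x).le (gs_nonneg v x)
  have E0 : 0 ≤ E := by rw [hE]; exact integral_nonneg nn
  have le : ∀ r, ∫ x in cube n, ib x₀ r x * (φ x * gs v x) ≤ E := fun r => by
    rw [hE]
    exact setIntegral_mono_on ((ib_lb x₀ r).mul l0').cube l0'.cube cube_meas fun x _ =>
      mul_le_of_le_one_left (nn x) (ib_bd x₀ x r).2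
  obtain ⟨j, hj, hjE⟩ : ∃ j ∈ Finset.range K,
      (∫ x in cube n, ib x₀ (2 ^ (j + 1) * l) x * (φ x * gs v x))
        - ∫ x in cube n, ib x₀ (2 ^ j * l) x * (φ x * gs v x) ≤ E / K := by
    refine Finset.exists_le_of_sum_le (Finset.nonempty_range_iff.2 (by exact_mod_cast K0.ne')) ?_
    rw [Finset.sum_range_sub fun j => ∫ x in cube n, ib x₀ (2 ^ j * l) x * (φ x * gs v x),
      Finset.sum_const, Finset.card_range, nsmul_eq_mul, mul_div_cancel₀ _ K0.ne']
    have : 0 ≤ ∫ x in cube n, ib x₀ (2 ^ 0 * l) x * (φ x * gs v x) :=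
      integral_nonneg fun x => mul_nonneg (ib_bd x₀ x _).1 (nn x)
    linarith [le (2 ^ K * l)]
  obtain ⟨r, hr⟩ : ∃ r : ℝ, r = 2 ^ j * l := ⟨_, rfl⟩
  have r0 : 0 < r := by rw [hr]; positivity
  have rl : l ≤ r := by
    rw [hr]; exact le_mul_of_one_le_left l0.le (one_le_pow₀ one_le_two)
  rw [show (2 : ℝ) ^ (j + 1) * l = 2 * r by rw [hr]; ring, ← hr] at hjE
  have Lr : L * (2 * r) ≤ ρ := by
    have h1 : (2 : ℝ) ^ (j + 1) ≤ 2 ^ K := pow_le_pow_right₀ one_le_two (Finset.mem_range.1 hj)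
    have h2 := (le_div_iff₀ (by positivity)).1 hl
    calc L * (2 * r) = L * l * 2 ^ (j + 1) := by rw [hr]; ring
      _ ≤ L * l * 2 ^ K := mul_le_mul_of_nonneg_left h1 (by positivity)
      _ ≤ ρ := h2
  have cmp : ∀ x y : Fin n → ℝ, ‖y - x‖ ≤ 2 * r → φ y ≤ 2 * φ x := fun x y hy => by
    refine (H φ L D.pc L0.le D.pg x y).trans (mul_le_mul_of_nonneg_right ?_ (D.p0 x).le)
    have h1 : n * L * ‖y - x‖ ≤ 1 / 2 := by
      have := mul_le_mul_of_nonneg_left hy (mul_nonneg n0 L0.le)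
      have := mul_le_mul_of_nonneg_left Lr n0
      nlinarith
    refine (Real.exp_le_exp.2 h1).trans ?_
    have := Real.exp_bound_div_one_sub_of_interval (x := 1 / 2) (by norm_num) (by norm_num)
    linarith
  obtain ⟨Y, hY, hPo⟩ := hP x₀ hx (2 * r) (1 / 100) v (by positivity) R.vc R.vb
  obtain ⟨χ, cd, c01, c1, c0, cg, cz⟩ := hB x₀ r r0
  have key := ky_loc D R r0 γ0 hY
    (fun x hx => hh x fun h1 => hx (closedBall_subset_closedBall rl h1)) cd c01 c1 c0 cg cz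
  have p0 := D.p0 x₀
  have w1 : ∫ x in cube n, ib x₀ (2 * r) x * (φ x * (v x - Y) ^ 2) ≤ 16 * CP * r ^ 2 * E := by
    have a1 := lin1 (Q_meas x₀ (2 * r))
      (Q_int (f := fun x => φ x * (v x - Y) ^ 2) (by fun_prop) _ _)
      (Q_int (f := fun x => (v x - Y) ^ 2) (by fun_prop) _ _) (a := 2 * φ x₀) fun x hx =>
        mul_le_mul_of_nonneg_right (cmp x₀ x (mem_closedBall_iff_norm.1 hx.1)) (sq_nonneg _)
    have a2 := lin1 (Q_meas x₀ (2 * r)) (Q_int (f := fun x => φ x₀ * gs v x)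
      (continuous_const.mul gc) _ _) (Q_int (f := fun x => φ x * gs v x) (pc.mul gc) _ _) (a := 2)
      fun x hx => by
        have := mul_le_mul_of_nonneg_right (cmp x x₀ (mem_closedBall_iff_norm'.1 hx.1))
          (gs_nonneg v x)
        linarith
    have a3 := le (2 * r)
    rw [ib_int] at a3 ⊢
    rw [integral_const_mul] at a2
    have a4 := mul_le_mul_of_nonneg_left hPo (show 0 ≤ 2 * φ x₀ by positivity)
    have a5 := mul_le_mul_of_nonneg_left (a2.trans (mul_le_mul_of_nonneg_left a3 zero_le_two))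
      (show 0 ≤ 8 * CP * r ^ 2 by positivity)
    linarith
  have w2 := mul_le_mul_of_nonneg_left w1 (show 0 ≤ 5 * (3 / 2 * γ * (Cb / r ^ 2)
    + L ^ 2 * (1 + 1 / (2 * γ))) by positivity)
  have w3 : 5 * (3 / 2 * γ * (Cb / r ^ 2) + L ^ 2 * (1 + 1 / (2 * γ))) * (16 * CP * r ^ 2 * E)
      = 5 * (γ * (24 * Cb * CP) * E)
        + 5 * ((L * r) ^ 2 * (16 * CP * (1 + 1 / (2 * γ))) * E) := by field_simp; ring
  have w4 : (L * r) ^ 2 * (16 * CP * (1 + 1 / (2 * γ))) ≤ 1 / 50 := by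
    have h1 : (L * r) ^ 2 ≤ ρ := by
      have h2 : 0 < L * r := by positivity
      have h3 : L * r ≤ ρ := by linarith
      have h4 : ρ ≤ 1 := by nlinarith
      nlinarith
    have := mul_le_mul_of_nonneg_right h1 (show 0 ≤ 16 * CP * (1 + 1 / (2 * γ)) by positivity)
    linarith
  have w5 := mul_le_mul_of_nonneg_right w4 E0
  have w6 := mul_le_mul_of_nonneg_left hjE (show 0 ≤ 1 / (2 * γ) by positivity)
  have w7 : 1 / (2 * γ) * (E / K) ≤ E / 50 := by
    have h1 : 25 ≤ K * γ := (div_le_iff₀ γ0).1 hK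
    rw [div_mul_div_comm, one_mul]
    exact div_le_div_of_nonneg_left E0 (by norm_num) (by linarith)
  have w8 : Y * X ≤ 1 / 100 * |X| := (le_abs_self _).trans (by
    rw [abs_mul]; exact mul_le_mul_of_nonneg_right hY (abs_nonneg _))
  have w9 : γ * E + γ * (24 * Cb * CP) * E = 1 / 50 * E := by rw [← γ1]; ring
  have mx := ky_max D R
  rw [← hE, ← hX, ← hN] at key mx ⊢
  have fin : N ≤ 1 / 20 * |X| + 7 / 20 * E := by linarith
  rcases abs_cases X with ⟨h1, h2⟩ | ⟨h1, h2⟩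
  · rw [h1] at fin ⊢
    refine ⟨by linarith, by linarith, by linarith⟩
  · rw [h1] at fin ⊢
    refine ⟨by linarith, by linarith, by linarith⟩

end Pool.Agent.MP_478eab_an.P
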