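import Pool.Agent.MP_478eab_an.P.Spec

/-! Perimeter of maximisers: the tested inequality and the smallness lemma. -/

namespace Pool.Agent.MP_478eab_an.P

open MeasureTheory Set Filter Topology Metric Pool.Agent.MP_478eab_an.V

variable {n : ℕ}

theorem k2_young {γ : ℝ} (hγ : 0 < γ) (a b : ℝ) :
    |a * b| ≤ 1 / (2 * γ) * a ^ 2 + γ / 2 * b ^ 2 := by
  have h : 1 / (2 * γ) * a ^ 2 + γ / 2 * b ^ 2 - |a| * |b| = (|a| - γ * |b|) ^ 2 / (2 * γ) := by
    rw [← sq_abs a, ← sq_abs b]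
    field_simp
    ring
  have : 0 ≤ (|a| - γ * |b|) ^ 2 / (2 * γ) := by positivity
  rw [abs_mul]
  linarith

theorem k2_sum {γ : ℝ} (hγ : 0 < γ) (a b : Fin n → ℝ) :
    |∑ i, a i * b i| ≤ 1 / (2 * γ) * ∑ i, a i ^ 2 + γ / 2 * ∑ i, b i ^ 2 := by
  rw [Finset.mul_sum, Finset.mul_sum, ← Finset.sum_add_distrib]
  exact (Finset.abs_sum_le_sum_abs _ _).trans (Finset.sum_le_sum fun i _ => k2_young hγ _ _)

theorem k2_pt {L γ : ℝ} {θ φ v ψ : Fn n} {W : Fin n → Fn n} (D : Dat L θ φ W) (hγ : 0 < γ)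
    {x : Fin n → ℝ} (hv : |v x| ≤ 1 / 100) (h0 : 0 ≤ ψ x) (h1 : ψ x ≤ 1) :
    |φ x * dt v ψ x + ψ x * wd W v x - φ x * gs v x * ψ x + θ x * φ x * (Real.exp (v x) - 1) * ψ x|
      ≤ (1 / γ + 1) * (φ x * gs v x) + 2 / γ * (θ x * φ x * v x ^ 2)
        + γ * (φ x * (gs ψ x + L ^ 2 * ψ x ^ 2)) := by
  have p0 := D.p0 x
  have t0 := D.t0 x
  have g0 := gs_nonneg v x
  have g1 := gs_nonneg ψ x
  have a1 : |φ x * dt v ψ x| ≤ 1 / (2 * γ) * (φ x * gs v x) + γ / 2 * (φ x * gs ψ x) := by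
    rw [abs_mul, abs_of_pos p0]
    exact (mul_le_mul_of_nonneg_left (k2_sum hγ (fun i => pd i v x) fun i => pd i ψ x)
      p0.le).trans_eq (by unfold gs; ring)
  have a2 : |ψ x * wd W v x| ≤ 1 / (2 * γ) * (φ x * gs v x)
      + γ / 2 * (φ x * (L ^ 2 * ψ x ^ 2)) := by
    have e : ψ x * wd W v x = φ x * ∑ i, pd i v x * (ψ x / φ x * W i x) := by
      rw [wd, Finset.mul_sum, Finset.mul_sum]
      exact Finset.sum_congr rfl fun i _ => by field_simp
    have b : ∑ i, (ψ x / φ x * W i x) ^ 2 ≤ L ^ 2 * ψ x ^ 2 := by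
      simp only [mul_pow]
      rw [← Finset.mul_sum]
      exact (mul_le_mul_of_nonneg_left (D.wb x) (sq_nonneg _)).trans_eq (by field_simp)
    rw [e, abs_mul, abs_of_pos p0]
    refine (mul_le_mul_of_nonneg_left ((k2_sum hγ (fun i => pd i v x)
      fun i => ψ x / φ x * W i x).trans (add_le_add le_rfl
        (mul_le_mul_of_nonneg_left b (by positivity)))) p0.le).trans_eq (by unfold gs; ring)
  have a3 : |φ x * gs v x * ψ x| ≤ φ x * gs v x := by
    rw [abs_of_nonneg (by positivity)]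
    exact mul_le_of_le_one_right (by positivity) h1
  have a4 : |θ x * φ x * (Real.exp (v x) - 1) * ψ x| ≤ 2 / γ * (θ x * φ x * v x ^ 2)
      + γ / 2 * (φ x * (L ^ 2 * ψ x ^ 2)) := by
    have b1 : |Real.exp (v x) - 1| ≤ 2 * |v x| := Real.abs_exp_sub_one_le (by linarith)
    have b2 := k2_young hγ (2 * v x) (ψ x)
    rw [abs_mul, abs_mul, abs_two, abs_of_nonneg h0] at b2
    have b3 : |Real.exp (v x) - 1| * ψ x ≤ 2 / γ * v x ^ 2 + γ / 2 * ψ x ^ 2 :=
      (mul_le_mul_of_nonneg_right b1 h0).trans (b2.trans_eq (by field_simp))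
    have b4 : θ x * (γ / 2 * (φ x * ψ x ^ 2)) ≤ L ^ 2 * (γ / 2 * (φ x * ψ x ^ 2)) :=
      mul_le_mul_of_nonneg_right (D.t1 x) (by positivity)
    rw [abs_mul, abs_mul, abs_of_pos (mul_pos t0 p0), abs_of_nonneg h0, mul_assoc]
    have := mul_le_mul_of_nonneg_left b3 (mul_pos t0 p0).le
    linarith
  have e : 1 / γ = 2 * (1 / (2 * γ)) := by field_simp
  have a5 : 0 ≤ γ / 2 * (φ x * gs ψ x) := by positivity
  rw [e]
  have := abs_le.1 a1
  have := abs_le.1 a2
  have := abs_le.1 a3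
  have := abs_le.1 a4
  refine abs_le.2 ⟨?_, ?_⟩ <;> linarith

theorem key2S : Key2S n := by
  intro L B γ θ φ h v ψ W D R h1 h2 hψ hb hγ
  have c1 := D.tc
  have c2 := D.pc.continuous
  have c3 := R.vc.continuous
  have c4 := hψ.continuous
  have c5 := gs_continuous R.vc
  have c6 := gs_continuous hψ
  have c7 : Continuous (dt v ψ) :=
    continuous_finsetSum _ fun i _ => (pd_continuous R.vc i).mul (pd_continuous hψ i)
  have c8 : Continuous (wd W v) :=
    continuous_finsetSum _ fun i _ => (D.wc i).mul (pd_continuous R.vc i)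
  rw [← R.veq ψ hψ]
  refine abs_integral_le_integral_abs.trans ((lin3 cube_meas (LB.of_cont
    ((((c2.mul c7).add (c4.mul c8)).sub ((c2.mul c5).mul c4)).add (((c1.mul c2).mul
      ((Real.continuous_exp.comp c3).sub continuous_const)).mul c4)).abs).cube
    (LB.of_cont (c2.mul c5)).cube (LB.of_cont ((c1.mul c2).mul (c3.pow 2))).cube
    (LB.of_cont (c2.mul (c6.add (continuous_const.mul (c4.pow 2))))).cube
    fun x hx => k2_pt D hγ (R.vb x hx) (hb x).1 (hb x).2).trans ?_)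
  have b1 := mul_le_mul_of_nonneg_left h1 (show 0 ≤ 1 / γ + 1 by positivity)
  have b2 := mul_le_mul_of_nonneg_left h2 (show 0 ≤ 2 / γ by positivity)
  have e : (4 / γ + 2) * B = (1 / γ + 1) * (2 * B) + 2 / γ * B := by ring
  rw [e]
  exact add_le_add (add_le_add b1 b2) le_rfl

theorem k2_lip {v : Fn n} {Λ : ℝ} (hΛ : 0 ≤ Λ) (hv : ContDiff ℝ 1 v) (h : ∀ x i, |pd i v x| ≤ Λ)
    (x y : Fin n → ℝ) : |v y - v x| ≤ n * Λ * ‖y - x‖ := by
  refine convex_univ.norm_image_sub_le_of_norm_fderiv_le (𝕜 := ℝ) (fun z _ => cd_diff hv z)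
    (fun z _ => ?_) (mem_univ x) (mem_univ y)
  refine ContinuousLinearMap.opNorm_le_bound _ (by positivity) fun w => ?_
  rw [fderiv_eq_sum, Real.norm_eq_abs]
  refine (Finset.abs_sum_le_sum_abs _ _).trans ((Finset.sum_le_sum (g := fun _ => ‖w‖ * Λ)
    fun i _ => ?_).trans_eq (by simp; ring))
  rw [abs_mul]
  exact mul_le_mul (norm_le_pi_norm w i) (h z i) (abs_nonneg _) (norm_nonneg _)

theorem k2_low {d s : ℝ} (hd : 0 < d) (hs : d ≤ |s|) :
    (1 - Real.exp (-d)) ^ 2 ≤ (Real.exp s - 1) ^ 2 := by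
  have h1 : Real.exp (-d) ≤ 1 := Real.exp_le_one_iff.2 (by linarith)
  rw [sq_le_sq, abs_of_nonneg (by linarith)]
  rcases le_abs.1 hs with h | h
  · have := Real.add_one_le_exp s
    have := Real.add_one_le_exp (-d)
    exact le_abs.2 (Or.inl (by linarith))
  · have : Real.exp s ≤ Real.exp (-d) := Real.exp_le_exp.2 (by linarith)
    exact le_abs.2 (Or.inr (by linarith))

theorem smallS : SmallS n := by
  intro Λ δ hΛ hδ
  set r := min 1 (δ / (2 * (n + 1) * Λ)) with hr
  have r0 : 0 < r := lt_min one_pos (by positivity)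
  have r1 : r ≤ 1 := min_le_left _ _
  have r2 : r * (2 * (n + 1) * Λ) ≤ δ := (le_div_iff₀ (by positivity)).1 (min_le_right _ _)
  have m0 : 0 < (1 - Real.exp (-(δ / 2))) ^ 2 :=
    pow_pos (sub_pos.2 (Real.exp_lt_one_iff.2 (by linarith))) 2
  refine ⟨(1 - Real.exp (-(δ / 2))) ^ 2 * r ^ n / 2, by positivity, fun v hv hp hi x hx => ?_⟩
  by_contra hc
  set a : Fin n → ℝ := fun i => min (x i) (1 - r) with ha
  have sub : Icc a (fun i => a i + r) ⊆ cube n := fun y hy =>
    ⟨fun i => (le_min (hx.1 i) (by simpa using r1)).trans (hy.1 i),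
      fun i => (hy.2 i).trans (by
        have := min_le_right (x i) (1 - r)
        simp only [ha, Pi.one_apply]
        linarith)⟩
  have low : ∀ y ∈ Icc a (fun i => a i + r),
      (1 - Real.exp (-(δ / 2))) ^ 2 ≤ (Real.exp (v y) - 1) ^ 2 := fun y hy => by
    refine k2_low (by positivity) ?_
    have d : ‖y - x‖ ≤ r := (pi_norm_le_iff_of_nonneg r0.le).2 fun i => by
      have b1 : min (x i) (1 - r) ≤ y i := hy.1 i
      have b2 : y i ≤ min (x i) (1 - r) + r := hy.2 i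
      have b3 : x i ≤ 1 := hx.2 i
      have b4 := min_le_left (x i) (1 - r)
      rw [Pi.sub_apply, Real.norm_eq_abs, abs_le]
      rcases min_le_iff.1 b1 with b | b <;> constructor <;> linarith
    have b1 := (k2_lip hΛ.le hv hp x y).trans (mul_le_mul_of_nonneg_left d (by positivity))
    have b2 := abs_sub_abs_le_abs_sub (v x) (v y)
    rw [abs_sub_comm] at b2
    have := not_le.1 hc
    nlinarith [mul_pos r0 hΛ]
  have c : Continuous fun y => (Real.exp (v y) - 1) ^ 2 :=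
    ((Real.continuous_exp.comp hv.continuous).sub continuous_const).pow 2
  have i1 := setIntegral_mono_on ((LB.const _).intOn cube_compact sub)
    ((LB.of_cont c).intOn cube_compact sub) measurableSet_Icc low
  have i2 := setIntegral_mono_set (LB.of_cont c).cube
    (Eventually.of_forall fun y => sq_nonneg _) sub.eventuallyLE
  have i3 : (volume : Measure (Fin n → ℝ)).real (Icc a fun i => a i + r) = r ^ n := by
    simp [Measure.real, Real.volume_Icc_pi, r0.le]
  rw [setIntegral_const, i3, smul_eq_mul] at i1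
  have := mul_pos m0 (pow_pos r0 n)
  linarith

end Pool.Agent.MP_478eab_an.P
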