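import Pool.Agent.MP_478eab_an.P.Spec

/-! Local perimeter bound. -/

namespace Pool.Agent.MP_478eab_an.P

open MeasureTheory Set Filter Topology Metric Pool.Agent.MP_478eab_an.V

variable {n : ℕ}

theorem lo_lim {a b K : ℝ} (h : ∃ᶠ t in 𝓝[>] (0 : ℝ), a ≤ b + K * t) : a ≤ b := by
  by_contra hc
  have h1 : Tendsto (fun t : ℝ => b + K * t) (𝓝[>] 0) (𝓝 b) := by
    have : Continuous fun t : ℝ => b + K * t := by fun_prop
    simpa using (this.tendsto 0).mono_left nhdsWithin_le_nhds
  obtain ⟨t, h2, h3⟩ := (h.and_eventually (h1.eventually (gt_mem_nhds (not_le.1 hc)))).exists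
  exact absurd h2 (not_le.2 h3)

theorem lo_Qm (x₀ : Fin n → ℝ) (l : ℝ) : MeasurableSet (Q x₀ l) :=
  measurableSet_closedBall.inter cube_meas

theorem lo_dv_cont {X : Fin n → Fn n} (h : ∀ i, ContDiff ℝ 1 (X i)) : Continuous (dv X) :=
  continuous_finsetSum _ fun i _ => pd_continuous (h i) i

theorem lo_dv_zero {X : Fin n → Fn n} {x₀ x : Fin n → ℝ} {l : ℝ}
    (h : ∀ x, x ∉ closedBall x₀ l → ∀ i, X i x = 0) (hx : x ∉ closedBall x₀ l) : dv X x = 0 := by
  refine Finset.sum_eq_zero fun i _ => ?_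
  have : X i =ᶠ[𝓝 x] fun _ => 0 := by
    filter_upwards [isClosed_closedBall.isOpen_compl.mem_nhds hx] with y hy using h y hy i
  rw [pd, this.fderiv_eq]
  simp

theorem lo_cs {φ : Fn n} {X : Fin n → Fn n} {x : Fin n → ℝ} {Λ : ℝ} (hΛ : 0 ≤ Λ)
    (h : gs φ x ≤ Λ ^ 2) (hX : ∑ i, X i x ^ 2 ≤ 1) : |∑ i, pd i φ x * X i x| ≤ Λ := by
  refine abs_le_of_sq_le_sq ((Finset.sum_mul_sq_le_sq_mul_sq _ _ _).trans ?_) hΛ
  exact (mul_le_mul h hX (Finset.sum_nonneg fun _ _ => sq_nonneg _) (sq_nonneg _)).trans_eq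
    (mul_one _)

theorem lo_step (D : DivS n) {κ l c Λ t K : ℝ} {M φ : Fn n} {x₀ : Fin n → ℝ} (hM : Measurable M)
    (hb : ∀ x, 0 ≤ M x ∧ M x ≤ κ) (hφ : ContDiff ℝ 1 φ) (hΛ : 0 ≤ Λ)
    (hg : ∀ x ∈ Q x₀ l, gs φ x ≤ Λ ^ 2)
    (hae : ∀ᵐ x ∂volume.restrict (Q x₀ l), c < φ x → M x = κ) {X : Fin n → Fn n} (hX : Fld X)
    (hz : ∀ x, x ∉ closedBall x₀ l → ∀ i, X i x = 0) (ht : 0 < t) (hK0 : 0 ≤ K)
    (hK : ∀ x ∈ cube n, |dv X x| ≤ K) :
    ∫ x in cube n, M x * dv X x ≤ (2 * Λ / t + K) * ∫ x in Q x₀ l ∩ {x | φ x < c + t}, M x := by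
  obtain ⟨g, g', g1, g2, g3, g4, g5, g6, g7, g8⟩ := exists_step
  have hML : LB M := LB.of_bound hM (C := κ) fun x => by rw [abs_of_nonneg (hb x).1]; exact (hb x).2
  have hS : MeasurableSet (Q x₀ l ∩ {x | φ x < c + t}) :=
    (lo_Qm x₀ l).inter (measurableSet_lt hφ.continuous.measurable measurable_const)
  have hH : ContDiff ℝ 1 fun y => g ((φ y - c) / t) :=
    (cd_of_hasDeriv g1 g2).comp ((hφ.sub contDiff_const).div_const t)
  have hP : ∀ i, ContDiff ℝ 1 fun y => g ((φ y - c) / t) * X i y := fun i => hH.mul (hX.cd i)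
  have hF : ∀ x, dv (fun i y => g ((φ y - c) / t) * X i y) x =
      g' ((φ x - c) / t) / t * (∑ i, pd i φ x * X i x) + g ((φ x - c) / t) * dv X x := fun x => by
    have d : HasDerivAt (fun s => g ((s - c) / t)) (g' ((φ x - c) / t) / t) (φ x) := by
      have := (g1 ((φ x - c) / t)).comp (φ x) (((hasDerivAt_id (φ x)).sub_const c).div_const t)
      rwa [mul_one_div] at this
    simp only [dv, Finset.mul_sum, ← Finset.sum_add_distrib]
    refine Finset.sum_congr rfl fun i _ => ?_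
    rw [pd_mul (cd_diff hH x) (cd_diff (hX.cd i) x), pd_comp d (cd_diff hφ x), mul_assoc]
  have h0 : ∫ x in cube n, dv (fun i y => g ((φ y - c) / t) * X i y) x = 0 := by
    unfold dv
    rw [integral_finsetSum _ fun i _ => (LB.of_cont (pd_continuous (hP i) i)).cube]
    exact Finset.sum_eq_zero fun i _ => D _ i (hP i) fun x hx => by rw [hX.z x hx i, mul_zero]
  have i1 := (LB.of_cont (lo_dv_cont hP)).cube
  have i2 : IntegrableOn ((Q x₀ l ∩ {x | φ x < c + t}).indicator M) (cube n) :=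
    hML.cube.indicator hS
  have hc : 0 ≤ 2 * Λ / t := by positivity
  calc ∫ x in cube n, M x * dv X x
      ≤ ∫ x in cube n, (κ * dv (fun i y => g ((φ y - c) / t) * X i y) x +
          (2 * Λ / t + K) * (Q x₀ l ∩ {x | φ x < c + t}).indicator M x) := by
        refine integral_mono_ae (hML.mul (LB.of_cont (lo_dv_cont hX.cd))).cube
          ((i1.const_mul _).add (i2.const_mul _)) ?_
        filter_upwards [ae_restrict_of_ae ((ae_restrict_iff' (lo_Qm x₀ l)).1 hae),
          ae_restrict_mem cube_meas] with x hx hxc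
        have hi : 0 ≤ (2 * Λ / t + K) * (Q x₀ l ∩ {x | φ x < c + t}).indicator M x :=
          mul_nonneg (by linarith) (indicator_nonneg (fun y _ => (hb y).1) x)
        rw [hF]
        by_cases hB : x ∈ closedBall x₀ l
        swap
        · rw [lo_dv_zero hz hB, Finset.sum_eq_zero fun i _ => by rw [hz x hB i, mul_zero]]
          linarith
        have hQ : x ∈ Q x₀ l := ⟨hB, hxc⟩
        obtain ⟨k1, k2⟩ := abs_le.1 (hK x hxc)
        rcases le_or_gt (φ x) c with h1 | h1
        · have : (φ x - c) / t ≤ 0 := div_nonpos_of_nonpos_of_nonneg (by linarith) ht.le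
          rw [g4 _ this, g7 _ this, indicator_of_mem (show x ∈ Q x₀ l ∩ {x | φ x < c + t} from
            ⟨hQ, show φ x < c + t by linarith⟩), zero_div, zero_mul, zero_mul]
          linarith [mul_le_mul_of_nonneg_left k2 (hb x).1, mul_nonneg hc (hb x).1]
        have hm := hx hQ h1
        rcases le_or_gt (c + t) (φ x) with h2 | h2
        · have : 1 ≤ (φ x - c) / t := by rw [le_div_iff₀ ht]; linarith
          rw [g5 _ this, g8 _ this, hm, zero_div, zero_mul]
          linarith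
        rw [indicator_of_mem (show x ∈ Q x₀ l ∩ {x | φ x < c + t} from ⟨hQ, h2⟩), hm]
        have hκ : 0 ≤ κ := (hb x).1.trans (hb x).2
        have a1 : |g' ((φ x - c) / t)| ≤ 2 :=
          abs_le_of_sq_le_sq ((g6 _).trans (by norm_num)) two_pos.le
        have a2 : |g' ((φ x - c) / t) / t * ∑ i, pd i φ x * X i x| ≤ 2 * Λ / t := by
          rw [abs_mul, abs_div, abs_of_pos ht, div_mul_eq_mul_div]
          exact div_le_div_of_nonneg_right
            (mul_le_mul a1 (lo_cs hΛ (hg x hQ) (hX.le x)) (abs_nonneg _) two_pos.le) ht.le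
        obtain ⟨b1, b2⟩ := g3 ((φ x - c) / t)
        have a3 : (1 - g ((φ x - c) / t)) * dv X x ≤ K := by nlinarith
        have a4 := mul_le_mul_of_nonneg_left a3 hκ
        have a5 := mul_le_mul_of_nonneg_left (abs_le.1 a2).1 hκ
        linarith
    _ = _ := by
        rw [integral_add (i1.const_mul _) (i2.const_mul _), integral_const_mul, integral_const_mul,
          h0, mul_zero, zero_add, setIntegral_indicator hS,
          inter_eq_right.2 (show Q x₀ l ∩ {x | φ x < c + t} ⊆ cube n from fun _ hx => hx.1.2)]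

theorem locS (D : DivS n) : LocS n := by
  intro κ l c B Λ M φ x₀ hM hb hφ hΛ hB hg hae hfr
  have hML : LB M := LB.of_bound hM (C := κ) fun x => by rw [abs_of_nonneg (hb x).1]; exact (hb x).2
  have hfr' := hfr.and_eventually (self_mem_nhdsWithin (a := (0 : ℝ)) (s := Ioi 0))
  refine ⟨?_, fun X hX hz => ?_⟩
  · have hZ : MeasurableSet (Q x₀ l ∩ {x | φ x ≤ c}) :=
      (lo_Qm x₀ l).inter (measurableSet_le hφ.continuous.measurable measurable_const)
    have h1 : ∫ x in Q x₀ l ∩ {x | φ x ≤ c}, M x ≤ 0 := lo_lim (K := B) (hfr'.mono fun t ht => by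
      rw [zero_add]
      refine le_trans (setIntegral_mono_set (hML.intOn cube_compact
        (inter_subset_left.trans inter_subset_right)) (.of_forall fun x => (hb x).1)
        (LE.le.eventuallyLE fun x hx => ⟨hx.1, ?_⟩)) ht.1
      exact (show φ x ≤ c from hx.2).trans_lt (lt_add_of_pos_right c ht.2))
    have h2 := (setIntegral_eq_zero_iff_of_nonneg_ae (.of_forall fun x => (hb x).1)
      (hML.intOn cube_compact (inter_subset_left.trans inter_subset_right))).1
      (le_antisymm h1 (integral_nonneg fun x => (hb x).1))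
    filter_upwards [hae, ae_restrict_of_ae ((ae_restrict_iff' hZ).1 h2),
      ae_restrict_mem (lo_Qm x₀ l)] with x k1 k2 k3
    rcases le_or_gt (φ x) c with h | h
    · exact Or.inl (k2 ⟨k3, h⟩)
    · exact Or.inr (k1 h)
  obtain ⟨K, hK⟩ := (LB.of_cont (lo_dv_cont hX.cd)).2 _ cube_compact
  refine lo_lim (K := |K| * B) (hfr'.mono fun t ht => ?_)
  have h0 : 0 < t := ht.2
  refine (lo_step D hM hb hφ hΛ hg hae hX hz h0 (abs_nonneg K)
    fun x hx => (hK x hx).trans (le_abs_self K)).trans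
    ((mul_le_mul_of_nonneg_left ht.1 (by positivity)).trans_eq ?_)
  field_simp

end Pool.Agent.MP_478eab_an.P
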