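import Pool.Agent.MP_478eab_an.P.Spec

/-! The theorem for `μ = 1` from the local steps. -/

namespace Pool.Agent.MP_478eab_an.P

open MeasureTheory Set Filter Topology Metric Pool.Agent.MP_478eab_an.V

variable {n : ℕ}

theorem ma_pd_neg (f : Fn n) (i : Fin n) (x : Fin n → ℝ) :
    pd i (fun y => -f y) x = -pd i f x := by
  unfold pd
  rw [fderiv_fun_neg]
  rfl

theorem ma_fld_neg {X : Fin n → Fn n} (h : Fld X) : Fld fun i y => -X i y :=
  ⟨fun i => (h.cd i).neg, fun x => by simpa using h.le x, fun x hx i => by rw [h.z x hx i, neg_zero]⟩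

theorem ma_dv_cont {X : Fin n → Fn n} (h : Fld X) : Continuous (dv X) :=
  continuous_finsetSum _ fun i _ => pd_continuous (h.cd i) i

theorem ma_dv_zero (D : DivS n) {X : Fin n → Fn n} (h : Fld X) : ∫ x in cube n, dv X x = 0 := by
  unfold dv
  rw [integral_finsetSum _ fun i _ => (LB.of_cont (pd_continuous (h.cd i) i)).cube]
  exact Finset.sum_eq_zero fun i _ => D _ i (h.cd i) fun x hx => h.z x hx i

/-- The local bound from either side of the strip estimate. -/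
theorem ma_loc (L : LocS n) (D : DivS n) {κ l c B Λ : ℝ} {M φ : Fn n} {x₀ : Fin n → ℝ}
    (hM : Measurable M) (hb : ∀ x, 0 ≤ M x ∧ M x ≤ κ) (hφ : ContDiff ℝ 1 φ) (hΛ : 0 ≤ Λ)
    (hB : 0 ≤ B) (hg : ∀ x ∈ Q x₀ l, gs φ x ≤ Λ ^ 2)
    (h1 : ∀ᵐ x ∂volume.restrict (Q x₀ l), φ x < c → M x = 0)
    (h2 : ∀ᵐ x ∂volume.restrict (Q x₀ l), c < φ x → M x = κ)
    (h3 : ∀ᶠ t in 𝓝[>] (0 : ℝ), ∫ x in Q x₀ l ∩ {x | φ x < c + t}, M x ≤ B * t ∨
      ∫ x in Q x₀ l ∩ {x | c - t < φ x}, (κ - M x) ≤ B * t) :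
    (∀ᵐ x ∂volume.restrict (Q x₀ l), M x = 0 ∨ M x = κ) ∧
      ∀ X : Fin n → Fn n, Fld X → (∀ x, x ∉ closedBall x₀ l → ∀ i, X i x = 0) →
        ∫ x in cube n, M x * dv X x ≤ 2 * Λ * B := by
  rcases frequently_or_distrib.1 h3.frequently with h | h
  · exact L κ l c B Λ M φ x₀ hM hb hφ hΛ hB hg h2 h
  · have hs : ∀ t : ℝ, {x | -φ x < -c + t} = {x | c - t < φ x} := fun t => by
      ext x
      simp only [mem_ofPred_eq]
      constructor <;> intro k <;> linarith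
    obtain ⟨a, b⟩ := L κ l (-c) B Λ (fun x => κ - M x) (fun x => -φ x) x₀
      (measurable_const.sub hM) (fun x => ⟨by linarith [(hb x).2], by linarith [(hb x).1]⟩)
      hφ.neg hΛ hB (fun x hx => by simpa only [gs, ma_pd_neg, neg_sq] using hg x hx)
      (h1.mono fun x hx k => by rw [hx (by linarith), sub_zero]) (by simpa only [hs] using h)
    refine ⟨a.mono fun x hx => hx.symm.imp (fun k => by linarith) fun k => by linarith,
      fun X hX hz => ?_⟩
    have h4 := b _ (ma_fld_neg hX) fun x hx i => by rw [hz x hx i, neg_zero]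
    have hMb : LB M := LB.of_bound hM (C := κ) fun x => abs_le.2
      ⟨by linarith [(hb x).1, (hb x).2], (hb x).2⟩
    have hd : LB (dv X) := LB.of_cont (ma_dv_cont hX)
    have h5 : ∫ x in cube n, (κ - M x) * dv (fun i y => -X i y) x =
        1 * (∫ x in cube n, M x * dv X x) + (-κ) * ∫ x in cube n, dv X x :=
      eq2 (hMb.mul hd).cube hd.cube fun x => by
        simp only [dv, ma_pd_neg, Finset.sum_neg_distrib]
        ring
    rw [h5, ma_dv_zero D hX] at h4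
    linarith

theorem ma_min {k : ℝ} (hk : 0 ≤ k) : (1 + k) ^ 2 * min k (k ^ 2) ≤ 2 * (k ^ 2 * (1 + k)) := by
  rcases le_total k 1 with h | h
  · calc (1 + k) ^ 2 * min k (k ^ 2) ≤ (1 + k) ^ 2 * k ^ 2 :=
          mul_le_mul_of_nonneg_left (min_le_right _ _) (sq_nonneg _)
      _ ≤ 2 * (k ^ 2 * (1 + k)) := by
          nlinarith [mul_nonneg (mul_nonneg (sq_nonneg k) (by linarith : 0 ≤ 1 + k))
            (by linarith : 0 ≤ 1 - k)]
  · calc (1 + k) ^ 2 * min k (k ^ 2) ≤ (1 + k) ^ 2 * k :=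
          mul_le_mul_of_nonneg_left (min_le_left _ _) (sq_nonneg _)
      _ ≤ 2 * (k ^ 2 * (1 + k)) := by
          nlinarith [mul_nonneg (mul_nonneg hk (by linarith : 0 ≤ 1 + k))
            (by linarith : 0 ≤ k - 1)]

theorem mainS (N : NormS n) (C : CovS n) (P : PdeS n) (S : StripS n) (L : LocS n) (D : DivS n)
    (G : GlueS n) (hn : 2 ≤ n) : MainS n := by
  obtain ⟨ε, Cp, hε, hε1, hCp, P⟩ := P
  obtain ⟨Cs, hCs, S⟩ := S
  obtain ⟨m, rfl⟩ : ∃ m, n = m + 2 := ⟨n - 2, by omega⟩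
  refine ⟨16 * 3 ^ (m + 2) * 2 ^ m * Cp ^ 2 * Cs / ε ^ 2, by positivity,
    fun κ M θ hκ hM h0 hθ hp hx => ?_⟩
  obtain ⟨θ', hs, hb, he⟩ := N κ M θ hκ hM hθ hp
  have hx' : Mx κ M θ' := fun M' θ'' a b c d =>
    (hx M' θ'' a b c d).trans_eq (setIntegral_congr_fun cube_meas he).symm
  obtain ⟨φ, hφ, hφ0, hl⟩ := P κ M θ' hκ hM h0 hs hb hx'
  have hk : 0 < √κ := Real.sqrt_pos.2 hκ
  obtain ⟨l, hl0, hle⟩ : ∃ l : ℝ, 0 < l ∧ (1 + √κ) * (2 * l) = ε :=
    ⟨ε / (2 * (1 + √κ)), by positivity, by field_simp⟩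
  have hl1 : l ≤ 1 := by nlinarith [mul_pos hk hl0]
  obtain ⟨T, hT, hTc, hcov⟩ := C.2 l hl0 hl1
  have hmin : 0 < min √κ κ := lt_min hk hκ
  have key : ∀ y ∈ T, (∀ᵐ x ∂volume.restrict (Q y (2 * l)), M x = 0 ∨ M x = κ) ∧
      ∀ X : Fin (m + 2) → Fn (m + 2), Fld X → (∀ x, x ∉ closedBall y (2 * l) → ∀ i, X i x = 0) →
        ∫ x in cube (m + 2), M x * dv X x ≤ 2 * Cp ^ 2 * Cs * min √κ κ * (2 * l) ^ m := by
    intro y hy
    obtain ⟨a, b, η, hη, c⟩ := hl y (hTc y hy) (2 * l) (by positivity) hle.le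
    have hy0 := hφ0 y
    rw [Nat.add_sub_cancel] at c
    obtain ⟨c', d, e, f⟩ := S κ (2 * l) η _ (φ y) M φ y hM.meas hM.bd hφ.continuous
      (by positivity) hη (by positivity) hy0 a c
    have h := ma_loc L D hM.meas hM.bd hφ (by positivity) (by positivity) b d e f
    have h' : 2 * (Cp * min √κ κ * φ y) * (Cs * (Cp * φ y * (2 * l) ^ m) / φ y ^ 2) =
        2 * Cp ^ 2 * Cs * min √κ κ * (2 * l) ^ m := by
      field_simp
    rwa [h'] at h
  have hMb : LB M := LB.of_bound hM.meas (C := κ) fun x => abs_le.2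
    ⟨by linarith [(hM.bd x).1, (hM.bd x).2], (hM.bd x).2⟩
  constructor
  · refine ae_restrict_of_ae_restrict_of_subset (t := ⋃ y ∈ T, Q y (2 * l)) (fun z hz => ?_)
      ((ae_restrict_biUnion_finset_iff _ _ _).2 fun y hy => (key y hy).1)
    obtain ⟨y, hy, k⟩ := hcov z hz
    exact mem_biUnion hy ⟨closedBall_subset_closedBall (by linarith) k, hz⟩
  · intro X hX
    refine (G M T l _ hMb hl0 (by positivity) hcov (fun y hy => (key y hy).2) X hX).trans ?_
    refine (mul_le_mul_of_nonneg_right hT (by positivity)).trans ?_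
    have h1 := ma_min hk.le
    rw [Real.sq_sqrt hκ.le] at h1
    have h2 : (3 / l) ^ (m + 2) * (2 * Cp ^ 2 * Cs * min √κ κ * (2 * l) ^ m) =
        8 * 3 ^ (m + 2) * 2 ^ m * Cp ^ 2 * Cs / ε ^ 2 * ((1 + √κ) ^ 2 * min √κ κ) := by
      rw [← hle, div_pow, mul_pow, pow_add l]
      field_simp
      ring
    rw [h2]
    refine (mul_le_mul_of_nonneg_left h1 (by positivity)).trans_eq ?_
    ring

end Pool.Agent.MP_478eab_an.P
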