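import Mathlib
import Pool.Agent.MP_478eab_an.P.Spec
import Pool.Agent.MP_478eab_an.FR.Main

/-! Dimension one, from the count of intervals. -/

namespace Pool.Agent.MP_478eab_an.P

open MeasureTheory Set Filter Topology Metric Pool.Agent.MP_478eab_an.V
open Pool.Agent.MP_478eab_an.FR (Ac Raw Cmp z0 z1)

theorem on_mp : MeasurePreserving (fun x : Fin 1 → ℝ => x 0) (volume.restrict (cube 1))
    (volume.restrict (Icc 0 1)) := by
  have h := (volume_preserving_funUnique (Fin 1) ℝ).restrict_preimage (s := Icc (0 : ℝ) 1)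
    measurableSet_Icc
  have e : (MeasurableEquiv.funUnique (Fin 1) ℝ) ⁻¹' Icc (0 : ℝ) 1 = cube 1 := by
    ext x
    simp [cube, Pi.le_def, Fin.forall_fin_one]
  rw [e] at h
  exact h

theorem on_eta (x : Fin 1 → ℝ) : (fun _ => x 0) = x := funext fun i => by rw [Subsingleton.elim i 0]

theorem on_int (f : (Fin 1 → ℝ) → ℝ) :
    ∫ x in cube 1, f x = ∫ t in (0 : ℝ)..1, f fun _ => t := by
  rw [intervalIntegral.integral_of_le zero_le_one, ← integral_Icc_eq_integral_Ioc,
    ← on_mp.integral_comp (MeasurableEquiv.funUnique (Fin 1) ℝ).measurableEmbedding]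
  simp only [on_eta]

theorem on_der {f : (Fin 1 → ℝ) → ℝ} (hf : ContDiff ℝ 1 f) (t : ℝ) :
    HasDerivAt (fun s : ℝ => f fun _ => s) (pd 0 f fun _ => t) t := by
  have u : ∀ s : ℝ, Function.update (0 : Fin 1 → ℝ) 0 s = fun _ => s := fun s =>
    funext fun i => by rw [Subsingleton.elim i 0, Function.update_self]
  have := hasDerivAt_update_pd (f := f) (x := 0) (i := 0) (t := t) (cd_diff hf _)
  simpa only [u] using this

theorem on_lift {g g' : ℝ → ℝ} (h : ∀ t, HasDerivAt g (g' t) t) (hc : Continuous g') :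
    ContDiff ℝ 1 (fun x : Fin 1 → ℝ => g (x 0)) ∧
      ∀ t, pd 0 (fun x : Fin 1 → ℝ => g (x 0)) (fun _ => t) = g' t := by
  have c : ContDiff ℝ 1 fun x : Fin 1 → ℝ => g (x 0) :=
    (cd_of_hasDeriv h hc).comp (contDiff_apply ℝ ℝ 0)
  exact ⟨c, fun t => (on_der c t).unique (h t)⟩

theorem on_mem {t : ℝ} (ht : t ∈ Icc (0 : ℝ) 1) : (fun _ => t) ∈ cube 1 :=
  ⟨fun _ => ht.1, fun _ => ht.2⟩

theorem on_ac {f : (Fin 1 → ℝ) → ℝ} (hf : ContDiff ℝ 1 f) :
    Ac (fun s : ℝ => f fun _ => s) fun t => pd 0 f fun _ => t :=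
  Ac.of_deriv (fun t _ => (on_der hf t).hasDerivWithinAt)
    ((pd_continuous hf 0).comp (by fun_prop)).continuousOn

theorem on_raw {κ : ℝ} {M θ : (Fin 1 → ℝ) → ℝ} (hκ : 0 < κ) (R : Rc κ M)
    (h : WS θ fun x => θ x * (M x - θ x)) (p : ∀ x ∈ cube 1, 0 < θ x) :
    Raw √κ (fun t => M fun _ => t) (fun t => θ fun _ => t) fun t => pd 0 θ fun _ => t := by
  have me : Measurable fun t : ℝ => M fun _ => t := R.meas.comp (by fun_prop)
  have tc : Continuous fun t : ℝ => θ fun _ => t := h.1.continuous.comp (by fun_prop)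
  have τc : Continuous fun t : ℝ => pd 0 θ fun _ => t := (pd_continuous h.1 0).comp (by fun_prop)
  obtain ⟨g, hg⟩ : ∃ g : ℝ → ℝ, g = fun t => (θ fun _ => t) * ((θ fun _ => t) - M fun _ => t) :=
    ⟨_, rfl⟩
  have gi : ∀ a b, IntervalIntegrable g volume a b := fun a b => by
    rw [hg]
    exact ((tc.intervalIntegrable a b).sub (FR.bi me (C := κ) (fun t => by
      rw [abs_of_nonneg (R.bd _).1]; exact (R.bd _).2) a b)).continuousOn_mul tc.continuousOn
  have Gc := intervalIntegral.continuous_primitive gi 0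
  have A := Ac.prim (gi 0 1)
  have we : ∀ Ψ δ : ℝ → ℝ, (∀ t, HasDerivAt Ψ (δ t) t) → Continuous δ →
      ∫ t in (0 : ℝ)..1, (pd 0 θ fun _ => t) * δ t = -∫ t in (0 : ℝ)..1, g t * Ψ t :=
    fun Ψ δ h1 h2 => by
      obtain ⟨c, d⟩ := on_lift h1 h2
      have := h.2 _ c
      rw [on_int, on_int] at this
      simp only [dt, Fin.sum_univ_one, d] at this
      rw [this, ← intervalIntegral.integral_neg, hg]
      exact intervalIntegral.integral_congr fun t _ => by ring
  have G1 : ∫ s in (0 : ℝ)..1, g s = 0 := by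
    simpa using we (fun _ => 1) (fun _ => 0) (fun t => hasDerivAt_const t 1) continuous_const
  obtain ⟨δ, hδ⟩ : ∃ δ : ℝ → ℝ, δ = fun t => (pd 0 θ fun _ => t) - ∫ s in (0 : ℝ)..t, g s :=
    ⟨_, rfl⟩
  have δc : Continuous δ := by rw [hδ]; exact τc.sub Gc
  have hΨ : ∀ t, HasDerivAt (fun t => ∫ s in (0 : ℝ)..t, δ s) (δ t) t := fun t =>
    (δc.integral_hasStrictDerivAt 0 t).hasDerivAt
  have B : Ac (fun t => ∫ s in (0 : ℝ)..t, δ s) δ := Ac.prim (δc.intervalIntegrable 0 1)
  have f1 := (A.mul B).ftc z0 z1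
  have Ψc : Continuous fun t => ∫ s in (0 : ℝ)..t, δ s :=
    continuous_iff_continuousAt.2 fun t => (hΨ t).continuousAt
  have i1 : IntervalIntegrable (fun t => (∫ s in (0 : ℝ)..t, g s) * δ t) volume 0 1 :=
    (Gc.mul δc).intervalIntegrable 0 1
  have i2 : IntervalIntegrable (fun t => (pd 0 θ fun _ => t) * δ t) volume 0 1 :=
    (τc.mul δc).intervalIntegrable 0 1
  rw [intervalIntegral.integral_add ((gi 0 1).mul_continuousOn Ψc.continuousOn) i1, G1] at f1
  have f2 := we _ _ hΨ δc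
  have f3 : ∫ t in (0 : ℝ)..1, δ t ^ 2 = 0 := by
    have : ∀ t, δ t ^ 2 = (pd 0 θ fun _ => t) * δ t - (∫ s in (0 : ℝ)..t, g s) * δ t := fun t => by
      rw [← sub_mul, pow_two]; congr 1; rw [hδ]
    simp only [this]
    rw [intervalIntegral.integral_sub i2 i1]
    simp only [intervalIntegral.integral_same, zero_mul, sub_zero] at f1
    linarith
  have f4 : ∀ t ∈ Icc (0 : ℝ) 1, δ t = 0 := fun t ht => by
    by_contra hne
    have := intervalIntegral.integral_pos zero_lt_one (f := fun t => δ t ^ 2)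
      (δc.pow 2).continuousOn (fun _ _ => sq_nonneg _) ⟨t, ht, by positivity⟩
    linarith
  have f5 : ∀ t ∈ Icc (0 : ℝ) 1, (∫ s in (0 : ℝ)..t, g s) = pd 0 θ fun _ => t := fun t ht => by
    have := f4 t ht
    rw [hδ] at this
    exact (sub_eq_zero.1 this).symm
  refine ⟨Real.sqrt_pos.2 hκ, me, fun t => (R.bd _).1, fun t => ?_,
    fun t ht => p _ (on_mem (Ioo_subset_Icc_self ht)), on_ac h.1, hg ▸ A.congr_fun f5, ?_, ?_⟩
  · rw [Real.sq_sqrt hκ.le]; exact (R.bd _).2
  · rw [← f5 0 z0, intervalIntegral.integral_same]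
  · rw [← f5 1 z1, G1]

theorem on_cmp (F : FoldS 1) {κ : ℝ} {M θ : (Fin 1 → ℝ) → ℝ} (hκ : 0 < κ) (h : Mx κ M θ) :
    Cmp √κ (fun t => M fun _ => t) fun t => θ fun _ => t := by
  intro m u τ R hm
  have S := R.sol
  obtain ⟨σ, hσ⟩ : ∃ σ : ℝ → ℝ, σ = fun t => τ t * (u t)⁻¹ := ⟨_, rfl⟩
  rw [← hσ] at S
  obtain ⟨s, hs⟩ : ∃ s : ℝ → ℝ, s = fun t => σ (projIcc 0 1 zero_le_one t) := ⟨_, rfl⟩
  have sc : Continuous s := by
    rw [hs]; exact (continuousOn_iff_continuous_domRestrict.1 S.d2.cont).comp continuous_projIcc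
  have se : ∀ t ∈ Icc (0 : ℝ) 1, s t = σ t := fun t ht => by rw [hs]; simp [projIcc_of_mem _ ht]
  have hl : ∀ t, HasDerivAt (fun t => ∫ r in (0 : ℝ)..t, s r) (s t) t := fun t =>
    (sc.integral_hasStrictDerivAt 0 t).hasDerivAt
  have lc : Continuous fun t => ∫ r in (0 : ℝ)..t, s r :=
    continuous_iff_continuousAt.2 fun t => (hl t).continuousAt
  have hU : ∀ t, HasDerivAt (fun t => u 0 * Real.exp (∫ r in (0 : ℝ)..t, s r))
      (u 0 * (Real.exp (∫ r in (0 : ℝ)..t, s r) * s t)) t := fun t => (hl t).exp.const_mul _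
  obtain ⟨c, d⟩ := on_lift hU (by fun_prop)
  have ue : ∀ t ∈ Icc (0 : ℝ) 1, u 0 * Real.exp (∫ r in (0 : ℝ)..t, s r) = u t := fun t ht => by
    have a := (S.d1.mul (Ac.prim (sc.intervalIntegrable 0 1)).neg.exp).congr (g₁ := fun _ => 0)
      fun x hx => by rw [se x hx]; ring
    have b := a.ftc z0 ht
    simp only [intervalIntegral.integral_zero, intervalIntegral.integral_same, neg_zero,
      Real.exp_zero, mul_one, Real.exp_neg] at b
    have := Real.exp_pos (∫ r in (0 : ℝ)..t, s r)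
    field_simp at b
    linarith
  have fe : ∀ t ∈ Icc (0 : ℝ) 1, fold (fun _ : Fin 1 => t) 0 = t := fun t ht => by
    rw [F.2.1 _ (on_mem ht)]
  have ui := FR.uI
  have := h (fun x => m (fold x 0)) (fun x => u 0 * Real.exp (∫ r in (0 : ℝ)..x 0, s r))
    ⟨R.meas.comp ((measurable_pi_apply 0).comp F.2.2.1.measurable), F.2.2.2.1 fun x => m (x 0),
      fun x => ⟨R.m0 _, (R.m1 _).trans_eq (Real.sq_sqrt hκ.le)⟩⟩
    (by
      rw [on_int, on_int, ← hm]
      exact intervalIntegral.integral_congr fun t ht => by simp only [fe t (ui ▸ ht)])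
    ⟨c, fun ψ hψ => by
      have A := on_ac hψ
      have f1 := (R.d2.mul A).ftc z0 z1
      rw [intervalIntegral.integral_add ((R.d2.int z0 z1).mul_continuousOn (ui ▸ A.cont))
        ((A.int z0 z1).continuousOn_mul (ui ▸ R.d2.cont)), R.l, R.r] at f1
      rw [on_int, on_int]
      simp only [dt, Fin.sum_univ_one, d]
      have e1 : ∫ t in (0 : ℝ)..1, u 0 * (Real.exp (∫ r in (0 : ℝ)..t, s r) * s t)
          * pd 0 ψ (fun _ => t) = ∫ t in (0 : ℝ)..1, τ t * pd 0 ψ fun _ => t :=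
        intervalIntegral.integral_congr fun t ht => by
          have := (S.pos t (ui ▸ ht)).ne'
          rw [← mul_assoc, ue t (ui ▸ ht), se t (ui ▸ ht), hσ]
          field_simp
      have e2 : ∫ t in (0 : ℝ)..1, u 0 * Real.exp (∫ r in (0 : ℝ)..t, s r)
          * (m (fold (fun _ : Fin 1 => t) 0) - u 0 * Real.exp (∫ r in (0 : ℝ)..t, s r))
          * ψ (fun _ => t) = -∫ t in (0 : ℝ)..1, u t * (u t - m t) * ψ fun _ => t := by
        rw [← intervalIntegral.integral_neg]
        exact intervalIntegral.integral_congr fun t ht => by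
          rw [ue t (ui ▸ ht), fe t (ui ▸ ht)]; ring
      rw [e1, e2]
      linarith⟩
    fun x => mul_pos (S.pos 0 z0) (Real.exp_pos _)
  rw [on_int, on_int] at this
  refine le_of_eq_of_le ?_ this
  exact intervalIntegral.integral_congr fun t ht => (ue t (ui ▸ ht)).symm

theorem on_union {X X' : ℝ → ℝ} (h : ∀ t, HasDerivAt X (X' t) t) (hc : Continuous X')
    (hb : ∀ t, |X t| ≤ 1) (T : Finset (ℝ × ℝ)) :
    ∀ c, ∫ t in (⋃ p ∈ T, Ioo p.1 p.2) ∩ Ioo 0 c, X' t ≤ 2 * T.card := by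
  classical
  have io : ∀ (S : Set ℝ) c, IntegrableOn X' (S ∩ Ioo 0 c) := fun S c =>
    (hc.integrableOn_Icc (a := 0) (b := c)).mono_set
      (inter_subset_right.trans Ioo_subset_Icc_self)
  have one : ∀ a b, ∫ t in Ioo a b, X' t ≤ 2 := fun a b => by
    rcases le_total a b with l | l
    · rw [← integral_Ioc_eq_integral_Ioo, ← intervalIntegral.integral_of_le l,
        intervalIntegral.integral_eq_sub_of_hasDerivAt (fun t _ => h t)
          (hc.intervalIntegrable a b)]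
      linarith [abs_le.1 (hb a), abs_le.1 (hb b)]
    · simp [Ioo_eq_empty (not_lt.2 l)]
  induction T using Finset.induction_on_max_value (fun p : ℝ × ℝ => p.2) with
  | empty => simp
  | insert p T hp hm ih =>
    intro c
    rw [Finset.card_insert_of_notMem hp, Finset.set_biUnion_insert]
    push_cast
    rcases le_or_gt p.2 p.1 with l | l
    · rw [Ioo_eq_empty (not_lt.2 l), empty_union]; linarith [ih c]
    have e : ((Ioo p.1 p.2 ∪ ⋃ q ∈ T, Ioo q.1 q.2) ∩ Ioo 0 c : Set ℝ) =ᵐ[volume]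
        (((⋃ q ∈ T, Ioo q.1 q.2) ∩ Ioo 0 (min c p.1)) ∪ (Ioo p.1 p.2 ∩ Ioo 0 c) : Set ℝ) := by
      filter_upwards [FR.ae_ne p.1] with t ht
      refine propext ⟨?_, ?_⟩
      · rintro ⟨h1 | h1, h2⟩
        · exact Or.inr ⟨h1, h2⟩
        · rcases lt_or_gt_of_ne ht with k | k
          · exact Or.inl ⟨h1, h2.1, lt_min h2.2 k⟩
          · obtain ⟨q, hq, h3⟩ := mem_iUnion₂.1 h1
            exact Or.inr ⟨⟨k, h3.2.trans_le (hm q hq)⟩, h2⟩
      · rintro (⟨h1, h2⟩ | ⟨h1, h2⟩)
        · exact ⟨Or.inr h1, h2.1, h2.2.trans_le (min_le_left _ _)⟩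
        · exact ⟨Or.inl h1, h2⟩
    rw [setIntegral_congr_set e, setIntegral_union (Set.disjoint_left.2 fun t h1 h2 =>
      lt_asymm h2.1.1 (h1.2.2.trans_le (min_le_right _ _)))
      (measurableSet_Ioo.inter measurableSet_Ioo) (io _ _) (io _ _), Ioo_inter_Ioo]
    linarith [ih (min c p.1), one (max p.1 0) (min p.2 c)]

theorem mainOne (F : FoldS 1) : MainS 1 := by
  refine ⟨40000, by norm_num, fun κ M θ hκ R _ h p mx => ?_⟩
  obtain ⟨D, hD, e1, e2, e3⟩ := (on_raw hκ R h p).sol.dat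
  obtain ⟨T, hT, w⟩ := hD.count (by rw [e1, e2, e3]; exact on_cmp F hκ mx)
  rw [e1] at hT
  rw [e1, e2, Real.sq_sqrt hκ.le] at w
  constructor
  · have : ∀ᵐ t ∂volume.restrict (Icc (0 : ℝ) 1), (M fun _ => t) = 0 ∨ (M fun _ => t) = κ := by
      rw [ae_restrict_iff' measurableSet_Icc]
      filter_upwards [w, FR.ae_oo] with t h1 h2 h3
      rw [h1 (h2 h3)]
      by_cases k : t ∈ ⋃ p ∈ T, Ioo p.1 p.2
      · exact Or.inr (indicator_of_mem k _)
      · exact Or.inl (indicator_of_notMem k _)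
    simpa only [on_eta] using on_mp.quasiMeasurePreserving.ae this
  · intro X hX
    have u := on_union (on_der (hX.cd 0)) ((pd_continuous (hX.cd 0) 0).comp (by fun_prop))
      (fun t => by
        have := hX.le fun _ => t
        rw [Fin.sum_univ_one] at this
        exact abs_le_one_iff_mul_self_le_one.2 (by linarith)) T 1
    have mU : MeasurableSet (⋃ p ∈ T, Ioo p.1 p.2 : Set ℝ) :=
      T.measurableSet_biUnion fun _ _ => measurableSet_Ioo
    rw [inter_comm, ← setIntegral_indicator mU] at u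
    rw [on_int, intervalIntegral.integral_of_le zero_le_one, integral_Ioc_eq_integral_Ioo,
      setIntegral_congr_ae measurableSet_Ioo (g := fun t => κ * (⋃ p ∈ T, Ioo p.1 p.2).indicator
        (fun t => pd 0 (X 0) fun _ => t) t) (w.mono fun t h1 h2 => by
          have h3 := h1 h2
          beta_reduce at h3
          rw [h3]
          by_cases k : t ∈ ⋃ p ∈ T, Ioo p.1 p.2
          · simp only [indicator_of_mem k, dv, Fin.sum_univ_one]
          · simp only [indicator_of_notMem k, zero_mul, mul_zero]), integral_const_mul]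
    exact mul_le_mul_of_nonneg_left (by linarith) hκ.le

end Pool.Agent.MP_478eab_an.P
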