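import Pool.Agent.MP_478eab_an.P.Spec

/-! A crude Poincare inequality on convex pieces of the cube. -/

namespace Pool.Agent.MP_478eab_an.P

open MeasureTheory Set Filter Topology Metric Pool.Agent.MP_478eab_an.V

variable {n : ℕ} {v : (Fin n → ℝ) → ℝ} {K : Set (Fin n → ℝ)} {d : ℝ}

theorem po_line (hv : ContDiff ℝ 1 v) {y z : Fin n → ℝ} (h : ‖y - z‖ ≤ d) :
    (v y - v ((1 / 2 : ℝ) • (z + y))) ^ 2 ≤
      n * d ^ 2 * ∫ s in Icc (1 / 2 : ℝ) 1, gs v (z + s • (y - z)) := by
  have hc : Continuous fun s : ℝ => z + s • (y - z) := by fun_prop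
  have hd : ∀ s : ℝ, HasDerivAt (fun s : ℝ => v (z + s • (y - z)))
      (fderiv ℝ v (z + s • (y - z)) (y - z)) s := fun s =>
    (cd_diff hv _).hasFDerivAt.comp_hasDerivAt s
      (by simpa using ((hasDerivAt_id s).smul_const (y - z)).const_add z)
  have c1 : Continuous fun s : ℝ => fderiv ℝ v (z + s • (y - z)) (y - z) :=
    ((hv.continuous_fderiv one_ne_zero).comp hc).clm_apply continuous_const
  have c2 : Continuous fun s : ℝ => gs v (z + s • (y - z)) := (gs_continuous hv).comp hc
  have e := intervalIntegral.integral_eq_sub_of_hasDerivAt (a := 1 / 2) (b := 1)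
    (fun s _ => hd s) (c1.intervalIntegrable _ _)
  rw [intervalIntegral.integral_of_le (by norm_num), ← integral_Icc_eq_integral_Ioc,
    show z + (1 : ℝ) • (y - z) = y by module,
    show z + (1 / 2 : ℝ) • (y - z) = (1 / 2 : ℝ) • (z + y) by module] at e
  set A := v y - v ((1 / 2 : ℝ) • (z + y))
  have k := setIntegral_mono_on (μ := volume) (s := Icc (1 / 2 : ℝ) 1)
    (f := fun s => 2 * A * fderiv ℝ v (z + s • (y - z)) (y - z))
    (g := fun s => A ^ 2 + n * d ^ 2 * gs v (z + s • (y - z)))
    (continuous_const.mul c1).integrableOn_Icc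
    (continuous_const.add (continuous_const.mul c2)).integrableOn_Icc measurableSet_Icc
    fun s _ => by
      have h1 := Finset.sum_mul_sq_le_sq_mul_sq Finset.univ (y - z)
        fun i => pd i v (z + s • (y - z))
      have h2 : ∑ i, (y - z) i ^ 2 ≤ n * d ^ 2 := by
        simpa using Finset.sum_le_card_nsmul Finset.univ (fun i => (y - z) i ^ 2) (d ^ 2)
          fun i _ => sq_le_sq' (abs_le.1 ((norm_le_pi_norm (y - z) i).trans h)).1
            (abs_le.1 ((norm_le_pi_norm (y - z) i).trans h)).2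
      have h3 := mul_le_mul_of_nonneg_right h2 (gs_nonneg v (z + s • (y - z)))
      rw [← fderiv_eq_sum] at h1
      unfold gs at h3 ⊢
      nlinarith [sq_nonneg (A - fderiv ℝ v (z + s • (y - z)) (y - z))]
  rw [integral_const_mul, e, integral_add continuous_const.integrableOn_Icc
    (c2.const_mul _).integrableOn_Icc, integral_const_mul, setIntegral_const,
    Real.volume_real_Icc_of_le (by norm_num), smul_eq_mul] at k
  nlinarith [sq_nonneg A]

theorem po_scale (hK : IsCompact K) (hc : Convex ℝ K) {g : (Fin n → ℝ) → ℝ}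
    (hg : Continuous g)
    (h0 : ∀ x, 0 ≤ g x) {z : Fin n → ℝ} (hz : z ∈ K) {s : ℝ} (hs : s ∈ Icc (1 / 2 : ℝ) 1) :
    ∫ y in K, g (z + s • (y - z)) ≤ 2 ^ n * ∫ y in K, g y := by
  have m := hK.measurableSet
  have s0 : 0 < s := by linarith [hs.1]
  have i1 : Integrable (K.indicator g) :=
    (integrable_indicator_iff m).2 (hg.continuousOn.integrableOn_compact hK)
  have i2 := (i1.comp_add_left ((1 - s) • z)).comp_smul s0.ne'
  have e := Measure.integral_comp_smul volume (fun u => K.indicator g ((1 - s) • z + u)) s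
  rw [integral_add_left_eq_self, integral_indicator m, Module.finrank_fin_fun, smul_eq_mul,
    abs_of_pos (by positivity)] at e
  calc ∫ y in K, g (z + s • (y - z)) = ∫ y in K, K.indicator g ((1 - s) • z + s • y) :=
        setIntegral_congr_fun m fun y hy => by
          rw [indicator_of_mem (hc hz hy (by linarith [hs.2]) s0.le (by ring))]
          congr 1
          module
    _ ≤ ∫ y, K.indicator g ((1 - s) • z + s • y) :=
        setIntegral_le_integral i2 (.of_forall fun y => indicator_nonneg (fun x _ => h0 x) _)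
    _ ≤ _ := by
        rw [e, ← inv_pow]
        exact mul_le_mul_of_nonneg_right (pow_le_pow_left₀ (by positivity)
          ((inv_le_comm₀ s0 two_pos).2 (by linarith [hs.1])) _) (integral_nonneg h0)

theorem po_half (hv : ContDiff ℝ 1 v) (hK : IsCompact K) (hc : Convex ℝ K)
    (hd : ∀ y ∈ K, ∀ z ∈ K, ‖y - z‖ ≤ d) {z : Fin n → ℝ} (hz : z ∈ K) :
    ∫ y in K, (v y - v ((1 / 2 : ℝ) • (z + y))) ^ 2 ≤ n * d ^ 2 * (2 ^ n * ∫ y in K, gs v y) := by
  have cv := hv.continuous
  have cg := gs_continuous hv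
  have i : Integrable (fun p : (Fin n → ℝ) × ℝ => gs v (z + p.2 • (p.1 - z)))
      ((volume.restrict K).prod (volume.restrict (Icc (1 / 2 : ℝ) 1))) := by
    rw [Measure.prod_restrict]
    exact ContinuousOn.integrableOn_compact (hK.prod isCompact_Icc) (by fun_prop)
  refine (setIntegral_mono_on (ContinuousOn.integrableOn_compact hK (by fun_prop))
    (i.integral_prod_left.const_mul (n * d ^ 2)) hK.measurableSet
    fun y hy => po_line hv (hd y hy z hz)).trans ?_
  rw [integral_const_mul, ← integral_prod _ i, integral_prod_symm _ i]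
  refine mul_le_mul_of_nonneg_left ((setIntegral_mono_on i.integral_prod_right
    (g := fun _ => 2 ^ n * ∫ y in K, gs v y) continuous_const.integrableOn_Icc measurableSet_Icc
    fun s hs => po_scale hK hc cg (gs_nonneg v) hz hs).trans ?_) (by positivity)
  rw [setIntegral_const, Real.volume_real_Icc_of_le (by norm_num), smul_eq_mul]
  exact mul_le_of_le_one_left (mul_nonneg (by positivity) (integral_nonneg (gs_nonneg v)))
    (by norm_num)

theorem po_main (hv : ContDiff ℝ 1 v) (hK : IsCompact K) (hc : Convex ℝ K)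
    (hd : ∀ y ∈ K, ∀ z ∈ K, ‖y - z‖ ≤ d) (h0 : volume K ≠ 0) :
    ∃ z ∈ K, ∫ y in K, (v y - v z) ^ 2 ≤ 4 * (n * d ^ 2 * (2 ^ n * ∫ y in K, gs v y)) := by
  have cv := hv.continuous
  have h1 := hK.measure_lt_top (μ := volume)
  have i : ∀ f : (Fin n → ℝ) × (Fin n → ℝ) → ℝ, Continuous f →
      Integrable f ((volume.restrict K).prod (volume.restrict K)) := fun f hf => by
    rw [Measure.prod_restrict]
    exact hf.continuousOn.integrableOn_compact (hK.prod hK)
  have i0 := i (fun p => (v p.2 - v p.1) ^ 2) (by fun_prop)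
  have i1 := i (fun p => (v p.2 - v ((1 / 2 : ℝ) • (p.1 + p.2))) ^ 2) (by fun_prop)
  have i2 := i (fun p => (v p.1 - v ((1 / 2 : ℝ) • (p.2 + p.1))) ^ 2) (by fun_prop)
  obtain ⟨z, hz, h⟩ := exists_le_setAverage h0 h1.ne i0.integral_prod_left
  refine ⟨z, hz, h.trans ?_⟩
  set B := n * d ^ 2 * (2 ^ n * ∫ y in K, gs v y)
  have hB : ∫ z in K, ∫ y in K, (v y - v ((1 / 2 : ℝ) • (z + y))) ^ 2 ≤ volume.real K * B := by
    refine (setIntegral_mono_on i1.integral_prod_left (g := fun _ => B)
      (continuousOn_const.integrableOn_compact hK) hK.measurableSet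
      fun z hz => po_half hv hK hc hd hz).trans_eq ?_
    rw [setIntegral_const, smul_eq_mul]
  have k := integral_mono i0 ((i1.const_mul 2).add (i2.const_mul 2)) fun p => by
    simp only [Pi.add_apply, add_comm p.2 p.1]
    nlinarith [sq_nonneg (v p.2 + v p.1 - 2 * v ((1 / 2 : ℝ) • (p.1 + p.2)))]
  simp only [Pi.add_apply] at k
  rw [integral_add (i1.const_mul 2) (i2.const_mul 2), integral_const_mul, integral_const_mul,
    integral_prod _ i0, integral_prod _ i1, integral_prod_symm _ i2] at k
  rw [setAverage_eq, smul_eq_mul,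
    inv_mul_le_iff₀ (c := volume.real K) (ENNReal.toReal_pos h0 h1.ne)]
  linarith

theorem poiS : PoiS n := by
  refine ⟨16 * n * 2 ^ n + 1, by positivity, fun x hx r δ v hr hv hb => ?_⟩
  have hK : IsCompact (Q x r) := cube_compact.inter_left isClosed_closedBall
  have g0 : 0 ≤ ∫ y in Q x r, gs v y := integral_nonneg (gs_nonneg v)
  by_cases h0 : volume (Q x r) = 0
  · exact ⟨v x, hb x hx, by simp [Measure.restrict_eq_zero.2 h0]⟩
  obtain ⟨z, hz, h⟩ := po_main (d := 2 * r) hv hK ((convex_closedBall x r).inter (convex_Icc 0 1))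
    (fun y hy z hz => by
      rw [← dist_eq_norm]
      linarith [dist_triangle_right y z x, mem_closedBall.1 hy.1, mem_closedBall.1 hz.1]) h0
  refine ⟨v z, hb z hz.2, h.trans ?_⟩
  nlinarith [mul_nonneg (sq_nonneg r) g0]

end Pool.Agent.MP_478eab_an.P
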