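import Pool.Agent.MP_478eab_an.P.Spec

/-! Perimeter of maximisers: regularity of the resolvent, Harnack inequality, divergence. -/

namespace Pool.Agent.MP_478eab_an.P

open MeasureTheory Set Filter Topology Metric Pool.Agent.MP_478eab_an.V

variable {n : ℕ}

theorem rg_inner {f : Fn n} (hf : Bd f) {σ : ℝ} (hσ : 0 < σ) :
    Continuous fun x => ∫ z, (f (x + σ • z) * G (1 / 2) z) • dl z := by
  refine continuous_iff_continuousAt.2 fun x₀ => ?_
  obtain ⟨hm, M, hM⟩ := hf
  have e : (fun x => ∫ z, (f (x + σ • z) * G (1 / 2) z) • dl z)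
      = fun x => ∫ z, (f (x₀ + σ • z) * G (1 / 2) (z - σ⁻¹ • (x - x₀))) •
        dl (z - σ⁻¹ • (x - x₀)) := by
    funext x
    rw [← integral_sub_right_eq_self _ (σ⁻¹ • (x - x₀))]
    congr 1
    funext z
    congr 3
    rw [smul_sub, smul_smul, mul_inv_cancel₀ hσ.ne', one_smul]
    abel
  have hm' : Measurable fun z : Fin n → ℝ => f (x₀ + σ • z) := hm.comp (by fun_prop)
  rw [e]
  refine continuousAt_of_dominated (bound := fun z => M * (n * (Real.exp (n / 4) * G (1 / 8) z)))
    (Eventually.of_forall fun x => (hm'.mul ((G_cont _).measurable.comp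
      (by fun_prop))).aestronglyMeasurable.smul
        (dl_cont.comp (by fun_prop)).aestronglyMeasurable) ?_
    ((((G_int (by norm_num)).const_mul _).const_mul _).const_mul _)
    (Eventually.of_forall fun z => ((continuous_const.mul ((G_cont _).comp (by fun_prop))).smul
      (dl_cont.comp (by fun_prop))).continuousAt)
  filter_upwards [Metric.ball_mem_nhds x₀ hσ] with x hx
  refine Eventually.of_forall fun z => ?_
  have hh : ‖σ⁻¹ • (x - x₀)‖ ≤ 1 := by
    rw [norm_smul, Real.norm_of_nonneg (by positivity), inv_mul_le_iff₀ hσ, mul_one]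
    exact (mem_ball_iff_norm.1 hx).le
  have h1 := (dl_norm (z - σ⁻¹ • (x - x₀))).trans
    (mul_le_mul_of_nonneg_left (G_shift z _ hh) (Nat.cast_nonneg n))
  rw [norm_smul, Real.norm_eq_abs, abs_mul, abs_of_pos (G_pos _ _), mul_assoc, mul_comm (G _ _)]
  exact mul_le_mul (hM _) h1 (mul_nonneg (norm_nonneg _) (G_pos _ _).le)
    ((abs_nonneg _).trans (hM 0))

theorem rg_Sg {a : ℝ} {f : Fn n} (ha : 0 < a) (hf : Bd f) : Continuous (Sg a f) := by
  have e2 : ∀ x σ, ∫ z, f (x + σ • z) • (k1 a (σ, z) • dl z)
      = Real.exp (-a * σ ^ 2) • ∫ z, (f (x + σ • z) * G (1 / 2) z) • dl z := fun x σ => by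
    rw [← integral_smul]; congr 1; funext z; unfold k1
    simp only [smul_smul]; congr 1; ring
  have e : Sg a f = fun x => ∫ σ in Ioi (0 : ℝ), ∫ z, f (x + σ • z) • (k1 a (σ, z) • dl z) :=
    funext fun x => integral_prod _ (Sg_int ha hf x)
  rw [e]
  obtain ⟨M, hM⟩ := hf.2
  refine continuous_of_dominated
    (bound := fun σ => Real.exp (-a * σ ^ 2) * ∫ z : Fin n → ℝ, M * (n * G (1 / 4) z))
    (fun x => (Sg_int ha hf x).integral_prod_left.aestronglyMeasurable)
    (fun x => Eventually.of_forall fun σ => ?_)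
    ((integrable_exp_neg_mul_sq ha).integrableOn.mul_const _) ?_
  · rw [e2, norm_smul, Real.norm_of_nonneg (Real.exp_pos _).le]
    refine mul_le_mul_of_nonneg_left (norm_integral_le_of_norm_le
      (((G_int (by norm_num)).const_mul _).const_mul _) (Eventually.of_forall fun z => ?_))
      (Real.exp_pos _).le
    rw [norm_smul, Real.norm_eq_abs, abs_mul, abs_of_pos (G_pos _ _), mul_assoc, mul_comm (G _ _)]
    exact mul_le_mul (hM _) (dl_norm z) (mul_nonneg (norm_nonneg _) (G_pos _ _).le)
      ((abs_nonneg _).trans (hM 0))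
  · filter_upwards [ae_restrict_mem measurableSet_Ioi] with σ hσ
    simp only [e2]
    exact (rg_inner hf hσ).const_smul (Real.exp (-a * σ ^ 2))

theorem regS : RegS n := by
  intro a f ha hf
  rw [contDiff_one_iff_fderiv]
  refine ⟨fun x => (Rs_has ha hf x).differentiableAt, ?_⟩
  rw [show fderiv ℝ (Rs a f) = Sg a f from funext fun x => (Rs_has ha hf x).fderiv]
  exact rg_Sg ha hf

theorem harS : HarS n := by
  intro u L hu _ h x y
  obtain ⟨K, hK⟩ : ∃ K, K = n * L * ‖y - x‖ := ⟨_, rfl⟩
  have hd : ∀ s : ℝ, HasDerivAt (fun s : ℝ => Real.exp (-K * s) * u (x + s • (y - x)))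
      (Real.exp (-K * s) * (fderiv ℝ u (x + s • (y - x)) (y - x) - K * u (x + s • (y - x)))) s := by
    intro s
    have h1 : HasDerivAt (fun s : ℝ => x + s • (y - x)) (y - x) s := by
      simpa using ((hasDerivAt_id s).smul_const (y - x)).const_add x
    have h2 := (cd_diff hu _).hasFDerivAt.comp_hasDerivAt s h1
    have h3 := ((hasDerivAt_id s).const_mul (-K)).exp
    refine (h3.mul h2).congr_deriv ?_
    simp only [id, Function.comp]
    ring
  have ha : Antitone fun s : ℝ => Real.exp (-K * s) * u (x + s • (y - x)) := by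
    refine antitone_of_deriv_nonpos (fun s => (hd s).differentiableAt) fun s => ?_
    rw [(hd s).deriv]
    refine mul_nonpos_of_nonneg_of_nonpos (Real.exp_pos _).le (sub_nonpos.2 ?_)
    rw [fderiv_eq_sum]
    calc _ ≤ ∑ _i : Fin n, ‖y - x‖ * (L * u (x + s • (y - x))) :=
          Finset.sum_le_sum fun i _ => (le_abs_self _).trans (by
            rw [abs_mul]
            exact mul_le_mul (norm_le_pi_norm (y - x) i) (h _ i) (abs_nonneg _) (norm_nonneg _))
      _ = _ := by
          rw [Finset.sum_const, Finset.card_univ, Fintype.card_fin, nsmul_eq_mul, hK]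
          ring
  have h1 := ha (zero_le_one' ℝ)
  simp only [mul_one, one_smul, add_sub_cancel, mul_zero, Real.exp_zero, zero_smul, add_zero,
    one_mul] at h1
  rw [← hK]
  calc u y = Real.exp K * (Real.exp (-K) * u y) := by
        rw [← mul_assoc, ← Real.exp_add, add_neg_cancel, Real.exp_zero, one_mul]
    _ ≤ _ := mul_le_mul_of_nonneg_left h1 (Real.exp_pos _).le

theorem divS : DivS n := by
  intro f i hf h0
  have hz : ∀ x, x ∉ cube n → f x = 0 := fun x hx => h0 x fun c =>
    hx ⟨fun i => (c i trivial).1.le, fun i => (c i trivial).2.le⟩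
  have hs : HasCompactSupport f := HasCompactSupport.intro cube_compact hz
  have hz' : ∀ x, x ∉ cube n → pd i f x = 0 := fun x hx => by
    have : f =ᶠ[𝓝 x] fun _ => 0 := by
      filter_upwards [cube_compact.isClosed.isOpen_compl.mem_nhds hx] with y hy using hz y hy
    simp [pd, this.fderiv_eq]
  rw [setIntegral_eq_integral_of_forall_compl_eq_zero hz']
  have h1 : Integrable (pd i f) :=
    (pd_continuous hf i).integrable_of_hasCompactSupport (HasCompactSupport.intro cube_compact hz')
  have := integral_mul_fderiv_eq_neg_fderiv_mul_of_integrable (μ := volume)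
    (f := fun _ : Fin n → ℝ => (1 : ℝ)) (g := f) (v := Pi.single i 1) (by simp)
    (by simp only [one_mul]; exact h1) (by simpa using hf.continuous.integrable_of_hasCompactSupport hs)
    (fun x _ => differentiableAt_const _) fun x _ => cd_diff hf x
  simpa [pd] using this

end Pool.Agent.MP_478eab_an.P
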