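import Mathlib
import Pool.Agent.MP_478eab_an.P.Spec

/-! Representation of weak solutions by the resolvent, and symmetric versions of states. -/

namespace Pool.Agent.MP_478eab_an.P

open MeasureTheory Set Filter Topology Metric Pool.Agent.MP_478eab_an.V

variable {n : ℕ} {f g u ψ : Fn n}

theorem rp_dt_cont (hu : ContDiff ℝ 1 u) (hψ : ContDiff ℝ 1 ψ) : Continuous (dt u ψ) :=
  continuous_finsetSum _ fun i _ => (pd_continuous hu i).mul (pd_continuous hψ i)

theorem rp_c0_pos : 0 < c0 n := integral_exp_pos (G_int (by norm_num))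

theorem rp_zero (hf : Continuous f) (h0 : ∀ x ∈ cube n, 0 ≤ f x) (h : ∫ x in cube n, f x ≤ 0) :
    ∀ x ∈ cube n, f x = 0 := by
  have hn : 0 ≤ᵐ[volume.restrict (cube n)] f :=
    (ae_restrict_iff' cube_meas).2 (Eventually.of_forall h0)
  have h1 := (integral_eq_zero_iff_of_nonneg_ae hn (LB.of_cont hf).cube).1
    (le_antisymm h (integral_nonneg_of_ae hn))
  refine Measure.eqOn_of_ae_eq h1 hf.continuousOn continuousOn_const ?_
  rw [cube, ← pi_univ_Icc, interior_pi_set finite_univ, closure_pi_set]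
  simp

theorem rp_bd (F : FoldS n) (hf : LB f) : Bd fun x => f (fold x) := by
  obtain ⟨C, hC⟩ := hf.2 _ cube_compact
  exact ⟨hf.1.comp F.2.2.1.measurable, C, fun x => hC _ (F.1 x)⟩

theorem rp_lb (hf : Bd f) : LB f := by
  obtain ⟨C, hC⟩ := hf.2
  exact LB.of_bound hf.1 hC

theorem rp_one (F : FoldS n) (W : WeakS n) (u g : Fn n) (a : ℝ) (ha : 0 < a) (hu : WS u g)
    (hg : LB g) : ∀ x ∈ cube n,
      u x = Rs a (fun y => (c0 n)⁻¹ * (2 * a * u (fold y) + g (fold y))) x := by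
  have c0p := rp_c0_pos (n := n)
  have uc := hu.1.continuous
  have hl : LB fun y => (c0 n)⁻¹ * (2 * a * u y + g y) :=
    (((LB.of_cont uc).cmul _).add hg).cmul _
  obtain ⟨wc, hw⟩ := W a _ ha (rp_bd F hl) (F.2.2.2.1 fun y => (c0 n)⁻¹ * (2 * a * u y + g y))
  set w := Rs a fun y => (c0 n)⁻¹ * (2 * a * u (fold y) + g (fold y)) with hwd
  have dc : ContDiff ℝ 1 fun x => u x - w x := hu.1.sub wc
  have h1 := hu.2 _ dc
  have h2 := hw _ dc
  have h3 : ∫ x in cube n, (c0 n * ((c0 n)⁻¹ * (2 * a * u (fold x) + g (fold x))) - 2 * a * w x)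
      * (u x - w x) = ∫ x in cube n, (2 * a * (u x - w x) ^ 2 + 1 * (g x * (u x - w x))) :=
    setIntegral_congr_fun cube_meas fun x hx => by
      simp only [F.2.1 x hx]
      field_simp
      ring
  have h4 := eq2 (S := cube n) (a := 2 * a) (b := 1) (LB.of_cont (dc.continuous.pow 2)).cube
    (hg.mul (LB.of_cont dc.continuous)).cube fun x => rfl
  have h5 := lin1 (a := 1) cube_meas (LB.of_cont (rp_dt_cont wc dc)).cube
    (LB.of_cont (rp_dt_cont hu.1 dc)).cube fun x _ => by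
      rw [one_mul]
      refine Finset.sum_le_sum fun i _ => ?_
      have e : pd i (fun x => u x - w x) x = pd i u x - pd i w x := by
        rw [pd_of_has ((cd_diff hu.1 x).hasFDerivAt.fun_sub (cd_diff wc x).hasFDerivAt)]
        simp [pd]
      rw [e]
      nlinarith [sq_nonneg (pd i u x - pd i w x)]
  have h6 : ∫ x in cube n, (u x - w x) ^ 2 ≤ 0 := by
    simp only [Pi.pow_apply] at h4
    rw [h2, h3, h4, h1] at h5
    nlinarith
  intro x hx
  have := rp_zero (dc.continuous.pow 2) (fun x _ => sq_nonneg _) h6 x hx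
  exact sub_eq_zero.1 (pow_eq_zero_iff two_ne_zero |>.1 this)

theorem repS (F : FoldS n) (W : WeakS n) : RepS n := by
  refine ⟨rp_one F W, fun u g a ha h => ?_⟩
  have eu : ∀ x, u (fold x) = u x := F.2.2.2.2 u h.su
  have eg : ∀ x, g (fold x) = g x := F.2.2.2.2 g h.sg
  have bu : Bd u := by
    have := rp_bd F (LB.of_cont h.ws.1.continuous)
    simpa only [eu] using this
  refine ⟨bu, funext fun x => ?_⟩
  have h1 := rp_one F W u g a ha h.ws (rp_lb h.bg) (fold x) (F.1 x)
  simp only [eu, eg] at h1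
  rw [h1]
  exact F.2.2.2.2 _ (Rs_sym ha ((Bd.const _).mul (((Bd.const _).mul bu).add h.bg))
    fun j i y => by simp only [h.su j i y, h.sg j i y]) x

theorem rp_le {κ : ℝ} {M θ : Fn n} (hM : Rc κ M) (hθ : WS θ fun x => θ x * (M x - θ x))
    (h0 : ∀ x ∈ cube n, 0 < θ x) : ∀ x ∈ cube n, θ x ≤ κ := by
  have tc := hθ.1.continuous
  have e2 : ∀ s : ℝ, pp 2 s = (max s 0) ^ 2 := fun s => by simp [pp]
  have pc : ContDiff ℝ 1 fun x => pp 2 (θ x - κ) :=
    (pp_cd one_lt_two).comp (hθ.1.sub contDiff_const)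
  have lM : LB M := LB.of_bound hM.meas (C := κ) fun x => by
    rw [abs_of_nonneg (hM.bd x).1]; exact (hM.bd x).2
  have hc : Continuous fun x => θ x * (θ x - κ) * pp 2 (θ x - κ) :=
    (tc.mul (tc.sub continuous_const)).mul pc.continuous
  have h1 := hθ.2 _ pc
  have h2 : 0 ≤ ∫ x in cube n, dt θ (fun x => pp 2 (θ x - κ)) x := integral_nonneg fun x => by
    refine Finset.sum_nonneg fun i _ => ?_
    have hd : DifferentiableAt ℝ (fun y => θ y - κ) x := (cd_diff hθ.1 x).sub_const κ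
    have e : pd i (fun y => θ y - κ) x = pd i θ x := by
      rw [pd_of_has ((cd_diff hθ.1 x).hasFDerivAt.sub_const κ)]
      rfl
    rw [pd_comp (f := fun y => θ y - κ) (pp_hasDeriv one_lt_two _) hd, e]
    nlinarith [mul_nonneg (pp_nonneg (2 - 1) (θ x - κ)) (sq_nonneg (pd i θ x))]
  have h3 := lin1 (a := -1) cube_meas (LB.of_cont hc).cube
    (((LB.of_cont tc).mul (lM.sub (LB.of_cont tc))).mul (LB.of_cont pc.continuous)).cube
    fun x hx => by
      nlinarith [mul_nonneg (mul_nonneg (h0 x hx).le (sub_nonneg.2 (hM.bd x).2))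
        (pp_nonneg 2 (θ x - κ))]
  have h4 := rp_zero hc (fun x hx => by
    rcases le_total (θ x - κ) 0 with h | h
    · rw [e2, max_eq_right h]; simp
    · exact mul_nonneg (mul_nonneg (h0 x hx).le h) (pp_nonneg _ _)) (by linarith)
  intro x hx
  by_contra h
  have h5 : 0 < θ x - κ := by linarith [not_le.1 h]
  have h6 := h4 x hx
  rw [e2, max_eq_left h5.le] at h6
  have := h0 x hx
  exact absurd h6 (by positivity)

theorem normS (F : FoldS n) (W : WeakS n) (R : RepS n) : NormS n := by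
  intro κ M θ hκ hM hθ h0
  have c0p := rp_c0_pos (n := n)
  have tc := hθ.1.continuous
  have lM : LB M := LB.of_bound hM.meas (C := κ) fun x => by
    rw [abs_of_nonneg (hM.bd x).1]; exact (hM.bd x).2
  have lg : LB fun x => θ x * (M x - θ x) := (LB.of_cont tc).mul (lM.sub (LB.of_cont tc))
  have eM : ∀ x, M (fold x) = M x := F.2.2.2.2 M hM.sym
  have hl : LB fun y => (c0 n)⁻¹ * (2 * κ * θ y + θ y * (M y - θ y)) :=
    (((LB.of_cont tc).cmul _).add lg).cmul _
  have hs := F.2.2.2.1 fun y => (c0 n)⁻¹ * (2 * κ * θ y + θ y * (M y - θ y))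
  have hw := W κ _ hκ (rp_bd F hl) hs
  have e : (Rs κ fun x => (c0 n)⁻¹ * (2 * κ * θ (fold x) + θ (fold x) * (M (fold x) - θ (fold x))))
      = fun x => θ (fold x) := funext fun x =>
    (F.2.2.2.2 _ (Rs_sym hκ (rp_bd F hl) hs) x).symm.trans
      (R.1 θ _ κ hκ hθ lg (fold x) (F.1 x)).symm
  rw [e] at hw
  have e' : (fun x => c0 n * ((c0 n)⁻¹ * (2 * κ * θ (fold x)
      + θ (fold x) * (M (fold x) - θ (fold x)))) - 2 * κ * θ (fold x))
      = fun x => θ (fold x) * (M x - θ (fold x)) := funext fun x => by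
    rw [eM]
    field_simp
    ring
  rw [e'] at hw
  refine ⟨fun x => θ (fold x), ⟨hw, F.2.2.2.1 θ, ?_, ?_⟩,
    fun x => ⟨h0 _ (F.1 x), rp_le hM hθ h0 _ (F.1 x)⟩, fun x hx => congrArg θ (F.2.1 x hx)⟩
  · simpa only [eM] using F.2.2.2.1 fun x => θ x * (M x - θ x)
  · simpa only [eM] using rp_bd F lg

end Pool.Agent.MP_478eab_an.P
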