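import Pool.Agent.MP_478eab_an.P.Spec

/-! Selection of two separated masses. -/

namespace Pool.Agent.MP_478eab_an.P

open MeasureTheory Set Filter Topology Metric Pool.Agent.MP_478eab_an.V

variable {n : ℕ}

theorem se_int {a : Fn n} {κ l : ℝ} {x₀ : Fin n → ℝ} (ha : Measurable a)
    (hb : ∀ x, 0 ≤ a x ∧ a x ≤ κ) (h0 : ∀ x, x ∉ Q x₀ l → a x = 0) : Integrable a := by
  rw [← integrableOn_iff_integrable_of_support_subset (s := closedBall x₀ l)
    fun x hx => by_contra fun h => hx (h0 x fun hq => h hq.1)]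
  refine Measure.integrableOn_of_bounded (M := κ) measure_closedBall_lt_top.ne
    ha.aestronglyMeasurable (Eventually.of_forall fun x => ?_)
  rw [Real.norm_of_nonneg (hb x).1]
  exact (hb x).2

theorem se_zero {a : Fn n} {l : ℝ} {x₀ : Fin n → ℝ} (h0 : ∀ x, x ∉ Q x₀ l → a x = 0) :
    ∫ x in cube n, a x = ∫ x in closedBall x₀ l, a x := by
  rw [setIntegral_eq_integral_of_forall_compl_eq_zero fun x hx => h0 x fun hq => hx hq.2,
    setIntegral_eq_integral_of_forall_compl_eq_zero fun x hx => h0 x fun hq => hx hq.1]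

theorem se_small {a : Fn n} {κ r : ℝ} (hb : ∀ x, 0 ≤ a x ∧ a x ≤ κ) (hr : 0 ≤ r)
    (y : Fin n → ℝ) : ∫ x in closedBall y r, a x ≤ κ * (2 * r) ^ n := by
  have h := norm_setIntegral_le_of_norm_le_const (μ := volume) (s := closedBall y r) (f := a)
    (C := κ) measure_closedBall_lt_top fun x _ => by
      rw [Real.norm_of_nonneg (hb x).1]
      exact (hb x).2
  rw [Measure.real, Real.volume_pi_closedBall _ hr, ENNReal.toReal_ofReal (by positivity),
    Fintype.card_fin] at h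
  exact (le_abs_self _).trans h

theorem se_cover {a : Fn n} (hi : Integrable a) (h0 : ∀ x, 0 ≤ a x) {x : Fin n → ℝ} {r s : ℝ}
    {T : Finset (Fin n → ℝ)} (hT : ∀ z ∈ closedBall x r, ∃ y ∈ T, z ∈ closedBall y s) :
    ∫ z in closedBall x r, a z ≤ ∑ y ∈ T, ∫ z in closedBall y s, a z := by
  have e : ∀ (y : Fin n → ℝ) (t : ℝ),
      ∫ z in closedBall y t, a z = ∫ z, (closedBall y t).indicator a z := fun y t =>
    (integral_indicator measurableSet_closedBall).symm
  simp only [e]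
  rw [← integral_finsetSum _ fun y _ => hi.indicator measurableSet_closedBall]
  refine integral_mono (hi.indicator measurableSet_closedBall)
    (integrable_finsetSum _ fun y _ => hi.indicator measurableSet_closedBall) fun z => ?_
  have nn : ∀ y ∈ T, 0 ≤ (closedBall y s).indicator a z := fun y _ =>
    indicator_nonneg (fun x _ => h0 x) z
  by_cases hz : z ∈ closedBall x r
  · obtain ⟨y, hy, hzy⟩ := hT z hz
    beta_reduce
    rw [indicator_of_mem hz, ← indicator_of_mem hzy a]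
    exact Finset.single_le_sum nn hy
  · beta_reduce
    rw [indicator_of_notMem hz]
    exact Finset.sum_nonneg nn

theorem se_pick {a b : Fn n} {l w r : ℝ} {x₀ x : Fin n → ℝ} {N : ℕ} (hN : 0 < N)
    (ia : Integrable a) (ib : Integrable b) (a0 : ∀ x, 0 ≤ a x) (b0 : ∀ x, 0 ≤ b x)
    (az : ∀ x, x ∉ Q x₀ l → a x = 0) (hw : 0 < w) (hr : 0 < r) (hl : r ≤ l)
    {T : Finset (Fin n → ℝ)} (hc : T.card ≤ N)
    (hT : ∀ z ∈ closedBall x r, ∃ y ∈ T, z ∈ closedBall y (r / 8))
    (h1 : w / 4 < ∫ z in closedBall x r, a z) (h2 : ∀ y, ∫ z in closedBall y (r / 2), b z ≤ w / 4) :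
    ∃ y, dist y x₀ ≤ 2 * l ∧ w / (4 * N) ≤ ∫ z in closedBall y (r / 8), a z ∧
      ∫ z in closedBall y (2 * (r / 8)), b z ≤ w / 4 := by
  have N0 : (0 : ℝ) < N := by exact_mod_cast hN
  have p0 : 0 < w / (4 * N) := by positivity
  obtain ⟨y, -, hy⟩ : ∃ y ∈ T, w / (4 * N) ≤ ∫ z in closedBall y (r / 8), a z := by
    by_contra h
    push Not at h
    have h3 := Finset.sum_le_card_nsmul T _ _ fun y hy => (h y hy).le
    have h4 : (T.card : ℝ) * (w / (4 * N)) ≤ N * (w / (4 * N)) :=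
      mul_le_mul_of_nonneg_right (by exact_mod_cast hc) p0.le
    have h5 : (N : ℝ) * (w / (4 * N)) = w / 4 := by field_simp
    rw [nsmul_eq_mul] at h3
    linarith [se_cover ia a0 hT]
  refine ⟨y, ?_, hy, le_trans ?_ (h2 y)⟩
  · obtain ⟨z, hz, hz0⟩ : ∃ z ∈ closedBall y (r / 8), a z ≠ 0 := by
      by_contra h
      push Not at h
      rw [setIntegral_eq_zero_of_forall_eq_zero h] at hy
      linarith
    have h6 : z ∈ Q x₀ l := by_contra fun h => hz0 (az z h)
    have h7 := mem_closedBall.1 h6.1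
    have h8 := mem_closedBall'.1 hz
    linarith [dist_triangle y z x₀]
  · exact setIntegral_mono_set ib.integrableOn (Eventually.of_forall b0)
      (closedBall_subset_closedBall (by linarith)).eventuallyLE

theorem selS (hn : 2 ≤ n) (C : CovS n) : SelS n := by
  obtain ⟨⟨N, hN, hC⟩, -⟩ := C
  have N1 : (1 : ℝ) ≤ N := by exact_mod_cast hN
  refine ⟨4 * N, by linarith, fun a b κ l w x₀ ma mb ba bb hl hw hz wa wb => ?_⟩
  have ia := se_int ma ba fun x hx => (hz x hx).1
  have ib := se_int mb bb fun x hx => (hz x hx).2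
  set H : ℕ → Prop := fun j => ∃ y : Fin n → ℝ, w / 4 < ∫ z in closedBall y (l / 2 ^ j), a z ∨
    w / 4 < ∫ z in closedBall y (l / 2 ^ j), b z with hH
  have H0 : H 0 := ⟨x₀, Or.inl (by
    rw [pow_zero, div_one, ← se_zero fun x hx => (hz x hx).1]
    linarith)⟩
  have H1 : ∃ j, ¬H j := by
    have t1 : Tendsto (fun j : ℕ => l / 2 ^ j) atTop (𝓝 0) :=
      tendsto_const_nhds.div_atTop (tendsto_pow_atTop_atTop_of_one_lt one_lt_two)
    have t2 : Tendsto (fun j : ℕ => κ * (2 * (l / 2 ^ j)) ^ n) atTop (𝓝 (κ * (2 * 0) ^ n)) :=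
      ((t1.const_mul 2).pow n).const_mul κ
    rw [mul_zero, zero_pow (by omega), mul_zero] at t2
    obtain ⟨j, hj⟩ := (t2.eventually (gt_mem_nhds (by positivity : 0 < w / 4))).exists
    refine ⟨j, fun ⟨y, hy⟩ => ?_⟩
    have hr : 0 ≤ l / 2 ^ j := by positivity
    rcases hy with hy | hy
    · linarith [se_small ba hr y]
    · linarith [se_small bb hr y]
  obtain ⟨j, ⟨x, hx⟩, hj⟩ : ∃ j, H j ∧ ¬H (j + 1) := by
    by_contra h
    push Not at h
    obtain ⟨j, hj⟩ := H1
    exact hj (Nat.rec H0 h j)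
  have hr : 0 < l / 2 ^ j := by positivity
  have hrl : l / 2 ^ j ≤ l := div_le_self hl.le (one_le_pow₀ one_le_two)
  obtain ⟨T, hc, hT⟩ := hC x _ hr
  have e : l / 2 ^ (j + 1) = l / 2 ^ j / 2 := by rw [pow_succ, div_div]
  simp only [hH, e, not_exists, not_or, not_lt] at hj
  rcases hx with hx | hx
  · obtain ⟨y, h1, h2⟩ := se_pick hN ia ib (fun x => (ba x).1) (fun x => (bb x).1)
      (fun x hx => (hz x hx).1) hw hr hrl hc hT hx fun y => (hj y).2
    exact ⟨y, l / 2 ^ j / 8, by positivity, by linarith, h1, Or.inl h2⟩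
  · obtain ⟨y, h1, h2⟩ := se_pick hN ib ia (fun x => (bb x).1) (fun x => (ba x).1)
      (fun x hx => (hz x hx).2) hw hr hrl hc hT hx fun y => (hj y).1
    exact ⟨y, l / 2 ^ j / 8, by positivity, by linarith, h1, Or.inr h2⟩

end Pool.Agent.MP_478eab_an.P
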