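import Pool.Agent.MP_478eab_an.P.Spec

/-! Perimeter of maximisers, row STRIP: the local level and the measure of the strip. -/

namespace Pool.Agent.MP_478eab_an.P

open MeasureTheory Set Filter Topology Metric Pool.Agent.MP_478eab_an.V

variable {n : ℕ}

theorem st_lb {a : Fn n} {κ : ℝ} (ha : Measurable a) (h : ∀ x, 0 ≤ a x ∧ a x ≤ κ) : LB a :=
  LB.of_bound ha (C := κ) fun x => by
    rw [abs_of_nonneg (h x).1]
    exact (h x).2

theorem st_Q (x : Fin n → ℝ) (r : ℝ) : MeasurableSet (Q x r) :=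
  measurableSet_closedBall.inter cube_meas

theorem st_ind {a : Fn n} (T : Set (Fin n → ℝ)) (h : ∀ x, 0 ≤ a x) (x : Fin n → ℝ) :
    0 ≤ T.indicator a x ∧ T.indicator a x ≤ a x := by
  by_cases hx : x ∈ T <;> simp [hx, h x]

theorem st_int {a : Fn n} {T : Set (Fin n → ℝ)} (hT : MeasurableSet T) (h : T ⊆ cube n) :
    ∫ x in cube n, T.indicator a x = ∫ x in T, a x := by
  rw [setIntegral_indicator hT, inter_eq_right.2 h]

theorem st_cut {a : Fn n} {T : Set (Fin n → ℝ)} (hT : MeasurableSet T)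
    (h : ∀ x, x ∉ cube n → a x = 0) : ∫ x in cube n, T.indicator a x = ∫ x in T, a x := by
  rw [setIntegral_indicator hT, inter_comm, ← setIntegral_indicator cube_meas]
  refine congrArg _ (funext fun x => ?_)
  by_cases hx : x ∈ cube n
  · exact indicator_of_mem hx a
  · rw [indicator_of_notMem hx, h x hx]

theorem st_scale {a : Fn n} {m : ℝ} (ha : Measurable a) (h0 : ∀ x, 0 ≤ a x) (hm : 0 < m)
    (h : m ≤ ∫ x in cube n, a x) :
    ∃ a' : Fn n, Measurable a' ∧ (∀ x, 0 ≤ a' x ∧ a' x ≤ a x) ∧ ∫ x in cube n, a' x = m := by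
  have hp := hm.trans_le h
  refine ⟨fun x => m / (∫ x in cube n, a x) * a x, ha.const_mul _, fun x =>
    ⟨mul_nonneg (div_pos hm hp).le (h0 x), mul_le_of_le_one_left (h0 x) ((div_le_one hp).2 h)⟩, ?_⟩
  rw [integral_const_mul, div_mul_cancel₀ _ hp.ne']

theorem st_ge {a φ : Fn n} {u : ℝ} (ha : LB a) (h0 : ∀ x, 0 ≤ a x) (hφ : Continuous φ)
    (h : ∀ x, a x ≠ 0 → u ≤ φ x) : u * ∫ x in cube n, a x ≤ ∫ x in cube n, a x * φ x := by
  rw [← integral_const_mul]
  refine setIntegral_mono_on (ha.cmul u).cube (ha.mul (LB.of_cont hφ)).cube cube_meas fun x _ => ?_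
  by_cases hx : a x = 0
  · simp [hx]
  · rw [mul_comm]
    exact mul_le_mul_of_nonneg_left (h x hx) (h0 x)

theorem st_le {a φ : Fn n} {u : ℝ} (ha : LB a) (h0 : ∀ x, 0 ≤ a x) (hφ : Continuous φ)
    (h : ∀ x, a x ≠ 0 → φ x ≤ u) : ∫ x in cube n, a x * φ x ≤ u * ∫ x in cube n, a x := by
  have := st_ge (u := -u) ha h0 hφ.neg fun x hx => neg_le_neg (h x hx)
  simp only [Pi.neg_apply, mul_neg, integral_neg] at this
  linarith

/-- two pieces of the same mass -/
structure st_Dip (κ m u v : ℝ) (M φ : Fn n) (T : Set (Fin n → ℝ)) (a b : Fn n) : Prop where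
  ma : Measurable a
  mb : Measurable b
  ba : ∀ x, 0 ≤ a x ∧ a x ≤ M x
  bb : ∀ x, 0 ≤ b x ∧ b x ≤ κ - M x
  sa : ∀ x, a x ≠ 0 → x ∈ T ∧ φ x ≤ u
  sb : ∀ x, b x ≠ 0 → x ∈ T ∧ v ≤ φ x
  ia : ∫ x in cube n, a x = m
  ib : ∫ x in cube n, b x = m

section
variable {κ l η A m u v : ℝ} {M φ a b : Fn n} {x₀ : Fin n → ℝ} {T : Set (Fin n → ℝ)}

theorem st_mk (ma : Measurable a) (mb : Measurable b) (ba : ∀ x, 0 ≤ a x ∧ a x ≤ M x)
    (bb : ∀ x, 0 ≤ b x ∧ b x ≤ κ - M x) (sa : ∀ x, a x ≠ 0 → x ∈ T ∧ φ x ≤ u)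
    (sb : ∀ x, b x ≠ 0 → x ∈ T ∧ v ≤ φ x) (hm : 0 < m) (ia : m ≤ ∫ x in cube n, a x)
    (ib : m ≤ ∫ x in cube n, b x) : ∃ a' b', st_Dip κ m u v M φ T a' b' ∧
      (∀ x, a' x ≠ 0 → a x ≠ 0) ∧ ∀ x, b' x ≠ 0 → b x ≠ 0 := by
  obtain ⟨a', a1, a2, a3⟩ := st_scale ma (fun x => (ba x).1) hm ia
  obtain ⟨b', b1, b2, b3⟩ := st_scale mb (fun x => (bb x).1) hm ib
  have a4 : ∀ x, a' x ≠ 0 → a x ≠ 0 := fun x hx h =>
    hx (le_antisymm (h ▸ (a2 x).2) (a2 x).1)
  have b4 : ∀ x, b' x ≠ 0 → b x ≠ 0 := fun x hx h =>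
    hx (le_antisymm (h ▸ (b2 x).2) (b2 x).1)
  exact ⟨a', b', ⟨a1, b1, fun x => ⟨(a2 x).1, (a2 x).2.trans (ba x).2⟩,
    fun x => ⟨(b2 x).1, (b2 x).2.trans (bb x).2⟩, fun x hx => sa x (a4 x hx),
    fun x hx => sb x (b4 x hx), a3, b3⟩, a4, b4⟩

theorem st_Dip.lb (D : st_Dip κ m u v M φ T a b) (hM : ∀ x, 0 ≤ M x ∧ M x ≤ κ) : LB a ∧ LB b :=
  ⟨st_lb D.ma (κ := κ) fun x => ⟨(D.ba x).1, (D.ba x).2.trans (hM x).2⟩,
    st_lb D.mb (κ := κ) fun x => ⟨(D.bb x).1, by linarith [(D.bb x).2, (hM x).1]⟩⟩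

theorem st_Dip.low (D : st_Dip κ m u v M φ T a b) (hM : ∀ x, 0 ≤ M x ∧ M x ≤ κ)
    (hφ : Continuous φ) : (v - u) * m ≤ ∫ x in cube n, (b x - a x) * φ x := by
  obtain ⟨la, lb⟩ := D.lb hM
  have h1 := st_le la (fun x => (D.ba x).1) hφ fun x hx => (D.sa x hx).2
  have h2 := st_ge lb (fun x => (D.bb x).1) hφ fun x hx => (D.sb x hx).2
  rw [D.ia] at h1
  rw [D.ib] at h2
  simp only [sub_mul]
  rw [integral_sub (lb.mul (LB.of_cont hφ)).cube (la.mul (LB.of_cont hφ)).cube]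
  linarith

theorem st_Dip.mv (D : st_Dip κ m u v M φ (Q x₀ l) a b) (hM : ∀ x, 0 ≤ M x ∧ M x ≤ κ)
    (hv : Mv κ M φ x₀ l η A) (hη : 2 * m ≤ η) :
    ∫ x in cube n, (b x - a x) * φ x ≤ 0 ∧
      ∀ y s, 0 < s → s ≤ l → dist y x₀ ≤ 2 * l → ∃ ψ : Fn n, Continuous ψ ∧
        (∀ x ∈ closedBall y s, ψ x = 1) ∧ (∀ x, x ∉ closedBall y (2 * s) → ψ x = 0) ∧
        ∀ γ, 0 < γ → |∫ x in cube n, (b x - a x) * φ x * ψ x|
          ≤ (4 / γ + 2) * |∫ x in cube n, (b x - a x) * φ x| + γ * A := by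
  obtain ⟨la, lb⟩ := D.lb hM
  refine hv (fun x => b x - a x) (D.mb.sub D.ma) (fun x hx => ?_) (fun x => ?_) ?_ ?_
  · rw [of_not_not fun h => hx (D.sa x h).1, of_not_not fun h => hx (D.sb x h).1, sub_self]
  · have h1 := D.ba x
    have h2 := D.bb x
    exact ⟨by linarith, by linarith⟩
  · rw [integral_sub lb.cube la.cube, D.ia, D.ib, sub_self]
  · have := lin2 cube_meas (lb.cube.sub la.cube).abs la.cube lb.cube (a := 1) (b := 1) fun x _ => by
      have h1 := (D.ba x).1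
      have h2 := (D.bb x).1
      exact abs_le.2 ⟨by simp only [Pi.sub_apply]; linarith, by simp only [Pi.sub_apply]; linarith⟩
    rw [D.ia, D.ib] at this
    simp only [Pi.sub_apply] at this
    linarith

/-- separated pieces near the level have small mass -/
theorem st_Dip.small {f₀ c t s : ℝ} {y : Fin n → ℝ}
    (D : st_Dip κ m (c + t) (c - t) M φ (Q x₀ l) a b) (hM : ∀ x, 0 ≤ M x ∧ M x ≤ κ)
    (hφ : Continuous φ) (hv : Mv κ M φ x₀ l η A) (hη : 2 * m ≤ η) (hm : 0 < m) (f0 : 0 < f₀)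
    (hf : ∀ x ∈ Q x₀ l, f₀ / 2 ≤ φ x) (t0 : 0 < t) (t1 : t ≤ f₀ / 32) (s0 : 0 < s) (s1 : s ≤ l)
    (hy : dist y x₀ ≤ 2 * l)
    (h : ((∀ x, a x ≠ 0 → x ∈ closedBall y s) ∧ ∀ x, b x ≠ 0 → x ∉ closedBall y (2 * s)) ∨
      ((∀ x, b x ≠ 0 → x ∈ closedBall y s) ∧ ∀ x, a x ≠ 0 → x ∉ closedBall y (2 * s))) :
    f₀ ^ 2 * m ≤ 256 * A * t := by
  obtain ⟨la, lb⟩ := D.lb hM
  obtain ⟨h1, h2⟩ := D.mv hM hv hη
  obtain ⟨ψ, -, ψ1, ψ0, h3⟩ := h2 y s s0 s1 hy
  have h4 := D.low hM hφ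
  have h5 : |∫ x in cube n, (b x - a x) * φ x| ≤ 2 * t * m := abs_le.2 ⟨by linarith, by
    linarith [mul_pos t0 hm]⟩
  have h6 : f₀ / 2 * m ≤ |∫ x in cube n, (b x - a x) * φ x * ψ x| := by
    rcases h with ⟨k1, k2⟩ | ⟨k1, k2⟩
    · have e : (fun x => (b x - a x) * φ x * ψ x) = fun x => -(a x * φ x) := funext fun x => by
        by_cases hb : b x = 0
        · by_cases ha : a x = 0
          · simp [ha, hb]
          · rw [ψ1 x (k1 x ha), hb]
            ring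
        · have ha : a x = 0 := of_not_not fun ha =>
            k2 x hb (closedBall_subset_closedBall (by linarith) (k1 x ha))
          rw [ψ0 x (k2 x hb), ha]
          ring
      rw [e, integral_neg, abs_neg, ← D.ia]
      exact (st_ge la (fun x => (D.ba x).1) hφ fun x hx => hf x (D.sa x hx).1).trans
        (le_abs_self _)
    · have e : (fun x => (b x - a x) * φ x * ψ x) = fun x => b x * φ x := funext fun x => by
        by_cases ha : a x = 0
        · by_cases hb : b x = 0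
          · simp [ha, hb]
          · rw [ψ1 x (k1 x hb), ha]
            ring
        · have hb : b x = 0 := of_not_not fun hb =>
            k2 x ha (closedBall_subset_closedBall (by linarith) (k1 x hb))
          rw [ψ0 x (k2 x ha), hb]
          ring
      rw [e, ← D.ib]
      exact (st_ge lb (fun x => (D.bb x).1) hφ fun x hx => hf x (D.sb x hx).1).trans
        (le_abs_self _)
  have h7 := h3 (64 * t / f₀) (by positivity)
  have h8 := mul_le_mul_of_nonneg_left h5 (show 0 ≤ 4 / (64 * t / f₀) + 2 by positivity)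
  have h9 : (4 / (64 * t / f₀) + 2) * (2 * t * m) = f₀ / 8 * m + 4 * (t * m) := by
    field_simp
    ring
  have h10 := mul_le_mul_of_nonneg_right t1 hm.le
  have h11 : f₀ / 4 * m ≤ 64 * t / f₀ * A := by linarith
  have h12 := mul_le_mul_of_nonneg_left h11 f0.le
  have h13 : f₀ * (64 * t / f₀ * A) = 64 * (A * t) := by
    field_simp
  rw [h13] at h12
  linarith

end

theorem st_zero {a : Fn n} {κ : ℝ} {T S : Set (Fin n → ℝ)} (ha : Measurable a)
    (h : ∀ x, 0 ≤ a x ∧ a x ≤ κ) (hT : MeasurableSet T) (hS : MeasurableSet S) (hc : T ⊆ cube n)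
    (h0 : ∫ x in cube n, (T ∩ S).indicator a x ≤ 0) :
    ∀ᵐ x ∂volume.restrict T, x ∈ S → a x = 0 := by
  rw [st_int (hT.inter hS) (inter_subset_left.trans hc)] at h0
  have h1 := (integral_eq_zero_iff_of_nonneg (fun x => (h x).1) ((st_lb ha h).intOn cube_compact
    (inter_subset_left.trans hc))).1 (le_antisymm h0 (integral_nonneg fun x => (h x).1))
  have h2 := (ae_restrict_iff' (hT.inter hS)).1 h1
  exact (ae_restrict_iff' hT).2 (h2.mono fun x hx h3 h4 => hx ⟨h3, h4⟩)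

theorem st_level {κ l η A f₀ : ℝ} {M φ : Fn n} {x₀ : Fin n → ℝ} (mM : Measurable M)
    (hM : ∀ x, 0 ≤ M x ∧ M x ≤ κ) (hφ : Continuous φ) (η0 : 0 < η)
    (hf : ∀ x ∈ Q x₀ l, f₀ / 2 ≤ φ x ∧ φ x ≤ 2 * f₀) (f0 : 0 < f₀) (hv : Mv κ M φ x₀ l η A) :
    ∃ c, (∀ᵐ x ∂volume.restrict (Q x₀ l), φ x < c → M x = 0) ∧
      ∀ᵐ x ∂volume.restrict (Q x₀ l), c < φ x → M x = κ := by
  have hQ := st_Q x₀ l
  have hm := ae_restrict_mem (μ := volume) hQ
  have hM' : ∀ x, 0 ≤ κ - M x ∧ κ - M x ≤ κ := fun x =>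
    ⟨sub_nonneg.2 (hM x).2, sub_le_self _ (hM x).1⟩
  obtain ⟨S, hS⟩ : ∃ S : Set ℝ, S = {s | s ≤ 2 * f₀ ∧
    ∀ᵐ x ∂volume.restrict (Q x₀ l), φ x < s → M x = 0} := ⟨_, rfl⟩
  have hne : S.Nonempty := ⟨f₀ / 2, hS ▸ ⟨by linarith,
    hm.mono fun x hx h => absurd h (not_lt.2 (hf x hx).1)⟩⟩
  have hb : BddAbove S := ⟨2 * f₀, fun s hs => by rw [hS] at hs; exact hs.1⟩
  refine ⟨sSup S, ?_, ?_⟩
  · have h1 : ∀ k : ℕ, ∀ᵐ x ∂volume.restrict (Q x₀ l),
        φ x < sSup S - 1 / ((k : ℝ) + 1) → M x = 0 := fun k => by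
      obtain ⟨s, hs, h2⟩ := exists_lt_of_lt_csSup hne
        (sub_lt_self (sSup S) (Nat.one_div_pos_of_nat (n := k)))
      rw [hS] at hs
      exact hs.2.mono fun x hx h => hx (h.trans h2)
    refine (ae_all_iff.2 h1).mono fun x hx h => ?_
    obtain ⟨k, hk⟩ := exists_nat_one_div_lt (sub_pos.2 h)
    exact hx k (by linarith)
  · have h1 : ∀ δ : ℝ, 0 < δ → ∀ᵐ x ∂volume.restrict (Q x₀ l),
        sSup S + 2 * δ < φ x → M x = κ := fun δ hδ => by
      by_cases h2 : sSup S + δ ≤ 2 * f₀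
      swap
      · exact hm.mono fun x hx h => absurd (hf x hx).2 (by linarith [not_le.1 h2])
      have m1 : MeasurableSet {x | φ x < sSup S + δ} :=
        (isOpen_lt hφ continuous_const).measurableSet
      have m2 : MeasurableSet {x | sSup S + 2 * δ < φ x} :=
        (isOpen_lt continuous_const hφ).measurableSet
      have h3 : 0 < ∫ x in cube n, (Q x₀ l ∩ {x | φ x < sSup S + δ}).indicator M x := by
        by_contra h3
        have h4 : sSup S + δ ∈ S := by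
          have := st_zero mM hM hQ m1 inter_subset_right (not_lt.1 h3)
          exact hS.ge ⟨h2, this⟩
        linarith [le_csSup hb h4]
      refine (st_zero (a := fun x => κ - M x) (measurable_const.sub mM) hM' hQ m2
        inter_subset_right (not_lt.1 fun h4 => ?_)).mono fun x hx h => (sub_eq_zero.1 (hx h)).symm
      have h5 := lt_min (lt_min h3 h4) (half_pos η0)
      obtain ⟨a, b, D, -⟩ := st_mk (T := Q x₀ l) (φ := φ) (u := sSup S + δ) (v := sSup S + 2 * δ)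
        (mM.indicator (hQ.inter m1)) ((measurable_const.sub mM).indicator (hQ.inter m2))
        (st_ind _ fun x => (hM x).1) (st_ind _ fun x => (hM' x).1)
        (fun x hx => ⟨(mem_of_indicator_ne_zero hx).1, le_of_lt (mem_of_indicator_ne_zero hx).2⟩)
        (fun x hx => ⟨(mem_of_indicator_ne_zero hx).1, le_of_lt (mem_of_indicator_ne_zero hx).2⟩)
        h5 ((min_le_left _ _).trans (min_le_left _ _)) ((min_le_left _ _).trans (min_le_right _ _))
      have h6 := (D.low hM hφ).trans (D.mv hM hv ((le_div_iff₀' two_pos).1 (min_le_right _ _))).1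
      exact absurd h6 (not_le.2 (mul_pos (by linarith) h5))
    refine (ae_all_iff.2 fun k : ℕ => h1 _ (Nat.one_div_pos_of_nat (n := k))).mono fun x hx h => ?_
    obtain ⟨k, hk⟩ := exists_nat_one_div_lt (half_pos (sub_pos.2 h))
    exact hx k (by linarith)

theorem stripS (S : SelS n) : StripS n := by
  obtain ⟨N, N1, hN⟩ := S
  have N0 : 0 < N := by linarith
  refine ⟨1024 * N, by positivity, fun κ l η A f₀ M φ x₀ mM hM hφ l0 η0 A0 f0 hf hv => ?_⟩
  obtain ⟨c, c1, c2⟩ := st_level mM hM hφ η0 hf f0 hv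
  refine ⟨c, c1, c2, ?_⟩
  have hQ := st_Q x₀ l
  have hM' : ∀ x, 0 ≤ κ - M x ∧ κ - M x ≤ κ := fun x =>
    ⟨sub_nonneg.2 (hM x).2, sub_le_self _ (hM x).1⟩
  filter_upwards [Ioo_mem_nhdsGT (show (0 : ℝ) < min (f₀ / 32) (η * f₀ ^ 2 / (1024 * A)) by
    positivity)] with t ht
  have t0 := ht.1
  have t1 := (ht.2.trans_le (min_le_left _ _)).le
  have t2 := (lt_div_iff₀ (by positivity)).1 (ht.2.trans_le (min_le_right _ _))
  by_contra hcon
  obtain ⟨h1, h2⟩ := not_or.1 hcon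
  have m1 := hQ.inter (isOpen_lt hφ (continuous_const (y := c + t))).measurableSet
  have m2 := hQ.inter (isOpen_lt (continuous_const (y := c - t)) hφ).measurableSet
  rw [← st_int m1 (inter_subset_left.trans inter_subset_right)] at h1
  rw [← st_int m2 (inter_subset_left.trans inter_subset_right)] at h2
  obtain ⟨a, ha⟩ : ∃ a, a = (Q x₀ l ∩ {x | φ x < c + t}).indicator M := ⟨_, rfl⟩
  obtain ⟨b, hb⟩ : ∃ b, b = (Q x₀ l ∩ {x | c - t < φ x}).indicator fun x => κ - M x := ⟨_, rfl⟩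
  rw [← ha] at h1
  rw [← hb] at h2
  have ma : Measurable a := ha ▸ mM.indicator m1
  have mb : Measurable b := hb ▸ (measurable_const.sub mM).indicator m2
  have ba : ∀ x, 0 ≤ a x ∧ a x ≤ M x := ha ▸ st_ind _ fun x => (hM x).1
  have bb : ∀ x, 0 ≤ b x ∧ b x ≤ κ - M x := hb ▸ st_ind _ fun x => (hM' x).1
  have sa : ∀ x, a x ≠ 0 → x ∈ Q x₀ l ∧ φ x ≤ c + t := fun x hx => by
    rw [ha] at hx
    exact ⟨(mem_of_indicator_ne_zero hx).1, le_of_lt (mem_of_indicator_ne_zero hx).2⟩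
  have sb : ∀ x, b x ≠ 0 → x ∈ Q x₀ l ∧ c - t ≤ φ x := fun x hx => by
    rw [hb] at hx
    exact ⟨(mem_of_indicator_ne_zero hx).1, le_of_lt (mem_of_indicator_ne_zero hx).2⟩
  have ba' : ∀ x, 0 ≤ a x ∧ a x ≤ κ := fun x => ⟨(ba x).1, (ba x).2.trans (hM x).2⟩
  have bb' : ∀ x, 0 ≤ b x ∧ b x ≤ κ := fun x => ⟨(bb x).1, (bb x).2.trans (hM' x).2⟩
  obtain ⟨m, hm⟩ : ∃ m, m = 512 * A * t / f₀ ^ 2 := ⟨_, rfl⟩
  have m0 : 0 < m := hm ▸ by positivity
  have e1 : f₀ ^ 2 * m = 512 * A * t := by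
    rw [hm]
    field_simp
  have e2 : 1024 * N * A / f₀ ^ 2 * t = 2 * N * m := by
    rw [hm]
    field_simp
    ring
  have e3 : 2 * m ≤ η := le_of_mul_le_mul_left (a := f₀ ^ 2) (by linarith) (by positivity)
  have e4 : 2 * N * m / N = 2 * m := by field_simp
  have e5 : m ≤ N * m := le_mul_of_one_le_left m0.le N1
  rw [e2] at h1 h2
  obtain ⟨y, s, s0, s1, hy, hsel⟩ := hN a b κ l (2 * N * m) x₀ ma mb ba' bb' l0 (by positivity)
    (fun x hx => ⟨of_not_not fun h => hx (sa x h).1, of_not_not fun h => hx (sb x h).1⟩)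
    (not_le.1 h1).le (not_le.1 h2).le
  rw [e4] at hsel
  have ins : ∀ g : Fn n, (∀ x, g x ≠ 0 → x ∈ Q x₀ l) → 2 * m ≤ ∫ x in closedBall y s, g x →
      m ≤ ∫ x in cube n, (closedBall y s).indicator g x := fun g hg h => by
    rw [st_cut measurableSet_closedBall fun x hx => of_not_not fun h => hx (hg x h).2]
    linarith
  have out : ∀ g : Fn n, LB g → (∀ x, g x ≠ 0 → x ∈ Q x₀ l) → 2 * N * m < ∫ x in cube n, g x →
      ∫ x in closedBall y (2 * s), g x ≤ 2 * N * m / 4 →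
      m ≤ ∫ x in cube n, (closedBall y (2 * s))ᶜ.indicator g x := fun g lg hg h h' => by
    rw [← st_cut measurableSet_closedBall fun x hx => of_not_not fun h => hx (hg x h).2] at h'
    have := integral_add (lg.cube.indicator (measurableSet_closedBall (x := y) (ε := 2 * s)))
      (lg.cube.indicator (measurableSet_closedBall (x := y) (ε := 2 * s)).compl)
    simp only [indicator_self_add_compl_apply] at this
    linarith
  have fin : f₀ ^ 2 * m ≤ 256 * A * t := by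
    rcases hsel with ⟨k1, k2⟩ | ⟨k1, k2⟩
    · obtain ⟨a', b', D, a4, b4⟩ := st_mk (T := Q x₀ l) (φ := φ) (u := c + t) (v := c - t)
        (κ := κ) (M := M) (ma.indicator measurableSet_closedBall)
        (mb.indicator measurableSet_closedBall.compl)
        (fun x => (st_ind _ (fun x => (ba x).1) x).imp_right fun h => h.trans (ba x).2)
        (fun x => (st_ind _ (fun x => (bb x).1) x).imp_right fun h => h.trans (bb x).2)
        (fun x hx => sa x (indicator_apply_ne_zero.1 hx).2)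
        (fun x hx => sb x (indicator_apply_ne_zero.1 hx).2) m0
        (ins a (fun x hx => (sa x hx).1) k1)
        (out b (st_lb mb bb') (fun x hx => (sb x hx).1) (not_le.1 h2) k2)
      exact D.small hM hφ hv e3 m0 f0 (fun x hx => (hf x hx).1) t0 t1 s0 s1 hy (Or.inl
        ⟨fun x hx => mem_of_indicator_ne_zero (a4 x hx),
          fun x hx => mem_of_indicator_ne_zero (b4 x hx)⟩)
    · obtain ⟨a', b', D, a4, b4⟩ := st_mk (T := Q x₀ l) (φ := φ) (u := c + t) (v := c - t)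
        (κ := κ) (M := M) (ma.indicator measurableSet_closedBall.compl)
        (mb.indicator measurableSet_closedBall)
        (fun x => (st_ind _ (fun x => (ba x).1) x).imp_right fun h => h.trans (ba x).2)
        (fun x => (st_ind _ (fun x => (bb x).1) x).imp_right fun h => h.trans (bb x).2)
        (fun x hx => sa x (indicator_apply_ne_zero.1 hx).2)
        (fun x hx => sb x (indicator_apply_ne_zero.1 hx).2) m0
        (out a (st_lb ma ba') (fun x hx => (sa x hx).1) (not_le.1 h1) k2)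
        (ins b (fun x hx => (sb x hx).1) k1)
      exact D.small hM hφ hv e3 m0 f0 (fun x hx => (hf x hx).1) t0 t1 s0 s1 hy (Or.inr
        ⟨fun x hx => mem_of_indicator_ne_zero (b4 x hx),
          fun x hx => mem_of_indicator_ne_zero (a4 x hx)⟩)
  linarith [mul_pos A0 t0]

end Pool.Agent.MP_478eab_an.P
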