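import Mathlib
import Pool.Agent.MP_478eab_an.P.Spec

/-! The resolvent solves the weak Neumann problem. -/

namespace Pool.Agent.MP_478eab_an.P

open MeasureTheory Set Filter Topology Metric Pool.Agent.MP_478eab_an.V

variable {n : ℕ} {a : ℝ} {f g u ψ : Fn n}

theorem wk_dt_cont (hu : ContDiff ℝ 1 u) (hψ : ContDiff ℝ 1 ψ) : Continuous (dt u ψ) :=
  continuous_finsetSum _ fun i _ => (pd_continuous hu i).mul (pd_continuous hψ i)

/-- a symmetric classical solution is a weak solution -/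
theorem wk_cl (hn : 1 ≤ n) (hu : ContDiff ℝ 1 u) (d2 : ∀ i, Differentiable ℝ (pd i u))
    (hg : Continuous g) (he : ∀ x, ∑ i, pd i (pd i u) x = -g x) (hs : Sym u)
    (hψ : ContDiff ℝ 1 ψ) : ∫ x in cube n, dt u ψ x = ∫ x in cube n, g x * ψ x := by
  obtain ⟨k, rfl⟩ : ∃ k, n = k + 1 := ⟨n - 1, by omega⟩
  have c1 := wk_dt_cont hu hψ
  have c2 : Continuous fun x => g x * ψ x := hg.mul hψ.continuous
  have e : ∀ x, ∑ i, fderiv ℝ (fun y => pd i u y * ψ y) x (Pi.single i 1)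
      = 1 * dt u ψ x + (-1) * (g x * ψ x) := fun x => by
    have h1 : ∀ i, fderiv ℝ (fun y => pd i u y * ψ y) x (Pi.single i 1)
        = pd i (pd i u) x * ψ x + pd i u x * pd i ψ x := fun i =>
      pd_mul (d2 i x) (cd_diff hψ x) i
    simp only [h1]
    rw [Finset.sum_add_distrib, ← Finset.sum_mul, he, dt]
    ring
  have hd := integral_divergence_of_hasFDerivAt_off_countable' (0 : Fin (k + 1) → ℝ) 1
    zero_le_one (fun i y => pd i u y * ψ y) (fun i x => fderiv ℝ (fun y => pd i u y * ψ y) x)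
    ∅ countable_empty
    (fun i => ((pd_continuous hu i).mul hψ.continuous).continuousOn)
    (fun x _ i => ((d2 i x).fun_mul (cd_diff hψ x)).hasFDerivAt)
    (by
      simp only [e]
      exact (LB.of_cont ((continuous_const.mul c1).add (continuous_const.mul c2))).cube)
  have z : ∀ (i : Fin (k + 1)) (j : ℤ) (y : Fin k → ℝ),
      pd i u (i.insertNth (j : ℝ) y) = 0 := fun i j y =>
    hs.neumann (cd_diff hu) (j := j) (by simp)
  have z0 : ∀ (i : Fin (k + 1)) (y : Fin k → ℝ), pd i u (i.insertNth 0 y) = 0 := fun i y => by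
    simpa using z i 0 y
  have z1 : ∀ (i : Fin (k + 1)) (y : Fin k → ℝ), pd i u (i.insertNth 1 y) = 0 := fun i y => by
    simpa using z i 1 y
  simp only [Pi.zero_apply, Pi.one_apply, z0, z1, zero_mul, integral_zero, sub_self,
    Finset.sum_const_zero] at hd
  have h3 := eq2 (S := cube (k + 1)) (LB.of_cont c1).cube (LB.of_cont c2).cube e
  have h4 := hd.symm.trans h3
  linarith

/-- the tested identity -/
def wk_I (a : ℝ) (ψ f : Fn n) : Prop :=
  ∫ x in cube n, dt (Rs a f) ψ x = ∫ x in cube n, (c0 n * f x - 2 * a * Rs a f x) * ψ x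

theorem wk_c1 (hn : 1 ≤ n) (ha : 0 < a) (hψ : ContDiff ℝ 1 ψ) (hf : Bd f)
    (hc : ContDiff ℝ 1 f) (h : ∀ i, Bd (pd i f)) (hs : Sym f) : wk_I a ψ f := by
  have hu := Rs_cd ha hf hc.continuous
  refine wk_cl hn hu (fun i => ?_)
    ((continuous_const.mul hc.continuous).sub (continuous_const.mul hu.continuous))
    (fun x => ?_) (Rs_sym ha hf hs) hψ
  · rw [Rs_pd ha hf hc h]
    exact fun x => (Rs_has ha (h i) x).differentiableAt
  · rw [Rs_eq ha hf hc h, c0]
    ring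

theorem wk_c0_pos : 0 < c0 n := integral_exp_pos (G_int (by norm_num))

theorem wk_Rs_abs (ha : 0 < a) (hm : Measurable f) {B : ℝ} (hB : ∀ x, |f x| ≤ B)
    (x : Fin n → ℝ) : |Rs a f x| ≤ c0 n * B / (2 * a) := by
  have h1 := Rs_mono ha ⟨hm, B, hB⟩ (Bd.const B) (fun y => (abs_le.1 (hB y)).2) x
  have h2 := Rs_mono ha (Bd.const (-B)) ⟨hm, B, hB⟩ (fun y => (abs_le.1 (hB y)).1) x
  rw [Rs_const ha] at h1 h2
  rw [abs_le, c0]
  refine ⟨le_trans (le_of_eq ?_) h2, h1⟩
  ring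

theorem wk_dc {U : ℕ → Fn n} {C : ℝ} (hm : ∀ k, Measurable (U k)) (hb : ∀ k x, |U k x| ≤ C)
    (hl : ∀ x, Tendsto (fun k => U k x) atTop (𝓝 (u x))) (hψ : Continuous ψ) :
    Tendsto (fun k => ∫ x in cube n, U k x * ψ x) atTop (𝓝 (∫ x in cube n, u x * ψ x)) :=
  tendsto_integral_of_dominated_convergence (fun x => C * ‖ψ x‖)
    (fun k => ((hm k).mul hψ.measurable).aestronglyMeasurable)
    (LB.of_cont (continuous_const.mul hψ.norm)).cube
    (fun k => Eventually.of_forall fun x => by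
      rw [norm_mul]; exact mul_le_mul_of_nonneg_right (hb k x) (norm_nonneg _))
    (Eventually.of_forall fun x => (hl x).mul_const _)

theorem wk_dt_int (hu : ContDiff ℝ 1 u) (hψ : ContDiff ℝ 1 ψ) :
    ∫ x in cube n, dt u ψ x = ∑ i, ∫ x in cube n, pd i u x * pd i ψ x :=
  integral_finsetSum _ fun i _ =>
    (LB.of_cont ((pd_continuous hu i).mul (pd_continuous hψ i))).cube

theorem wk_lim (R : RegS n) (ha : 0 < a) (hψ : ContDiff ℝ 1 ψ) {F : ℕ → Fn n} {B : ℝ}
    (hm : ∀ k, Measurable (F k)) (hb : ∀ k x, |F k x| ≤ B)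
    (hl : ∀ x, Tendsto (fun k => F k x) atTop (𝓝 (f x))) (hI : ∀ k, wk_I a ψ (F k)) :
    wk_I a ψ f := by
  have bF : ∀ k, Bd (F k) := fun k => ⟨hm k, B, hb k⟩
  have bf : Bd f := ⟨measurable_of_tendsto_metrizable hm (tendsto_pi_nhds.2 hl), B, fun x =>
    le_of_tendsto' (hl x).abs fun k => hb k x⟩
  have hS : ∀ x, Tendsto (fun k => Sg a (F k) x) atTop (𝓝 (Sg a f x)) := fun x =>
    tendsto_integral_of_dominated_convergence (fun p => B * ‖k1 a p • dl p.2‖)
      (fun k => (Sg_int ha (bF k) x).aestronglyMeasurable) ((kd_int ha).norm.const_mul B)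
      (fun k => Eventually.of_forall fun p => by
        rw [norm_smul]; exact mul_le_mul_of_nonneg_right (hb k _) (norm_nonneg _))
      (Eventually.of_forall fun p => (hl _).smul_const _)
  have hSb : ∀ k x, ‖Sg a (F k) x‖ ≤ ∫ p, B * ‖k1 a p • dl p.2‖ ∂nu n := fun k x =>
    norm_integral_le_of_norm_le ((kd_int ha).norm.const_mul B) (Eventually.of_forall fun p => by
      rw [norm_smul]; exact mul_le_mul_of_nonneg_right (hb k _) (norm_nonneg _))
  have l1 : Tendsto (fun k => ∫ x in cube n, dt (Rs a (F k)) ψ x) atTop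
      (𝓝 (∫ x in cube n, dt (Rs a f) ψ x)) := by
    simp only [fun k => wk_dt_int (R a _ ha (bF k)) hψ, wk_dt_int (R a _ ha bf) hψ]
    refine tendsto_finsetSum _ fun i _ => wk_dc
      (C := (∫ p, B * ‖k1 a p • dl p.2‖ ∂nu n) * ‖(Pi.single i 1 : Fin n → ℝ)‖)
      (fun k => (pd_continuous (R a _ ha (bF k)) i).measurable) (fun k x => ?_) (fun x => ?_)
      (pd_continuous hψ i)
    · rw [pd_of_has (Rs_has ha (bF k) x)]
      exact ((Sg a (F k) x).le_opNorm _).trans
        (mul_le_mul_of_nonneg_right (hSb k x) (norm_nonneg _))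
    · simp only [fun k => pd_of_has (Rs_has ha (bF k) x) i, pd_of_has (Rs_has ha bf x) i]
      exact ((ContinuousLinearMap.apply ℝ ℝ (Pi.single i (1 : ℝ) : Fin n → ℝ)).continuous.tendsto
        _).comp (hS x)
  have l2 : Tendsto (fun k => ∫ x in cube n, (c0 n * F k x - 2 * a * Rs a (F k) x) * ψ x) atTop
      (𝓝 (∫ x in cube n, (c0 n * f x - 2 * a * Rs a f x) * ψ x)) := by
    refine wk_dc (C := c0 n * B + 2 * a * (c0 n * B / (2 * a)))
      (fun k => ((hm k).const_mul _).sub ((R a _ ha (bF k)).continuous.measurable.const_mul _))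
      (fun k x => ?_) (fun x => ((hl x).const_mul _).sub ((Rs_lim ha hm hb hl x).const_mul _))
      hψ.continuous
    refine (abs_sub _ _).trans (add_le_add ?_ ?_)
    · rw [abs_mul, abs_of_pos wk_c0_pos]
      exact mul_le_mul_of_nonneg_left (hb k x) wk_c0_pos.le
    · rw [abs_mul, abs_of_pos (by positivity)]
      exact mul_le_mul_of_nonneg_left (wk_Rs_abs ha (hm k) (hb k) x) (by positivity)
  exact tendsto_nhds_unique l1 (l2.congr fun k => (hI k).symm)

theorem wk_Rs_cmul (a c : ℝ) (f : Fn n) : Rs a (fun y => c * f y) = fun x => c * Rs a f x := by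
  funext x
  unfold Rs
  rw [← integral_const_mul]
  simp only [mul_assoc]

theorem wk_Rs_add (ha : 0 < a) (hf : Bd f) (hg : Bd g) :
    Rs a (fun y => f y + g y) = fun x => Rs a f x + Rs a g x := by
  funext x
  unfold Rs
  rw [← integral_add (Rs_int ha hf x) (Rs_int ha hg x)]
  simp only [add_mul]

theorem wk_scale (hf : Bd f) {t : ℝ} (ht : 0 < t) (x : Fin n → ℝ) :
    t ^ 2 * Rs (t ^ 2) f x = Rs 1 (fun y => f (x + t⁻¹ • (y - x))) x := by
  have hf' : Bd fun y => f (x + t⁻¹ • (y - x)) :=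
    ⟨hf.1.comp (by fun_prop), hf.2.imp fun M hM y => hM _⟩
  have e1 : Rs (t ^ 2) f x
      = ∫ σ in Ioi (0 : ℝ), ∫ z, f (x + σ • z) * (σ * k1 (t ^ 2) (σ, z)) :=
    integral_prod _ (Rs_int (by positivity) hf x)
  have e2 : Rs 1 (fun y => f (x + t⁻¹ • (y - x))) x
      = ∫ σ in Ioi (0 : ℝ), ∫ z, f (x + t⁻¹ • (x + σ • z - x)) * (σ * k1 1 (σ, z)) :=
    integral_prod _ (Rs_int one_pos hf' x)
  have h := integral_comp_mul_left_Ioi
    (fun σ : ℝ => ∫ z, f (x + σ • z) * (σ * k1 (t ^ 2) (σ, z))) 0 (inv_pos.2 ht)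
  rw [mul_zero, inv_inv, smul_eq_mul] at h
  rw [e1, e2, pow_two t, mul_assoc, ← pow_two t, ← h, ← integral_const_mul]
  refine integral_congr_ae (Eventually.of_forall fun σ => ?_)
  beta_reduce
  rw [← integral_const_mul]
  refine integral_congr_ae (Eventually.of_forall fun z => ?_)
  have h1 : -(t ^ 2) * (t⁻¹ * σ) ^ 2 = -1 * σ ^ 2 := by field_simp
  simp only [k1, add_sub_cancel_left, smul_smul, h1]
  field_simp

theorem wk_cont (hn : 1 ≤ n) (R : RegS n) (ha : 0 < a) (hψ : ContDiff ℝ 1 ψ) (hf : Bd f)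
    (hc : Continuous f) (hs : Sym f) : wk_I a ψ f := by
  obtain ⟨B, hB⟩ := hf.2
  have c0p := wk_c0_pos (n := n)
  have tp : ∀ k : ℕ, (0 : ℝ) < (k : ℝ) + 1 := fun k => by positivity
  have bp : ∀ k : ℕ, (0 : ℝ) < ((k : ℝ) + 1) ^ 2 := fun k => by positivity
  set g : ℕ → Fn n := fun k y => 2 * ((k : ℝ) + 1) ^ 2 / c0 n * f y with hg
  have gb : ∀ k, Bd (g k) := fun k => (Bd.const _).mul hf
  have gc : ∀ k, Continuous (g k) := fun k => continuous_const.mul hc
  have gs : ∀ k, Sym (g k) := fun k j i x => by simp only [hg, hs j i x]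
  have Fc : ∀ k : ℕ, ContDiff ℝ 1 (Rs (((k : ℝ) + 1) ^ 2) (g k)) := fun k =>
    Rs_cd (bp k) (gb k) (gc k)
  have Fb : ∀ (k : ℕ) x, |Rs (((k : ℝ) + 1) ^ 2) (g k) x| ≤ B := fun k x => by
    have := wk_Rs_abs (bp k) (gb k).1 (B := 2 * ((k : ℝ) + 1) ^ 2 / c0 n * B) (fun y => by
      simp only [hg]
      rw [abs_mul, abs_of_pos (by positivity)]
      exact mul_le_mul_of_nonneg_left (hB y) (by positivity)) x
    refine this.trans (le_of_eq ?_)
    field_simp
  refine wk_lim R ha hψ (F := fun k => Rs (((k : ℝ) + 1) ^ 2) (g k))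
    (fun k => (Fc k).continuous.measurable) Fb (fun x => ?_) fun k =>
    wk_c1 hn ha hψ ⟨(Fc k).continuous.measurable, B, Fb k⟩ (Fc k)
      (Rs_pd_bd (bp k) (gb k) (gc k)) (Rs_sym (bp k) (gb k) (gs k))
  have l0 : Tendsto (fun k : ℕ => ((k : ℝ) + 1)⁻¹) atTop (𝓝 0) := by
    simpa using tendsto_one_div_add_atTop_nhds_zero_nat (𝕜 := ℝ)
  have l1 := Rs_lim one_pos (f := fun _ => f x)
    (F := fun k y => f (x + ((k : ℝ) + 1)⁻¹ • (y - x))) (M := B)
    (fun k => hf.1.comp (by fun_prop)) (fun k y => hB _) (fun y => by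
      refine (hc.tendsto x).comp ?_
      simpa using (l0.smul_const (y - x)).const_add x) x
  rw [Rs_const one_pos] at l1
  have l2 := l1.const_mul (2 / c0 n)
  have e : 2 / c0 n * ((∫ z : Fin n → ℝ, G (1 / 2) z) * f x / (2 * 1)) = f x := by
    rw [show (∫ z : Fin n → ℝ, G (1 / 2) z) = c0 n from rfl]
    field_simp
  rw [e] at l2
  refine l2.congr fun k => ?_
  rw [← wk_scale hf (tp k) x]
  simp only [hg, wk_Rs_cmul]
  ring

theorem wk_lb (R : RegS n) (ha : 0 < a) (hψ : ContDiff ℝ 1 ψ) (hf : Bd f) :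
    IntegrableOn (fun x => (c0 n * f x - 2 * a * Rs a f x) * ψ x) (cube n) := by
  obtain ⟨B, hB⟩ := hf.2
  exact ((((LB.of_bound hf.1 hB).cmul _).sub ((LB.of_cont (R a f ha hf).continuous).cmul _)).mul
    (LB.of_cont hψ.continuous)).cube

theorem wk_add (R : RegS n) (ha : 0 < a) (hψ : ContDiff ℝ 1 ψ) (hf : Bd f) (hg : Bd g)
    (h1 : wk_I a ψ f) (h2 : wk_I a ψ g) : wk_I a ψ fun x => f x + g x := by
  have cf := R a f ha hf
  have cg := R a g ha hg
  unfold wk_I at *
  rw [wk_Rs_add ha hf hg]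
  have e1 := eq2 (f := dt (fun x => Rs a f x + Rs a g x) ψ) (a := 1) (b := 1)
    (LB.of_cont (wk_dt_cont cf hψ)).cube (LB.of_cont (wk_dt_cont cg hψ)).cube fun x => by
      simp only [dt, pd_add (cd_diff cf x) (cd_diff cg x), add_mul, Finset.sum_add_distrib, one_mul]
  have e2 := eq2 (f := fun x => (c0 n * (f x + g x) - 2 * a * (Rs a f x + Rs a g x)) * ψ x)
    (a := 1) (b := 1) (wk_lb R ha hψ hf) (wk_lb R ha hψ hg) fun x => by ring
  rw [e1, e2, h1, h2]

theorem wk_cmul (R : RegS n) (ha : 0 < a) (hf : Bd f) (c : ℝ)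
    (h1 : wk_I a ψ f) : wk_I a ψ fun x => c * f x := by
  have cf := R a f ha hf
  unfold wk_I at *
  have e1 : ∀ x, dt (fun x => c * Rs a f x) ψ x = c * dt (Rs a f) ψ x := fun x => by
    simp only [dt, pd_mul (differentiableAt_const c) (cd_diff cf x), pd_const, zero_mul, zero_add,
      Finset.mul_sum, mul_assoc]
  have e2 : ∀ x, (c0 n * (c * f x) - 2 * a * (c * Rs a f x)) * ψ x
      = c * ((c0 n * f x - 2 * a * Rs a f x) * ψ x) := fun x => by ring
  simp only [wk_Rs_cmul, e1, e2]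
  rw [integral_const_mul, integral_const_mul, h1]

theorem weakS (hn : 2 ≤ n) (F : FoldS n) (Mo : MonoS n) (R : RegS n) : WeakS n := by
  intro a f ha hf hs
  obtain ⟨-, -, fc, fs, ff⟩ := F
  refine ⟨R a f ha hf, fun ψ hψ => ?_⟩
  have hb : ∀ g : Fn n, Bd g → Bd fun x => g (fold x) := fun g hg =>
    ⟨hg.1.comp fc.measurable, hg.2.imp fun M hM x => hM _⟩
  have h := Mo (fun g => wk_I a ψ fun x => g (fold x))
    (fun g hc hg => wk_cont (by omega) R ha hψ (hb g hg) (hc.comp fc) (fs g))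
    (fun g g' hg hg' h1 h2 => wk_add R ha hψ (hb g hg) (hb g' hg') h1 h2)
    (fun c g hg h1 => wk_cmul R ha (hb g hg) c h1)
    (fun U g B hm hB hl hI => wk_lim R ha hψ (F := fun k x => U k (fold x))
      (fun k => (hm k).comp fc.measurable) (fun k x => hB k _) (fun x => hl _) hI) f hf
  rw [show (fun x => f (fold x)) = f from funext (ff f hs)] at h
  exact h

end Pool.Agent.MP_478eab_an.P
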