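import Mathlib
import Pool.Agent.MP_478eab_an.P.Bump
import Pool.Agent.MP_478eab_an.P.Dat
import Pool.Agent.MP_478eab_an.P.Ex
import Pool.Agent.MP_478eab_an.P.Fold
import Pool.Agent.MP_478eab_an.P.Grad
import Pool.Agent.MP_478eab_an.P.Grad2
import Pool.Agent.MP_478eab_an.P.Id
import Pool.Agent.MP_478eab_an.P.Key
import Pool.Agent.MP_478eab_an.P.Key2
import Pool.Agent.MP_478eab_an.P.Loc
import Pool.Agent.MP_478eab_an.P.Main
import Pool.Agent.MP_478eab_an.P.One
import Pool.Agent.MP_478eab_an.P.Pde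
import Pool.Agent.MP_478eab_an.P.Poi
import Pool.Agent.MP_478eab_an.P.Reg
import Pool.Agent.MP_478eab_an.P.Rep
import Pool.Agent.MP_478eab_an.P.Sel
import Pool.Agent.MP_478eab_an.P.Strip
import Pool.Agent.MP_478eab_an.P.Weak

/-! Assembly, and the rescaling to `μ = 1`. -/

namespace Pool.Agent.MP_478eab_an.P

open MeasureTheory Set Filter Pool.Agent.MP_478eab_an.V

variable {n : ℕ}

theorem mainAll (hn : 1 ≤ n) : MainS n := by
  rcases hn.eq_or_lt with rfl | h
  · exact mainOne foldS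
  have W : WeakS n := weakS h foldS monoS regS
  have R := repS foldS W
  have G := gradS R
  exact mainS (normS foldS W R) covS (pdeS h foldS (exS W G harS) idS bumpS harS
    (keyS poiS bumpS harS) key2S smallS (datS foldS G (grad2S foldS R) harS (adjS foldS W R) idS))
    (stripS (selS h covS)) (locS divS) divS (glueS bumpS) h

theorem al_pd {u : (Fin n → ℝ) → ℝ} (hu : ContDiff ℝ 1 u) (c : ℝ) (i : Fin n) (x : Fin n → ℝ) :
    pd i (fun y => c * u y) x = c * pd i u x := by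
  rw [pd_mul (differentiableAt_const _) (cd_diff hu x), pd_const]; ring

theorem al_res {κ m₀ μ : ℝ} {m : (Fin n → ℝ) → ℝ} (hκ : 0 < κ) (hμ : 0 < μ) (h : Adm κ m₀ m) :
    ∃ M : (Fin n → ℝ) → ℝ, Rc (κ / μ) M ∧ ∀ᵐ x ∂volume.restrict (cube n), m x = μ * M x := by
  obtain ⟨am, bm, -⟩ := h
  obtain ⟨-, f2, f3, f4, -⟩ := foldS (n := n)
  refine ⟨fun x => max 0 (min (am.mk m (fold x)) κ) / μ, ⟨((measurable_const.max
    (am.measurable_mk.min measurable_const)).div_const μ).comp f3.measurable,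
    f4 fun x => max 0 (min (am.mk m x) κ) / μ, fun x => ⟨div_nonneg (le_max_left _ _) hμ.le,
    div_le_div_of_nonneg_right (max_le hκ.le (min_le_right _ _)) hμ.le⟩⟩, ?_⟩
  filter_upwards [am.ae_eq_mk, bm, ae_restrict_mem cube_meas] with x e b hx
  rw [f2 x hx, ← e, min_eq_left b.2, max_eq_right b.1, mul_div_cancel₀ _ hμ.ne']

theorem al_ws {μ : ℝ} {m M θ : (Fin n → ℝ) → ℝ} (hμ : 0 < μ) (h : IsSol μ m θ)
    (e : ∀ᵐ x ∂volume.restrict (cube n), m x = μ * M x) :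
    WS (fun x => μ⁻¹ * θ x) fun x => μ⁻¹ * θ x * (M x - μ⁻¹ * θ x) := by
  refine ⟨contDiff_const.mul h.1, fun ψ hψ => ?_⟩
  have e1 : ∀ x, dt (fun x => μ⁻¹ * θ x) ψ x = μ⁻¹ * ∑ i, pd i θ x * pd i ψ x := fun x => by
    simp only [dt, al_pd h.1, Finset.mul_sum, mul_assoc]
  have e2 : ∫ x in cube n, μ⁻¹ * θ x * (M x - μ⁻¹ * θ x) * ψ x
      = ∫ x in cube n, μ⁻¹ * μ⁻¹ * (θ x * (m x - θ x) * ψ x) :=
    integral_congr_ae (e.mono fun x hx => by simp only [hx]; field_simp)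
  simp only [e1]
  rw [e2, integral_const_mul, integral_const_mul, ← h.2.2 ψ hψ]
  field_simp

theorem al_sol {μ : ℝ} {M θ : (Fin n → ℝ) → ℝ} (hμ : 0 < μ)
    (h : WS θ fun x => θ x * (M x - θ x)) (p : ∀ x ∈ cube n, 0 < θ x) :
    IsSol μ (fun x => μ * M x) fun x => μ * θ x := by
  refine ⟨contDiff_const.mul h.1, fun x hx => mul_pos hμ (p x hx), fun ψ hψ => ?_⟩
  have e1 : ∀ x, ∑ i, pd i (fun x => μ * θ x) x * pd i ψ x = μ * dt θ ψ x := fun x => by
    simp only [dt, al_pd h.1, Finset.mul_sum, mul_assoc]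
  simp only [e1]
  rw [integral_const_mul, h.2 ψ hψ, ← integral_const_mul, ← integral_const_mul]
  congr 1
  funext x
  ring

end Pool.Agent.MP_478eab_an.P
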