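import Pool.Agent.MP_478eab_an.P.Spec

/-! Perimeter of maximisers: the analytic half. -/

namespace Pool.Agent.MP_478eab_an.P

open MeasureTheory Set Filter Topology Metric Pool.Agent.MP_478eab_an.V

variable {n : ℕ}

theorem pe_cd {θ θ' : Fn n} (h : ContDiff ℝ 1 θ) (h' : ContDiff ℝ 1 θ') (p : ∀ x, 0 < θ x)
    (p' : ∀ x, 0 < θ' x) : ContDiff ℝ 1 fun x => Real.log (θ' x) - Real.log (θ x) :=
  (h'.log fun x => (p' x).ne').sub (h.log fun x => (p x).ne')

theorem pe_log {θ : Fn n} {L : ℝ} (h : ContDiff ℝ 1 θ) (p : ∀ x, 0 < θ x)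
    (b : ∀ x i, |pd i θ x| ≤ L * θ x) (x : Fin n → ℝ) (i : Fin n) :
    |pd i (fun x => Real.log (θ x)) x| ≤ L := by
  rw [pd_comp (Real.hasDerivAt_log (p x).ne') (cd_diff h x), abs_mul, abs_of_pos (inv_pos.2 (p x)),
    inv_mul_le_iff₀ (p x), mul_comm]
  exact b x i

theorem pe_lip {θ θ' : Fn n} {L : ℝ} (h : ContDiff ℝ 1 θ) (h' : ContDiff ℝ 1 θ') (p : ∀ x, 0 < θ x)
    (p' : ∀ x, 0 < θ' x) (b : ∀ x i, |pd i θ x| ≤ L * θ x) (b' : ∀ x i, |pd i θ' x| ≤ L * θ' x)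
    (x : Fin n → ℝ) (i : Fin n) :
    |pd i (fun x => Real.log (θ' x) - Real.log (θ x)) x| ≤ 2 * L := by
  have d := cd_diff (h.log fun x => (p x).ne') x
  have d' := cd_diff (h'.log fun x => (p' x).ne') x
  have e : pd i (fun x => Real.log (θ' x) - Real.log (θ x)) x =
      pd i (fun x => Real.log (θ' x)) x - pd i (fun x => Real.log (θ x)) x := by
    rw [pd_of_has (d'.hasFDerivAt.fun_sub d.hasFDerivAt)]
    rfl
  rw [e]
  linarith [abs_sub (pd i (fun x => Real.log (θ' x)) x) (pd i (fun x => Real.log (θ x)) x),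
    pe_log h p b x i, pe_log h' p' b' x i]

/-- the response is small in the mean -/
theorem pe_mean (I : IdS n) {κ τ : ℝ} {θ θ' M M' h : (Fin n → ℝ) → ℝ} (hM : LB M) (hM' : LB M')
    (hh : LB h)
    (w : WS θ fun x => θ x * (M x - θ x)) (w' : WS θ' fun x => θ' x * (M' x - θ' x))
    (p : ∀ x, 0 < θ x ∧ θ x ≤ κ) (p' : ∀ x, 0 < θ' x ∧ θ' x ≤ κ) (hτ : 0 < τ)
    (t : ∀ x ∈ cube n, τ ≤ θ x) (e : ∀ x ∈ cube n, M' x - M x = h x) :
    τ ^ 3 * ∫ x in cube n, (Real.exp (Real.log (θ' x) - Real.log (θ x)) - 1) ^ 2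
      ≤ κ ^ 2 * ∫ x in cube n, |h x| := by
  obtain ⟨v, hv⟩ : ∃ v : (Fin n → ℝ) → ℝ, v = fun x => Real.log (θ' x) - Real.log (θ x) :=
    ⟨_, rfl⟩
  have hv' : ∀ x, v x = Real.log (θ' x) - Real.log (θ x) := fun x => by rw [hv]
  have cv : ContDiff ℝ 1 v := hv ▸ pe_cd w.1 w'.1 (fun x => (p x).1) fun x => (p' x).1
  have ev : ∀ x, θ x * Real.exp (v x) = θ' x := fun x => by
    rw [hv', Real.exp_sub, Real.exp_log (p x).1, Real.exp_log (p' x).1,
      mul_div_cancel₀ _ (p x).1.ne']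
  have k := I.1 θ θ' θ M M' hM hM' w w' (fun x => (p x).1) (fun x => (p' x).1) w.1 v hv'
    (fun x => Real.exp (v x) - 1) (cv.exp.sub contDiff_const)
  have d : ∀ x, dt v (fun x => Real.exp (v x) - 1) x = Real.exp (v x) * gs v x := fun x => by
    unfold dt gs
    rw [Finset.mul_sum]
    refine Finset.sum_congr rfl fun i _ => ?_
    rw [pd_comp (g := fun t => Real.exp t - 1) ((Real.hasDerivAt_exp _).sub_const 1)
      (cd_diff cv x)]
    ring
  have cθ := w.1.continuous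
  have c1 := cv.continuous
  have c2 := gs_continuous cv
  simp only [d, wd, sub_self, zero_mul, Finset.sum_const_zero, mul_zero, add_zero] at k
  simp only [← hv']
  rw [← integral_const_mul]
  refine (setIntegral_mono_on (LB.of_cont (by fun_prop)).cube (LB.of_cont (by fun_prop)).cube
    cube_meas fun x hx => ?_).trans (k.le.trans (lin1 cube_meas
      (((hM'.sub hM).mul (LB.of_cont (by fun_prop))).mul (LB.of_cont (by fun_prop))).cube
      hh.cube.abs fun x hx => ?_))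
  · have a : τ ^ 3 ≤ θ x ^ 3 := pow_le_pow_left₀ hτ.le (t x hx) 3
    nlinarith [mul_le_mul_of_nonneg_right a (sq_nonneg (Real.exp (v x) - 1)),
      mul_nonneg (sq_nonneg (θ x)) (gs_nonneg v x)]
  · have a : |θ x * (θ' x - θ x)| ≤ κ ^ 2 := by
      rw [abs_mul, abs_of_pos (p x).1, sq]
      exact mul_le_mul (p x).2 (abs_le.2 ⟨by linarith [p x, p' x], by linarith [p x, p' x]⟩)
        (abs_nonneg _) ((p x).1.le.trans (p x).2)
    calc (M' x - M x) * (θ x * θ x) * (Real.exp (v x) - 1) = θ x * (θ' x - θ x) * h x := by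
          rw [e x hx, ← ev x]
          ring
      _ ≤ κ ^ 2 * |h x| := (le_abs_self _).trans (by
          rw [abs_mul]
          exact mul_le_mul_of_nonneg_right a (abs_nonneg _))

/-- the energy of a bump -/
theorem pe_bump (hn : 2 ≤ n) {φ ψ : (Fin n → ℝ) → ℝ} {y : Fin n → ℝ} {s l L A C : ℝ} (hs : 0 < s)
    (hl : s ≤ l) (hL : 0 ≤ L) (hLs : L * s ≤ 1) (hA : 0 ≤ A) (hC : 0 ≤ C) (cφ : Continuous φ)
    (cψ : ContDiff ℝ 1 ψ) (h0 : ∀ x, 0 ≤ φ x) (h1 : ∀ x ∈ closedBall y (2 * s), φ x ≤ A)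
    (r : ∀ x, 0 ≤ ψ x ∧ ψ x ≤ 1) (g : ∀ x, gs ψ x ≤ C / s ^ 2)
    (z : ∀ x, x ∉ closedBall y (2 * s) → ψ x = 0 ∧ ∀ i, pd i ψ x = 0) :
    ∫ x in cube n, φ x * (gs ψ x + L ^ 2 * ψ x ^ 2) ≤ A * (C + 1) * 4 ^ n * l ^ (n - 2) := by
  have c1 := cψ.continuous
  have c2 := gs_continuous cψ
  have hK : 0 ≤ A * (C + 1) / s ^ 2 := by positivity
  have mB : MeasurableSet (closedBall y (2 * s)) := measurableSet_closedBall
  refine (lin1 (g := (closedBall y (2 * s)).indicator fun _ => (1 : ℝ)) (a := A * (C + 1) / s ^ 2)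
    cube_meas (LB.of_cont (by fun_prop)).cube (LB.ind mB).cube fun x _ => ?_).trans ?_
  · by_cases hx : x ∈ closedBall y (2 * s)
    · have a : L ^ 2 * ψ x ^ 2 ≤ 1 / s ^ 2 := by
        rw [le_div_iff₀ (by positivity)]
        have a1 : (L * s) ^ 2 ≤ 1 := pow_le_one₀ (by positivity) hLs
        have a2 : ψ x ^ 2 ≤ 1 := pow_le_one₀ (r x).1 (r x).2
        nlinarith [mul_le_mul a1 a2 (sq_nonneg _) zero_le_one]
      rw [indicator_of_mem hx, mul_one, mul_div_assoc, add_div]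
      exact mul_le_mul (h1 x hx) (add_le_add (g x) a)
        (add_nonneg (gs_nonneg _ _) (by positivity)) hA
    · simp [indicator_of_notMem hx, gs, (z x hx).1, (z x hx).2]
  · have a : ∫ x in cube n, (closedBall y (2 * s)).indicator (fun _ => (1 : ℝ)) x ≤ (4 * s) ^ n := by
      refine (setIntegral_le_integral ((integrable_indicator_iff mB).2
        ((LB.const 1).intOn (isCompact_closedBall _ _) subset_rfl))
        (Eventually.of_forall fun x => indicator_nonneg (fun _ _ => zero_le_one) x)).trans ?_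
      rw [integral_indicator mB, setIntegral_const, Measure.real,
        Real.volume_pi_closedBall _ (by positivity), ENNReal.toReal_ofReal (by positivity)]
      simp only [Fintype.card_fin, smul_eq_mul, mul_one]
      exact le_of_eq (by ring)
    obtain ⟨k, rfl⟩ : ∃ k, n = k + 2 := ⟨n - 2, by omega⟩
    calc _ ≤ A * (C + 1) / s ^ 2 * (4 * s) ^ (k + 2) := mul_le_mul_of_nonneg_left a hK
      _ = A * (C + 1) * 4 ^ (k + 2) * s ^ k := by
          field_simp
          ring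
      _ ≤ _ := by
          rw [Nat.add_sub_cancel]
          gcongr

theorem pdeS (hn : 2 ≤ n) (F : FoldS n) (E : ExS n) (I : IdS n) (B : BumpS n) (H : HarS n)
    (K : KeyS n) (K2 : Key2S n) (S : SmallS n) (D : DatS n) : PdeS n := by
  obtain ⟨Cd, hCd, D⟩ := D
  obtain ⟨εK, hεK, K⟩ := K
  obtain ⟨Cb, hCb, B⟩ := B
  obtain ⟨-, F2, F3, F4, -⟩ := F
  have hn' : (2 : ℝ) ≤ n := by exact_mod_cast hn
  have hCd0 : 0 < Cd := one_pos.trans_le hCd
  have h8 : 0 < 1 / (8 * (n : ℝ)) := by positivity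
  have h81 : 1 / (8 * (n : ℝ)) ≤ 1 := div_le_one_of_le₀ (by linarith) (by positivity)
  refine ⟨min εK (1 / (8 * n)) / Cd, 2 * n * Cd + 2 * (Cb + 1) * 4 ^ n,
    div_pos (lt_min hεK h8) hCd0,
    div_le_one_of_le₀ ((min_le_right _ _).trans (h81.trans hCd)) hCd0.le, by positivity,
    fun κ M θ hκ hM h0 hθ hb hx => ?_⟩
  obtain ⟨d1, p, cp, dat, d2⟩ := D κ M θ hκ hM hθ hb
  obtain ⟨φ, hφ⟩ : ∃ φ : Fn n, φ = fun x => θ x * p x := ⟨_, rfl⟩
  have hφ' : ∀ x, θ x * p x = φ x := fun x => by rw [hφ]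
  simp only [hφ'] at d2
  rw [← hφ] at dat
  have hL := dat.L0
  have cθ := dat.tc
  refine ⟨φ, dat.pc, dat.p0, fun x₀ hx₀ l hl hε => ?_⟩
  have hLl : Cd * √κ * l ≤ min εK (1 / (8 * n)) := by
    rw [le_div_iff₀ hCd0] at hε
    nlinarith [mul_pos hl hCd0]
  have hLn : n * (Cd * √κ) * (4 * l) ≤ 1 / 2 := by
    have := hLl.trans (min_le_right _ _)
    rw [le_div_iff₀ (by positivity)] at this
    linarith
  have har : ∀ x y, ‖y - x‖ ≤ 4 * l → φ y ≤ 2 * φ x := fun x y h => by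
    refine (H φ _ dat.pc hL.le dat.pg x y).trans (mul_le_mul_of_nonneg_right ?_ (dat.p0 x).le)
    refine (Real.exp_le_exp.2 ((mul_le_mul_of_nonneg_left h (by positivity)).trans hLn)).trans ?_
    have := Real.exp_one_lt_three
    have e : Real.exp (1 / 2) ^ 2 = Real.exp 1 := by rw [← Real.exp_nat_mul]; norm_num
    nlinarith [Real.exp_pos (1 / 2 : ℝ)]
  have up : ∀ x ∈ closedBall x₀ (4 * l), φ x ≤ 2 * φ x₀ := fun x h =>
    har x₀ x (mem_closedBall_iff_norm.1 h)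
  have l4 : closedBall x₀ l ⊆ closedBall x₀ (4 * l) := closedBall_subset_closedBall (by linarith)
  have p0 := dat.p0 x₀
  refine ⟨fun x h => ⟨?_, up x (l4 h.1)⟩, fun x h => ?_, ?_⟩
  · linarith [har x x₀ (mem_closedBall_iff_norm'.1 (l4 h.1))]
  · have m0 : 0 ≤ min √κ κ := le_min (Real.sqrt_nonneg _) hκ.le
    have a : ∀ i, pd i φ x ^ 2 ≤ (2 * Cd * min √κ κ * φ x₀) ^ 2 := fun i =>
      sq_le_sq.2 (((d2 x i).trans ((mul_le_mul_of_nonneg_left (up x (l4 h.1))
        (mul_nonneg hCd0.le m0)).trans_eq (by ring))).trans (le_abs_self _))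
    calc gs φ x ≤ ∑ _i : Fin n, (2 * Cd * min √κ κ * φ x₀) ^ 2 := Finset.sum_le_sum fun i _ => a i
      _ = n * (2 * Cd * min √κ κ * φ x₀) ^ 2 := by simp
      _ ≤ n ^ 2 * (2 * Cd * min √κ κ * φ x₀) ^ 2 :=
          mul_le_mul_of_nonneg_right (by nlinarith) (sq_nonneg _)
      _ = (2 * n * Cd * min √κ κ * φ x₀) ^ 2 := by ring
      _ ≤ _ := by
          gcongr
          exact le_add_of_nonneg_right (by positivity)
  obtain ⟨xm, -, hm⟩ := cube_compact.exists_isMinOn ⟨x₀, hx₀⟩ cθ.continuousOn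
  have hτ := (hb xm).1
  obtain ⟨η, hη, S⟩ := S (2 * (Cd * √κ)) (1 / 100) (by positivity) (by norm_num)
  refine ⟨θ xm ^ 3 * η / κ ^ 2, by positivity, fun h mh zh bh ih sh => ?_⟩
  have lM : LB M := LB.of_bound hM.meas (C := κ) fun x => by
    rw [abs_of_nonneg (hM.bd x).1]
    exact (hM.bd x).2
  have lh : LB h := LB.of_bound mh (C := κ) fun x =>
    abs_le.2 ⟨by linarith [hM.bd x, bh x], by linarith [hM.bd x, bh x]⟩
  obtain ⟨M', hM', eM⟩ : ∃ M' : Fn n, Rc κ M' ∧ ∀ x ∈ cube n, M' x - M x = h x :=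
    ⟨fun x => M (fold x) + h (fold x), ⟨(hM.meas.add mh).comp F3.measurable,
      F4 fun x => M x + h x, fun x => bh _⟩, fun x hx => by simp [F2 x hx]⟩
  have lM' : LB M' := LB.of_bound hM'.meas (C := κ) fun x => by
    rw [abs_of_nonneg (hM'.bd x).1]
    exact (hM'.bd x).2
  have iM : ∫ x in cube n, M' x = ∫ x in cube n, M x := by
    rw [← sub_eq_zero, ← integral_sub lM'.cube lM.cube, setIntegral_congr_fun cube_meas eM, ih]
  obtain ⟨θ', hθ', hb'⟩ := E κ M' hκ hM' (iM ▸ h0)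
  have cv := pe_cd hθ.ws.1 hθ'.ws.1 (fun x => (hb x).1) fun x => (hb' x).1
  have rsp : Rsp θ φ (fun i y => θ y * pd i p y - p y * pd i θ y) h
      fun x => Real.log (θ' x) - Real.log (θ x) := by
    refine ⟨cv, lh, S _ cv (pe_lip hθ.ws.1 hθ'.ws.1 (fun x => (hb x).1) (fun x => (hb' x).1) d1
      (D κ M' θ' hκ hM' hθ' hb').1) ?_, fun ζ hζ => ?_, ?_⟩
    · have a := pe_mean I lM lM' lh hθ.ws hθ'.ws hb hb' hτ (fun x hx => hm hx) eM
      rw [le_div_iff₀ (by positivity)] at sh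
      exact le_of_mul_le_mul_left (a.trans ((mul_comm _ _).trans_le sh)) (by positivity)
    · have a := I.1 θ θ' p M M' lM lM' hθ.ws hθ'.ws (fun x => (hb x).1) (fun x => (hb' x).1) cp _
        (fun _ => rfl) ζ hζ
      simp only [hφ'] at a
      exact a.trans (setIntegral_congr_fun cube_meas fun x hx => by simp only [eM x hx])
    · have a : ∀ x, θ x * (Real.exp (Real.log (θ' x) - Real.log (θ x)) - 1) = θ' x - θ x :=
        fun x => by
          rw [Real.exp_sub, Real.exp_log (hb x).1, Real.exp_log (hb' x).1, mul_sub,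
            mul_div_cancel₀ _ (hb x).1.ne', mul_one]
      simp only [a]
      rw [integral_sub (LB.of_cont hθ'.ws.1.continuous).cube (LB.of_cont cθ).cube, sub_nonpos]
      exact hx M' θ' hM' iM hθ'.ws fun x => (hb' x).1
  obtain ⟨k1, k2, k3⟩ := K _ l θ φ h _ _ x₀ dat rsp hx₀ hl (hLl.trans (min_le_left _ _))
    fun x hx => zh x fun h => hx h.1
  refine ⟨k1, fun y s hs hsl hy => ?_⟩
  obtain ⟨ψ, cψ, r, o, z, g, z'⟩ := B y s hs
  refine ⟨ψ, cψ.continuous, o, z, fun γ hγ => (K2 _ _ γ θ φ h _ ψ _ dat rsp k2 k3 cψ r hγ).trans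
    (add_le_add_right (mul_le_mul_of_nonneg_left ?_ hγ.le) _)⟩
  refine (pe_bump hn hs hsl hL.le ((mul_le_mul_of_nonneg_left hsl hL.le).trans
    (hLl.trans ((min_le_right _ _).trans h81))) (A := 2 * φ x₀) (by positivity) hCb.le
    dat.pc.continuous cψ (fun x => (dat.p0 x).le) (fun x hx => up x ?_) r g
    fun x hx => ⟨z x hx, z' x (Or.inr hx)⟩).trans (mul_le_mul_of_nonneg_right ?_ (by positivity))
  · rw [mem_closedBall] at hx ⊢
    linarith [dist_triangle x y x₀]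
  · have : 0 ≤ 2 * n * Cd * φ x₀ := by positivity
    linarith

end Pool.Agent.MP_478eab_an.P
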